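import Pool.Agent.H38.OD.Nc
import Pool.Agent.H26.OD.Na
import Pool.Agent.H30.ZO.Nh
import Pool.Agent.H30.ZO.Ni
import Pool.Agent.H88.ZR.Hd
import Pool.Agent.H88.OD.Fa
import Pool.Agent.H30.PN.Fi
import Pool.Agent.H30.OD.Vs

/-!
MP_78d38b_OD (helper38), stage 4b: the theorem for all number fields between `K` and `N`, and the converse.

* `up_rel`: the interface of `up_N` for `RelZ K Sg (Zs K N) D0 D`.
* `locC_iff`: the two forms of the local condition if the cubic has no root in `N`.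
* `tv_scale`: the curves with parameters `(A, B)` and `(c^4 A, c^6 B)`.
* `desc_of_all`, `real_of_all`: the conditions are necessary.
* `exists_Sg`: a finite set which contains all the bad primes.
-/

set_option autoImplicit false
set_option linter.unusedSectionVars false
open scoped Classical

open WithZero NumberField IsDedekindDomain H38RT
open H38T1 (SC sc scu rep eo la si Pri OddP tp unif)
open H76PP H73P2 H36CY H73CY H73ZO H30ZO

namespace H38OD

/-- Isomorphic curves. -/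
theorem tv_scale {M : Type} [Field M] [NumberField M] {A B c : M} (hc : c ≠ 0)
    (hd : 4 * A ^ 3 + 27 * B ^ 2 ≠ 0) (h : Tv M A B) : Tv M ((c ^ 2) ^ 2 * A) ((c ^ 2) ^ 3 * B) := by
  have hc2 : c ^ 2 ≠ 0 := pow_ne_zero 2 hc
  have hir := h.noroot hd
  refine tv_of_sel (fun t ht => hir (t / c ^ 2) ?_) fun L _ _ _ θ hL => ?_
  · field_simp
    linear_combination ht
  · have hi : (c ^ 2)⁻¹ ≠ 0 := inv_ne_zero hc2
    have h0 := Tf_twist hL hi
    have e1 : (c ^ 2)⁻¹ ^ 2 * ((c ^ 2) ^ 2 * A) = A := by field_simp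
    have e2 : (c ^ 2)⁻¹ ^ 3 * ((c ^ 2) ^ 3 * B) = B := by field_simp
    rw [e1, e2] at h0
    have hS := Tv.selT h L _ h0
    intro d hd0 hN hf hr
    have hev : ev (algebraMap M L (c ^ 2)⁻¹ * θ) (fun j => d j * (c ^ 2) ^ (j : ℕ)) = ev θ d := by
      have h5 : algebraMap M L c ≠ 0 := (map_ne_zero _).2 hc
      unfold ev
      simp only [Fin.val_zero, Fin.val_one, Fin.val_two, map_mul, map_pow, map_inv₀, pow_zero,
        pow_one, mul_one]
      field_simp
    rw [← hev]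
    refine hS _ ?_ ?_ ?_ ?_
    · rw [hev]
      exact hd0
    · rw [hev]
      exact hN
    · intro v
      exact LC_twist _ hc2 (r := algebraMap M _ c) (by rw [map_pow]) (hf v)
    · intro s
      exact LC_twist _ hc2 (r := s c) (by rw [map_pow]) (hr s)

section Conv

variable {K N : Type} [Field K] [NumberField K] [Field N] [NumberField N] [Algebra K N]

/-- The two forms of the local condition. -/
theorem locC_iff {v : HeightOneSpectrum (𝓞 K)} {a b : K}
    (hir : ∀ t : N, t ^ 3 + algebraMap K N a * t + algebraMap K N b ≠ 0) :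
    H36ZO.LocC K N v a b ↔ DescAt K N v a b := by
  have hnr : ∀ (k : Type) [Field k] [NumberField k] [Algebra K k] (_ : k →ₐ[K] N) (t : k),
      t ^ 3 + algebraMap K k a * t + algebraMap K k b ≠ 0 := by
    intro k _ _ _ f t ht
    apply hir (f t)
    have h1 := congrArg f ht
    rw [map_add, map_add, map_mul, map_pow, f.commutes, f.commutes, map_zero] at h1
    exact h1
  have hT : NumberField (⊤ : IntermediateField K N) := inferInstance
  constructor
  · intro h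
    have h1 := descN_of_locC hnr h (⊤ : IntermediateField K N)
    exact descAt_mono (IntermediateField.topEquiv.symm : N ≃ₐ[K] _).toAlgHom h1
  · intro h
    refine locC_of_descN hnr fun M _ => ?_
    exact descAt_mono M.val h

/-- The conditions at the primes are necessary. -/
theorem desc_of_all {a b : K} (ha : ∀ v : HeightOneSpectrum (𝓞 K), v.valuation K a ≤ 1)
    (hb : ∀ v : HeightOneSpectrum (𝓞 K), v.valuation K b ≤ 1)
    (hd : 4 * a ^ 3 + 27 * b ^ 2 ≠ 0) {D : K} (hD : D ≠ 0)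
    (h : ∀ (M : IntermediateField K N) [NumberField M],
      Tv M (algebraMap K M (D ^ 2 * a)) (algebraMap K M (D ^ 3 * b))) :
    (∀ v : HeightOneSpectrum (𝓞 K), DescAt K N v (D ^ 2 * a) (D ^ 3 * b)) ∧ RealAt K N a b := by
  have hex : ∀ x : K, (∀ v : HeightOneSpectrum (𝓞 K), v.valuation K x ≤ 1) →
      ∃ y : 𝓞 K, algebraMap (𝓞 K) K y = x := by
    intro x hx
    exact (HeightOneSpectrum.mem_integers_of_valuation_le_one K x hx)
  obtain ⟨a', rfl⟩ := hex a ha
  obtain ⟨b', rfl⟩ := hex b hb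
  obtain ⟨α, β, hβ, hxy⟩ := IsFractionRing.div_surjective (A := 𝓞 K) D
  have hβ0 : β ≠ 0 := nonZeroDivisors.ne_zero hβ
  have hβK : algebraMap (𝓞 K) K β ≠ 0 := by
    intro h1
    exact hβ0 (FaithfulSMul.algebraMap_injective (𝓞 K) K (by rw [h1, map_zero]))
  obtain ⟨c, hcd⟩ : ∃ c : K, c = algebraMap (𝓞 K) K β := ⟨_, rfl⟩
  have hc : c ≠ 0 := by rw [hcd]; exact hβK
  have e0 : c ^ 2 * D = algebraMap (𝓞 K) K (α * β) := by
    rw [← hxy, hcd, map_mul]
    field_simp
  have e1 : ∀ x : 𝓞 K, (c ^ 2) ^ 2 * (D ^ 2 * algebraMap (𝓞 K) K x) =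
      algebraMap (𝓞 K) K ((α * β) ^ 2 * x) := by
    intro x
    rw [map_mul, map_pow, ← e0]
    ring
  have e2 : ∀ x : 𝓞 K, (c ^ 2) ^ 3 * (D ^ 3 * algebraMap (𝓞 K) K x) =
      algebraMap (𝓞 K) K ((α * β) ^ 3 * x) := by
    intro x
    rw [map_mul, map_pow, ← e0]
    ring
  have hdD : 4 * (D ^ 2 * algebraMap (𝓞 K) K a') ^ 3 + 27 * (D ^ 3 * algebraMap (𝓞 K) K b') ^ 2 ≠ 0 := by
    have e : 4 * (D ^ 2 * algebraMap (𝓞 K) K a') ^ 3 + 27 * (D ^ 3 * algebraMap (𝓞 K) K b') ^ 2 =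
        D ^ 6 * (4 * algebraMap (𝓞 K) K a' ^ 3 + 27 * algebraMap (𝓞 K) K b' ^ 2) := by ring
    rw [e]
    exact mul_ne_zero (pow_ne_zero 6 hD) hd
  have hPF : PF K N ((α * β) ^ 2 * a', (α * β) ^ 3 * b') := by
    intro M _
    have h1 := tv_scale (c := algebraMap K M c) ((map_ne_zero _).2 hc) (by
      have h2 := (map_ne_zero (algebraMap K M)).2 hdD
      rw [map_add, map_mul _ 4, map_mul _ 27, map_pow, map_pow _ (D ^ 3 * _), map_ofNat,
        map_ofNat] at h2
      exact h2) (h M)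
    rw [← map_pow, ← map_pow, ← map_pow, ← map_mul, ← map_mul, e1, e2] at h1
    exact h1
  have hne : 4 * ((α * β) ^ 2 * a') ^ 3 + 27 * ((α * β) ^ 3 * b') ^ 2 ≠ 0 := by
    intro h1
    have h2 := congrArg (algebraMap (𝓞 K) K) h1
    rw [map_add, map_mul, map_mul _ 27, map_pow, map_pow _ ((α * β) ^ 3 * b'), ← e1, ← e2, map_ofNat,
      map_ofNat, map_zero] at h2
    have h3 : 4 * ((c ^ 2) ^ 2 * (D ^ 2 * algebraMap (𝓞 K) K a')) ^ 3 +
        27 * ((c ^ 2) ^ 3 * (D ^ 3 * algebraMap (𝓞 K) K b')) ^ 2 = c ^ 12 *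
        (4 * (D ^ 2 * algebraMap (𝓞 K) K a') ^ 3 + 27 * (D ^ 3 * algebraMap (𝓞 K) K b') ^ 2) := by
      ring
    rw [h3] at h2
    exact (mul_ne_zero (pow_ne_zero 12 hc) hdD) h2
  have hinv : (c ^ 2)⁻¹ ≠ 0 := inv_ne_zero (pow_ne_zero 2 hc)
  constructor
  · intro v
    have hT : NumberField (⊤ : IntermediateField K N) := inferInstance
    have h1 := zo_loc (F := N) hne hPF (⊤ : IntermediateField K N) v
    have h2 := descAt_mono (IntermediateField.topEquiv.symm : N ≃ₐ[K] _).toAlgHom h1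
    have h3 := descAt_twist hinv (r := algebraMap K _ c⁻¹) (by
      rw [← map_pow, inv_pow]) h2
    change DescAt K N v ((c ^ 2)⁻¹ ^ 2 * algebraMap (𝓞 K) K ((α * β) ^ 2 * a'))
      ((c ^ 2)⁻¹ ^ 3 * algebraMap (𝓞 K) K ((α * β) ^ 3 * b')) at h3
    rw [← e1, ← e2] at h3
    have e3 : (c ^ 2)⁻¹ ^ 2 * ((c ^ 2) ^ 2 * (D ^ 2 * algebraMap (𝓞 K) K a')) =
        D ^ 2 * algebraMap (𝓞 K) K a' := by field_simp
    have e4 : (c ^ 2)⁻¹ ^ 3 * ((c ^ 2) ^ 3 * (D ^ 3 * algebraMap (𝓞 K) K b')) =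
        D ^ 3 * algebraMap (𝓞 K) K b' := by field_simp
    rwa [e3, e4] at h3
  · have h1 := zo_realF hne hPF
    have h2 := H30ZO.realAt_of h1 (AlgHom.id K N)
    change RealAt K N (algebraMap (𝓞 K) K ((α * β) ^ 2 * a')) (algebraMap (𝓞 K) K ((α * β) ^ 3 * b')) at h2
    rw [← e1, ← e2] at h2
    have h3 := realAt_twist (N := N) (D := (c ^ 2 * D)⁻¹)
      (inv_ne_zero (mul_ne_zero (pow_ne_zero 2 hc) hD)) h2
    have e3 : (c ^ 2 * D)⁻¹ ^ 2 * ((c ^ 2) ^ 2 * (D ^ 2 * algebraMap (𝓞 K) K a')) =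
        algebraMap (𝓞 K) K a' := by field_simp
    have e4 : (c ^ 2 * D)⁻¹ ^ 3 * ((c ^ 2) ^ 3 * (D ^ 3 * algebraMap (𝓞 K) K b')) =
        algebraMap (𝓞 K) K b' := by field_simp
    rwa [e3, e4] at h3

/-- A finite set which contains all the bad primes. -/
theorem exists_Sg {F L : Type} [Field F] [NumberField F] [Field L] [NumberField L] [Algebra K F]
    [Algebra F L] {a b : K} {θ : L} (S : H88OD.Ext K F L a b θ) (N : Type) [Field N] [NumberField N]
    [Algebra K N] {D : K} (hD : D ≠ 0) (Sg : Finset (HeightOneSpectrum (𝓞 K))) :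
    ∃ Sg' : Finset (HeightOneSpectrum (𝓞 K)), Sg ⊆ Sg' ∧ S.Ok D Sg' ∧
      ∀ V : HeightOneSpectrum (𝓞 N), dn K V ∉ Sg' → ¬ Ram K V := by
  obtain ⟨Sg', h1, h2⟩ := H88OD.exists_ok S hD (Sg ∪ ((H30PN.ram_fin K N).image (dn K)).toFinset)
  refine ⟨Sg', Finset.subset_union_left.trans h1, h2, fun V hV hR => hV (h1 ?_)⟩
  refine Finset.mem_union_right _ ?_
  rw [Set.Finite.mem_toFinset]
  exact ⟨V, hR, rfl⟩

end Conv

section Up

variable {K F N L : Type} [Field K] [NumberField K] [Field F] [NumberField F] [Field N]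
  [NumberField N] [Field L] [NumberField L] [Algebra K F] [Algebra F N] [Algebra K N]
  [IsScalarTower K F N] [Algebra F L] {a b : K} {θ : L}

/-- **All the fields between `K` and `N`.** -/
theorem up_rel (S : H88OD.Ext K F L a b θ) [IsGalois K N] {r : ℕ}
    (hr : Module.finrank F N = 2 ^ r) {D0 D : K} {Sg : Finset (HeightOneSpectrum (𝓞 K))}
    (hok : S.Ok D0 Sg) (hram : ∀ V : HeightOneSpectrum (𝓞 N), dn K V ∉ Sg → ¬ Ram K V)
    (hreal : RealAt K N a b) (hdesc : ∀ v ∈ Sg, DescAt K N v (D0 ^ 2 * a) (D0 ^ 3 * b))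
    (hrel : H88OD.RelZ K Sg (H26OD.Zs K N) D0 D) (hV : ∀ c, S.V D c → c = 0)
    (M : Type) [Field M] [NumberField M] [Algebra K M] [Algebra M N] [IsScalarTower K M N] :
    Tv M (algebraMap K M (D ^ 2 * a)) (algebraMap K M (D ^ 3 * b)) := by
  have hfd : FiniteDimensional K N := Module.Finite.of_restrictScalars_finite ℚ K N
  have hgal := S.gal
  have hgalF : IsGalois F N := IsGalois.tower_top_of_isGalois K F N
  have h0 := hrel.rel.n0
  have h1 := hrel.rel.n1
  have e : D0 * (D / D0) = D := mul_div_cancel₀ D h0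
  have hF := H88OD.tv_between S h1 hV F
  have key := up_N (K := K) (F := F) (N := N) (M := M) S.odd hr S.ha S.hb S.dne (D0 := D0)
    (δ := D / D0) h0 (div_ne_zero h1 h0) (Sg := Sg) hok.two hok.dis hok.val hram hrel.rel.sq
    (fun v _ hv2 => by
      by_cases hz : v ∈ H26OD.Zs K N
      · exact fun W hW g hg => hz W hW g (H30OD.gq_of_stb hg)
      · exfalso
        apply hv2
        have h3 := hrel.out v hz
        rw [map_div₀, h3]
        exact div_self ((Valuation.ne_zero_iff _).2 h0)) hreal hdesc (by rw [e]; exact hF)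
  rw [e] at key
  exact key

/-- The converse: the local conditions for `D0`. -/
theorem desc_of_rel {Sg : Finset (HeightOneSpectrum (𝓞 K))}
    (ha : ∀ v : HeightOneSpectrum (𝓞 K), v.valuation K a ≤ 1)
    (hb : ∀ v : HeightOneSpectrum (𝓞 K), v.valuation K b ≤ 1)
    (hd : 4 * a ^ 3 + 27 * b ^ 2 ≠ 0) {D0 D : K} (hrel : H88OD.Rel K Sg D0 D)
    (h : ∀ (M : IntermediateField K N) [NumberField M],
      Tv M (algebraMap K M (D ^ 2 * a)) (algebraMap K M (D ^ 3 * b))) :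
    (∀ v ∈ Sg, DescAt K N v (D0 ^ 2 * a) (D0 ^ 3 * b)) ∧ RealAt K N a b := by
  obtain ⟨h1, h2⟩ := desc_of_all ha hb hd hrel.n1 h
  refine ⟨fun v hv => ?_, h2⟩
  have h0 := hrel.n0
  have h3 := hrel.n1
  obtain ⟨r, hr⟩ := hrel.sq v hv
  have h4 := descAt_twist (D := D0 / D) (r := r⁻¹) (div_ne_zero h0 h3) (by
    rw [← inv_div, map_inv₀, hr, sq, mul_inv]) (h1 v)
  have e1 : (D0 / D) ^ 2 * (D ^ 2 * a) = D0 ^ 2 * a := by field_simp
  have e2 : (D0 / D) ^ 3 * (D ^ 3 * b) = D0 ^ 3 * b := by field_simp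
  rwa [e1, e2] at h4

end Up

end H38OD
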