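import Pool.Agent.H38.OD.Nd

/-!
MP_78d38b_OD (helper38), stage 4b: the local conditions at the primes of good reduction and their transfer to twists.

* `descAt_good_N`: the local condition holds at the odd primes of good reduction which are unramified in `N`
  (version of `H73ZO.descAt_good` for all degrees).
* `descAt_zs`: the local condition at the primes which split completely in `N`.
* `descAt_transfer`: the local conditions for `E_{D0 δ}`.
* `desc_iff`: it is enough to have the local conditions at the bad primes.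
-/

set_option autoImplicit false
set_option linter.unusedSectionVars false
open scoped Classical

open WithZero NumberField IsDedekindDomain H38RT
open H38T1 (SC sc scu rep eo la si Pri OddP tp unif)
open H76PP H73P2 H36CY H73CY H73ZO H30ZO

namespace H38OD

theorem descAt_good_N {K N : Type} [Field K] [NumberField K] [Field N] [NumberField N] [Algebra K N]
    {v : HeightOneSpectrum (𝓞 K)} (hv2 : v.valuation K 2 = 1)
    (hu : ∀ V : HeightOneSpectrum (𝓞 N), dn K V = v → ¬ Ram K V)
    {a b : K} (ha : v.valuation K a ≤ 1) (hb : v.valuation K b ≤ 1)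
    (hvD : v.valuation K (4 * a ^ 3 + 27 * b ^ 2) = 1)
    (hirr : ∀ t : N, t ^ 3 + algebraMap K N a * t + algebraMap K N b ≠ 0) :
    DescAt K N v a b := by
  intro k k' _ _ _ _ _ _ _ _ _ _ _ _ _ two d hdn hsq hloc u hu'
  have hab : ∀ x : K, algebraMap K k' x = algebraMap k k' (algebraMap K k x) :=
    IsScalarTower.algebraMap_apply K k k'
  have hval : ∀ (x : K) (_ : v.valuation K x ≤ 1) (m : Type) [Field m] [NumberField m] [Algebra K m]
      (w : HeightOneSpectrum (𝓞 m)), dn K w = v → w.valuation m (algebraMap K m x) ≤ 1 := by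
    intro x hx m _ _ _ w hw
    have h1 := val_exp_le (L := m) (w := w) (x := x) (m := 0) le_rfl
      (by rw [neg_zero, exp_zero, hw]; exact hx)
    rwa [neg_zero, exp_zero] at h1
  have h2m : ∀ (m : Type) [Field m] [NumberField m] [Algebra K m] (w : HeightOneSpectrum (𝓞 m)),
      dn K w = v → w.valuation m 2 = 1 := by
    intro m _ _ _ w hw
    exact val2_up (K := K) (by rw [hw]; exact hv2)
  have hDm : ∀ (m : Type) [Field m] [NumberField m] [Algebra K m] (w : HeightOneSpectrum (𝓞 m)),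
      dn K w = v →
      w.valuation m (4 * algebraMap K m a ^ 3 + 27 * algebraMap K m b ^ 2) = 1 := by
    intro m _ _ _ w hw
    have h3 := val_one (L := m) (w := w) (x := 4 * a ^ 3 + 27 * b ^ 2)
      (by rw [hw]; exact hvD)
    rw [map_add, map_mul, map_mul, map_pow, map_pow, map_ofNat, map_ofNat] at h3
    exact h3
  have hirrk' : ∀ t : k', t ^ 3 + algebraMap k k' (algebraMap K k a) * t +
      algebraMap k k' (algebraMap K k b) ≠ 0 := by
    intro t ht
    rw [← hab, ← hab] at ht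
    apply hirr (algebraMap k' N t)
    have h1 := congrArg (algebraMap k' N) ht
    rw [map_add, map_add, map_mul, map_pow, ← IsScalarTower.algebraMap_apply,
      ← IsScalarTower.algebraMap_apply, map_zero] at h1
    exact h1
  obtain ⟨L', _, _, _, θ', h'⟩ := H24PD.exists_cub (K := k') hirrk'
  let _ : Algebra k L' := ((algebraMap k' L').comp (algebraMap k k')).toAlgebra
  have _ : IsScalarTower k k' L' := IsScalarTower.of_algebraMap_eq fun _ => rfl
  obtain ⟨L, _, _, _, _, _, θ, hc, hθ⟩ := H73P2.exists_sub h'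
  have Q : QS k L k' L' (algebraMap K k a) (algebraMap K k b) θ θ' := ⟨two, hc, h', hθ⟩
  have f2 := Q.fin2
  have hne : ev θ d ≠ 0 := by
    rw [← Te_norm hc d, Ne, Algebra.norm_eq_zero_iff] at hdn
    exact hdn
  have hsq' : IsSquare (Algebra.norm k (ev θ d)) := by
    rw [Te_norm hc d]
    exact hsq
  -- even orders over `k`
  have hev : ∀ w : HeightOneSpectrum (𝓞 L), dn k w = u → eo w (sc (ev θ d)) = 0 := by
    intro w hw
    obtain ⟨V, hV⟩ := exists_above (L := N) (dn k w)
    have hKV : dn K V = v := by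
      rw [← hu', ← hw, ← hV]
      exact (H73P2.dn_dn V).symm
    obtain ⟨h1, -⟩ := unram_mid (k := k) (hu V hKV)
    obtain ⟨D, ρ, hρ, hρk, hD⟩ := exists_gen (k' := k') two h1
    rw [hV] at hD
    have hw2 : w.valuation L 2 = 1 := val2_up (K := k) (h2m k _ (by rw [hw]; exact hu'))
    refine even_unram Q f2 w hw2 hρ hρk hD hne fun w' hw' => ?_
    have hw3 : dn K (dn k' w') = v := by
      rw [← dn_sq (k := k) (L := L), hw', hw]
      exact hu'
    rw [Q.coord]
    have hne' : ev θ' (fun i => algebraMap k k' (d i)) ≠ 0 := by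
      rw [← Q.coord]
      exact (map_ne_zero _).2 hne
    refine even_nice H36MT.ordSub Q.cub' w' ⟨1, _, _, one_ne_zero, (by rw [one_pow, one_mul]),
      (by rw [one_pow, one_mul]), ?_, ?_, ?_⟩ hne' ?_
    · rw [← hab]
      exact hval a ha k' _ hw3
    · rw [← hab]
      exact hval b hb k' _ hw3
    · rw [← hab, ← hab, hDm k' _ hw3, ← exp_zero, exp_le_exp]
      norm_num
    · have h3 := hloc (dn k' w') hw3
      rw [hab, hab] at h3
      exact h3
  have hD0 : 4 * algebraMap K k a ^ 3 + 27 * algebraMap K k b ^ 2 ≠ 0 := by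
    intro h0
    have h3 := hDm k u hu'
    rw [h0, map_zero] at h3
    exact zero_ne_one h3
  have _ := H36CY.char_zero u
  obtain ⟨W, hW⟩ := H30ZO.exists_WW hc (algebraMap k (u.adicCompletion k)) (by
    intro e
    apply hD0
    apply (algebraMap k (u.adicCompletion k)).injective
    rw [map_zero, map_add, map_mul, map_mul, map_pow, map_pow, map_ofNat, map_ofNat]
    exact e) (H24PD.inf_fin u _ _)
  have hmem := H30ZO.good_W H36MT.ordSub hc u (hval a ha k u hu') (hval b hb k u hu') (h2m k u hu')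
    (hDm k u hu') hW ((H30ZO.mem_HH hne).2 hsq') hev
  exact (H30ZO.Wc_iff _ hc hne).1 ((hW _).1 hmem).2

section

variable {K N : Type} [Field K] [NumberField K] [Field N] [NumberField N] [Algebra K N]

theorem descAt_zs [IsGalois K N] {v : HeightOneSpectrum (𝓞 K)} (hv : v ∈ H26OD.Zs K N) (a b : K) :
    DescAt K N v a b :=
  descAt_triv (fun W hW g hg => hv W hW g (H30OD.gq_of_stb hg)) a b

/-- The twist has no root. -/
theorem noroot_tw {a b D : K} (hD : D ≠ 0)
    (hirr : ∀ t : N, t ^ 3 + algebraMap K N a * t + algebraMap K N b ≠ 0) (t : N) :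
    t ^ 3 + algebraMap K N (D ^ 2 * a) * t + algebraMap K N (D ^ 3 * b) ≠ 0 := by
  intro ht
  have hDN : algebraMap K N D ≠ 0 := (map_ne_zero _).2 hD
  apply hirr (t / algebraMap K N D)
  rw [map_mul, map_mul, map_pow, map_pow] at ht
  field_simp
  linear_combination ht

/-- The good primes for the twist by `D`. -/
theorem descAt_good_tw {v : HeightOneSpectrum (𝓞 K)} (hv2 : v.valuation K 2 = 1)
    (hu : ∀ V : HeightOneSpectrum (𝓞 N), dn K V = v → ¬ Ram K V)
    {a b D : K} (ha : v.valuation K a ≤ 1) (hb : v.valuation K b ≤ 1)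
    (hvd : v.valuation K (4 * a ^ 3 + 27 * b ^ 2) = 1) (hD0 : D ≠ 0) (hD : v.valuation K D = 1)
    (hirr : ∀ t : N, t ^ 3 + algebraMap K N a * t + algebraMap K N b ≠ 0) :
    DescAt K N v (D ^ 2 * a) (D ^ 3 * b) := by
  refine descAt_good_N hv2 hu ?_ ?_ ?_ (noroot_tw hD0 hirr)
  · rw [map_mul, map_pow, hD, one_pow, one_mul]
    exact ha
  · rw [map_mul, map_pow, hD, one_pow, one_mul]
    exact hb
  · have e : 4 * (D ^ 2 * a) ^ 3 + 27 * (D ^ 3 * b) ^ 2 = D ^ 6 * (4 * a ^ 3 + 27 * b ^ 2) := by ring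
    rw [e, map_mul, map_pow, hD, one_pow, one_mul]
    exact hvd

/-- The transfer of the local conditions to the twist by `δ`. -/
theorem descAt_transfer [IsGalois K N] {a b : K}
    (ha : ∀ v : HeightOneSpectrum (𝓞 K), v.valuation K a ≤ 1)
    (hb : ∀ v : HeightOneSpectrum (𝓞 K), v.valuation K b ≤ 1)
    (hirr : ∀ t : N, t ^ 3 + algebraMap K N a * t + algebraMap K N b ≠ 0) {D0 δ : K}
    (hD0 : D0 ≠ 0) (hδ : δ ≠ 0)
    (hdesc : ∀ v : HeightOneSpectrum (𝓞 K), DescAt K N v (D0 ^ 2 * a) (D0 ^ 3 * b))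
    (h : ∀ u : HeightOneSpectrum (𝓞 K), u ∈ H26OD.Zs K N ∨
      IsSquare (algebraMap K (u.adicCompletion K) δ) ∨
      (u.valuation K δ = 1 ∧ u.valuation K 2 = 1 ∧ u.valuation K (4 * a ^ 3 + 27 * b ^ 2) = 1 ∧
        u.valuation K D0 = 1 ∧ ∀ V : HeightOneSpectrum (𝓞 N), dn K V = u → ¬ Ram K V))
    (v : HeightOneSpectrum (𝓞 K)) : DescAt K N v ((D0 * δ) ^ 2 * a) ((D0 * δ) ^ 3 * b) := by
  rcases h v with h1 | ⟨r, hr⟩ | ⟨h1, h2, h3, h4, h5⟩
  · exact descAt_zs h1 _ _
  · have h4 := descAt_twist hδ (by rw [hr, sq]) (hdesc v)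
    have e1 : δ ^ 2 * (D0 ^ 2 * a) = (D0 * δ) ^ 2 * a := by ring
    have e2 : δ ^ 3 * (D0 ^ 3 * b) = (D0 * δ) ^ 3 * b := by ring
    rwa [e1, e2] at h4
  · exact descAt_good_tw h2 h5 (ha v) (hb v) h3 (mul_ne_zero hD0 hδ)
      (by rw [map_mul, h1, h4, mul_one]) hirr

/-- It is enough to have the local conditions at the bad primes which do not split completely. -/
theorem desc_iff [IsGalois K N] {a b : K}
    (ha : ∀ v : HeightOneSpectrum (𝓞 K), v.valuation K a ≤ 1)
    (hb : ∀ v : HeightOneSpectrum (𝓞 K), v.valuation K b ≤ 1)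
    (hirr : ∀ t : N, t ^ 3 + algebraMap K N a * t + algebraMap K N b ≠ 0) {D : K} (hD : D ≠ 0) :
    (∀ v : HeightOneSpectrum (𝓞 K), DescAt K N v (D ^ 2 * a) (D ^ 3 * b)) ↔
      ∀ v : HeightOneSpectrum (𝓞 K), v ∉ H26OD.Zs K N →
        ¬ (v.valuation K 2 = 1 ∧ v.valuation K (4 * a ^ 3 + 27 * b ^ 2) = 1 ∧
          v.valuation K D = 1 ∧ ∀ V : HeightOneSpectrum (𝓞 N), dn K V = v → ¬ Ram K V) →
        DescAt K N v (D ^ 2 * a) (D ^ 3 * b) := by
  refine ⟨fun h v _ _ => h v, fun h v => ?_⟩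
  by_cases h1 : v ∈ H26OD.Zs K N
  · exact descAt_zs h1 _ _
  by_cases h2 : v.valuation K 2 = 1 ∧ v.valuation K (4 * a ^ 3 + 27 * b ^ 2) = 1 ∧
      v.valuation K D = 1 ∧ ∀ V : HeightOneSpectrum (𝓞 N), dn K V = v → ¬ Ram K V
  · exact descAt_good_tw h2.1 h2.2.2.2 (ha v) (hb v) h2.2.1 hD h2.2.2.1 hirr
  · exact h v h1 h2

end

end H38OD
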