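import Pool.Agent.H38.OD.Na
import Pool.Agent.H30.OD.Od3
import Pool.Agent.H30.ZO.Us
import Pool.Agent.H30.ZO.Je
import Pool.Agent.H30.ZO.Dt
import Pool.Agent.H76.OD.Lt

/-!
MP_78d38b_OD (helper38), stage 4b: from `F` up to an extension `N` of two-power degree and down to all
the fields between `K` and `N`.
-/

set_option autoImplicit false
set_option linter.unusedSectionVars false
open scoped Classical

open WithZero NumberField IsDedekindDomain H38RT
open H38T1 (SC sc scu rep eo la si Pri OddP tp unif)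
open H76PP H73P2 H36CY H73CY H73ZO H30ZO

namespace H38OD

theorem dn_same {K : Type} [Field K] [NumberField K] (v : HeightOneSpectrum (𝓞 K)) :
    dn K v = v := by
  apply HeightOneSpectrum.ext
  ext x
  rw [mem_dn]
  exact Iff.rfl

/-- The local conditions descend at the primes with trivial decomposition groups. -/
theorem descAt_triv {K N : Type} [Field K] [NumberField K] [Field N] [NumberField N] [Algebra K N]
    [IsGalois K N] {v : HeightOneSpectrum (𝓞 K)}
    (ht : ∀ W : HeightOneSpectrum (𝓞 N), dn K W = v → ∀ g : N ≃ₐ[K] N, Stb K W g → g = 1)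
    (a b : K) : DescAt K N v a b := by
  intro k k' _ _ _ _ _ _ _ _ _ _ _ _ _ two d hd hsq hloc u hu
  have _ : IsGalois k N := IsGalois.tower_top_of_isGalois K k N
  obtain ⟨D₀, ρ, hρ, hρk⟩ := H73P2.exists_gen0 (k := k) (k' := k') two
  obtain ⟨W, rfl⟩ := exists_above (L := N) u
  have hab : ∀ x : K, algebraMap K k' x = algebraMap k k' (algebraMap K k x) :=
    IsScalarTower.algebraMap_apply K k k'
  refine ld_split two W hρ hρk ?_ ?_
  · intro g hg
    have h0 : dn K W = v := by
      rw [← hu]
      exact (H73P2.dn_dn W).symm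
    have h1 := ht W h0 (g.restrictScalars K) hg
    exact congrArg (fun t : N ≃ₐ[K] N => t (algebraMap k' N ρ)) h1
  · intro u' hu'
    have h1 := hloc u' (by rw [← hu, ← hu', H73P2.dn_dn])
    rw [hab, hab] at h1
    exact h1

section Tower

variable {K F N : Type} [Field K] [NumberField K] [Field F] [NumberField F] [Field N]
  [NumberField N] [Algebra K F] [Algebra F N] [Algebra K N] [IsScalarTower K F N]

theorem descS_of {Sg : Finset (HeightOneSpectrum (𝓞 K))} {SF : Finset (HeightOneSpectrum (𝓞 F))}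
    (hS : ∀ v, v ∈ SF ↔ dn K v ∈ Sg) {a b : K} (h : ∀ v ∈ Sg, DescAt K N v a b) :
    DescS F N SF (algebraMap K F a) (algebraMap K F b) := by
  intro k k' _ _ _ _ _ _ _ _ _ _ _ _ _ two d hd hsq hloc u hu
  let _ : Algebra K k := ((algebraMap F k).comp (algebraMap K F)).toAlgebra
  let _ : Algebra K k' := ((algebraMap F k').comp (algebraMap K F)).toAlgebra
  have t0 : IsScalarTower K F k := IsScalarTower.of_algebraMap_eq fun x => rfl
  have t0' : IsScalarTower K F k' := IsScalarTower.of_algebraMap_eq fun x => rfl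
  have t1 : IsScalarTower K k k' := IsScalarTower.of_algebraMap_eq fun x => by
    change algebraMap F k' (algebraMap K F x) = algebraMap k k' (algebraMap F k (algebraMap K F x))
    rw [← IsScalarTower.algebraMap_apply F k k']
  have t2 : IsScalarTower K k N := IsScalarTower.of_algebraMap_eq fun x => by
    change _ = algebraMap k N (algebraMap F k (algebraMap K F x))
    rw [← IsScalarTower.algebraMap_apply F k N, ← IsScalarTower.algebraMap_apply K F N]
  have t3 : IsScalarTower K k' N := IsScalarTower.of_algebraMap_eq fun x => by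
    change _ = algebraMap k' N (algebraMap F k' (algebraMap K F x))
    rw [← IsScalarTower.algebraMap_apply F k' N, ← IsScalarTower.algebraMap_apply K F N]
  have hu2 : dn K u ∈ Sg := by
    rw [hS] at hu
    rwa [H73P2.dn_dn (K := K) (k := F) u] at hu
  refine h (dn K u) hu2 k k' two d hd hsq ?_ u rfl
  intro u' hu'
  refine hloc u' ?_
  rw [hS, H73P2.dn_dn (K := K) (k := F) u', hu']
  exact hu2

theorem realAt_of {a b : K} (h : RealAt K N a b) :
    RealAt F N (algebraMap K F a) (algebraMap K F b) := by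
  intro k k' _ _ _ _ _ _ _ _ _ _ _ _ _ two s
  let _ : Algebra K k := ((algebraMap F k).comp (algebraMap K F)).toAlgebra
  let _ : Algebra K k' := ((algebraMap F k').comp (algebraMap K F)).toAlgebra
  have t1 : IsScalarTower K k k' := IsScalarTower.of_algebraMap_eq fun x => by
    change algebraMap F k' (algebraMap K F x) = algebraMap k k' (algebraMap F k (algebraMap K F x))
    rw [← IsScalarTower.algebraMap_apply F k k']
  have t2 : IsScalarTower K k N := IsScalarTower.of_algebraMap_eq fun x => by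
    change _ = algebraMap k N (algebraMap F k (algebraMap K F x))
    rw [← IsScalarTower.algebraMap_apply F k N, ← IsScalarTower.algebraMap_apply K F N]
  have t3 : IsScalarTower K k' N := IsScalarTower.of_algebraMap_eq fun x => by
    change _ = algebraMap k' N (algebraMap F k' (algebraMap K F x))
    rw [← IsScalarTower.algebraMap_apply F k' N, ← IsScalarTower.algebraMap_apply K F N]
  have h1 := h k k' two s
  have e : algebraMap K k (4 * a ^ 3 + 27 * b ^ 2) =
      algebraMap F k (4 * (algebraMap K F a) ^ 3 + 27 * (algebraMap K F b) ^ 2) := by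
    change algebraMap F k (algebraMap K F _) = _
    congr 1
    simp only [map_add, map_mul, map_pow, map_ofNat]
  rw [e] at h1
  exact h1

/-- The real condition does not change under twists. -/
theorem realAt_twist {a b D : K} (hD : D ≠ 0) (h : RealAt K N a b) :
    RealAt K N (D ^ 2 * a) (D ^ 3 * b) := by
  intro k k' _ _ _ _ _ _ _ _ _ _ _ _ _ two s
  rcases h k k' two s with h1 | h1
  · left
    have e : 4 * (D ^ 2 * a) ^ 3 + 27 * (D ^ 3 * b) ^ 2 = (D ^ 3) ^ 2 * (4 * a ^ 3 + 27 * b ^ 2) := by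
      ring
    rw [e, map_mul, map_mul, map_pow, map_pow]
    have h2 : s (algebraMap K k (D ^ 3)) ≠ 0 :=
      (map_ne_zero s).2 ((map_ne_zero _).2 (pow_ne_zero 3 hD))
    positivity
  · exact Or.inr h1

theorem Tv.selT {M : Type} [Field M] [NumberField M] {a b : M} (h : Tv M a b)
    (L : Type) [Field L] [NumberField L] [Algebra M L] (θ : L) (hL : Cub M L a b θ) :
    SelTriv M L a b θ := selTriv_of_sha hL h.1 h.2.1 h.2.2

theorem tv_of_sel {M : Type} [Field M] [NumberField M] {a b : M}
    (hir : ∀ t : M, t ^ 3 + a * t + b ≠ 0)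
    (h : ∀ (L : Type) [Field L] [NumberField L] [Algebra M L] (θ : L), Cub M L a b θ →
      SelTriv M L a b θ) : Tv M a b := by
  obtain ⟨L, _, _, _, θ, hL⟩ := H24PD.exists_cub (K := M) hir
  have h1 := H24PD.descent hL (h L θ hL)
  exact ⟨h1.1, tors_of_noroot hir, h1.2⟩

/-- The relaxed Selmer group is trivial if the Selmer group is trivial and the curve has good
reduction outside the set. -/
theorem relST_good {M : Type} [Field M] [NumberField M] {a b : M}
    {SF : Finset (HeightOneSpectrum (𝓞 M))}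
    (hg : ∀ v : HeightOneSpectrum (𝓞 M), v ∉ SF → v.valuation M 2 = 1 ∧ v.valuation M a ≤ 1 ∧
      v.valuation M b ≤ 1 ∧ v.valuation M (4 * a ^ 3 + 27 * b ^ 2) = 1)
    {L : Type} [Field L] [NumberField L] [Algebra M L] {θ : L} (hL : Cub M L a b θ)
    (h : SelTriv M L a b θ) : RelST M M L SF ∅ a b θ := by
  intro d hR
  refine h d hR.ne hR.sq ?_ hR.real
  intro v
  by_cases hv : v ∈ SF
  · exact hR.sg v (by rw [dn_same]; exact hv)
  · obtain ⟨h2, ha, hb, hD⟩ := hg v hv
    have hHH : sc (ev θ d) ∈ HH M L := (mem_HH hR.ne).2 hR.sq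
    have h1 := H76OD.Wc_good hL v ha hb h2 hD (E := 1) (by rw [map_one]) hHH
    rw [one_pow, one_pow, one_mul, one_mul, map_one, one_mul] at h1
    refine (Wc_iff _ hL hR.ne).1 (h1.2 ?_)
    intro w hw
    refine hR.even w ?_ (Finset.notMem_empty _)
    rw [hw, dn_same]
    exact hv

theorem ram_up {V : HeightOneSpectrum (𝓞 N)} (h : Ram F V) : Ram K V := by
  unfold Ram at h ⊢
  rw [Ideal.map_le_iff_le_comap] at h ⊢
  intro p hp
  have e1 : algebraMap (𝓞 F) (𝓞 N) (algebraMap (𝓞 K) (𝓞 F) p) = algebraMap (𝓞 K) (𝓞 N) p := by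
    apply RingOfIntegers.coe_injective
    change algebraMap F N (algebraMap K F (algebraMap (𝓞 K) K p)) =
      algebraMap K N (algebraMap (𝓞 K) K p)
    rw [← IsScalarTower.algebraMap_apply]
  have h1 : algebraMap (𝓞 K) (𝓞 F) p ∈ (dn F V).asIdeal := by
    rw [mem_dn, e1]
    exact mem_dn.1 hp
  have h2 := h h1
  rw [Ideal.mem_comap, e1] at h2
  exact Ideal.mem_comap.2 h2

/-- Up from `F` to `N`. -/
theorem tv_up [IsGalois F N] {r : ℕ} (hr : Module.finrank F N = 2 ^ r) {a b : K}
    (hd : 4 * a ^ 3 + 27 * b ^ 2 ≠ 0) {Sg : Finset (HeightOneSpectrum (𝓞 K))}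
    (hg : ∀ v : HeightOneSpectrum (𝓞 K), v ∉ Sg → v.valuation K 2 = 1 ∧ v.valuation K a ≤ 1 ∧
      v.valuation K b ≤ 1 ∧ v.valuation K (4 * a ^ 3 + 27 * b ^ 2) = 1)
    (hram : ∀ V : HeightOneSpectrum (𝓞 N), dn K V ∉ Sg → ¬ Ram K V)
    (hreal : RealAt K N a b) (hdesc : ∀ v ∈ Sg, DescAt K N v a b)
    (htv : Tv F (algebraMap K F a) (algebraMap K F b))
    (k : Type) [Field k] [NumberField k] [Algebra F k] [Algebra k N] [IsScalarTower F k N] :
    Tv k (algebraMap F k (algebraMap K F a)) (algebraMap F k (algebraMap K F b)) := by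
  have hdF : 4 * (algebraMap K F a) ^ 3 + 27 * (algebraMap K F b) ^ 2 ≠ 0 := by
    have h1 : algebraMap K F (4 * a ^ 3 + 27 * b ^ 2) ≠ 0 := (map_ne_zero _).2 hd
    rwa [map_add, map_mul, map_mul, map_pow, map_pow, map_ofNat, map_ofNat] at h1
  have _ : FiniteDimensional F N := Module.Finite.of_restrictScalars_finite ℚ F N
  obtain ⟨SF, hSF⟩ : ∃ A : Finset (HeightOneSpectrum (𝓞 F)), ∀ v, v ∈ A ↔ dn K v ∈ Sg := by
    have hfin : {v : HeightOneSpectrum (𝓞 F) | dn K v ∈ Sg}.Finite := by
      have h1 : {v : HeightOneSpectrum (𝓞 F) | dn K v ∈ Sg} =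
          ⋃ v ∈ Sg, {u : HeightOneSpectrum (𝓞 F) | dn K u = v} := by
        ext w
        simp only [Set.mem_iUnion, Set.mem_ofPred_eq]
        constructor
        · intro hw
          exact ⟨dn K w, hw, rfl⟩
        · rintro ⟨v, hv, hw⟩
          rw [hw]
          exact hv
      rw [h1]
      exact Sg.finite_toSet.biUnion fun v _ => fin_above v
    exact ⟨hfin.toFinset, fun v => by rw [Set.Finite.mem_toFinset]; exact Iff.rfl⟩
  have hval : ∀ (v : HeightOneSpectrum (𝓞 F)) (x : K), (dn K v).valuation K x ≤ 1 →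
      v.valuation F (algebraMap K F x) ≤ 1 := by
    intro v x hx
    have h1 := val_exp_le (L := F) (w := v) (x := x) (m := 0) le_rfl (by rwa [neg_zero, exp_zero])
    rwa [neg_zero, exp_zero] at h1
  have hgF : ∀ v : HeightOneSpectrum (𝓞 F), v ∉ SF → v.valuation F 2 = 1 ∧
      v.valuation F (algebraMap K F a) ≤ 1 ∧ v.valuation F (algebraMap K F b) ≤ 1 ∧
      v.valuation F (4 * (algebraMap K F a) ^ 3 + 27 * (algebraMap K F b) ^ 2) = 1 := by
    intro v hv
    rw [hSF] at hv
    obtain ⟨h2, h3, h4, h5⟩ := hg _ hv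
    refine ⟨?_, hval v a h3, hval v b h4, ?_⟩
    · have h6 := val_one (L := F) (w := v) (x := (2 : K)) h2
      rwa [map_ofNat] at h6
    · have h6 := val_one (L := F) (w := v) h5
      rwa [map_add, map_mul, map_mul, map_pow, map_pow, map_ofNat, map_ofNat] at h6
  have hirF := htv.noroot hdF
  have hirk := H73P2.noroot (K := F) (N := N) (k := k) hr hirF
  refine tv_of_sel hirk fun L _ _ _ θ hL => ?_
  refine selS_mid (K := F) (N := N) (Nt := N) H36MT.ordSub hr (Sg := SF) ?_ hdF ?_ (realAt_of hreal) ?_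
    (descS_of hSF hdesc) (fun L _ _ _ θ hL => relST_good hgF hL (Tv.selT htv L θ hL)) k L θ hL
  · intro v hv
    by_contra h1
    have h2 := (hgF v h1).1
    rw [h2] at hv
    exact lt_irrefl _ hv
  · intro v hv
    obtain ⟨-, h3, h4, h5⟩ := hgF v hv
    refine ⟨1, _, _, one_ne_zero, ?_, ?_, h3, h4, ?_⟩
    · rw [one_pow, one_mul]
    · rw [one_pow, one_mul]
    · rw [h5, ← exp_zero, exp_le_exp]
      omega
  · intro V hV hR
    exfalso
    have h1 : dn K V ∉ Sg := by
      intro h2
      apply hV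
      rw [hSF, H73P2.dn_dn (K := K) (k := F) V]
      exact h2
    exact hram V h1 (ram_up hR)

end Tower

end H38OD
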