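import Pool.Agent.H38.OD.Nb

/-!
MP_78d38b_OD (helper38), stage 4b: the condition at the real places for a finite Galois extension `N / K`.
-/

set_option autoImplicit false
set_option linter.unusedSectionVars false
open scoped Classical

open WithZero NumberField IsDedekindDomain H38RT
open H76PP H73P2 H36CY H73CY H73ZO H30ZO

namespace H38OD

variable {K N : Type} [Field K] [NumberField K] [Field N] [NumberField N] [Algebra K N]

/-- If one real place of the Galois extension `N` lies above `s` then the embeddings of subfields extend. -/
theorem real_ext [IsGalois K N] {s' : N →+* ℝ} {k : Type} [Field k] [NumberField k] [Algebra K k]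
    [Algebra k N] [IsScalarTower K k N] {s : k →+* ℝ}
    (h : ∀ x : K, s' (algebraMap K N x) = s (algebraMap K k x)) :
    ∃ t : N →+* ℝ, ∀ x : k, t (algebraMap k N x) = s x := by
  have hfd : FiniteDimensional K N := Module.Finite.of_restrictScalars_finite ℚ K N
  have hfdk : FiniteDimensional k N := Module.Finite.of_restrictScalars_finite ℚ k N
  let _ : Algebra K ℂ := ((Complex.ofRealHom.comp s).comp (algebraMap K k)).toAlgebra
  let _ : Algebra k ℂ := (Complex.ofRealHom.comp s).toAlgebra
  have hk : ∀ x : k, algebraMap k ℂ x = ((s x : ℝ) : ℂ) := fun x => rfl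
  obtain ⟨τ⟩ : Nonempty (N →ₐ[k] ℂ) := ⟨IsAlgClosed.lift⟩
  let τ' : N →ₐ[K] ℂ :=
    { (τ : N →+* ℂ) with
      commutes' := fun x => by
        change τ (algebraMap K N x) = _
        rw [IsScalarTower.algebraMap_apply K k N, τ.commutes]
        rfl }
  have hτ' : ∀ x, τ' x = τ x := fun x => rfl
  let _ : Algebra N ℂ := (Complex.ofRealHom.comp s').toAlgebra
  have hN : ∀ x : N, algebraMap N ℂ x = ((s' x : ℝ) : ℂ) := fun x => rfl
  have _ : IsScalarTower K N ℂ := IsScalarTower.of_algebraMap_eq fun x => by
    rw [hN, h]
    rfl
  have hf : ∀ x : N, ((s' (τ'.restrictNormal N x) : ℝ) : ℂ) = τ x := by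
    intro x
    have h1 := AlgHom.restrictNormal_commutes τ' N x
    rw [hN] at h1
    exact h1
  refine ⟨s'.comp (τ'.restrictNormal N : N →+* N), fun x => ?_⟩
  have h1 := hf (algebraMap k N x)
  rw [τ.commutes, hk] at h1
  exact_mod_cast h1

/-- **The condition at the real places.** -/
theorem realAt_iff [IsGalois K N] {a b : K} : RealAt K N a b ↔
    ∀ s : K →+* ℝ, s (4 * a ^ 3 + 27 * b ^ 2) ≤ 0 →
      ∃ s' : N →+* ℝ, ∀ x : K, s' (algebraMap K N x) = s x := by
  have hfd : FiniteDimensional K N := Module.Finite.of_restrictScalars_finite ℚ K N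
  constructor
  · intro h s hs
    let _ : Algebra K ℂ := (Complex.ofRealHom.comp s).toAlgebra
    have halg : ∀ x : K, algebraMap K ℂ x = ((s x : ℝ) : ℂ) := fun x => rfl
    obtain ⟨τ⟩ : Nonempty (N →ₐ[K] ℂ) := ⟨IsAlgClosed.lift⟩
    -- complex conjugation
    let τ' : N →ₐ[K] ℂ :=
      { ((starRingEnd ℂ).comp (τ : N →+* ℂ)) with
        commutes' := fun x => by
          change (starRingEnd ℂ) (τ (algebraMap K N x)) = _
          rw [τ.commutes, halg, Complex.conj_ofReal] }
    have hrange : ∀ x : N, ∃ y : N, τ y = τ' x := by
      intro x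
      let _ : Algebra N ℂ := (τ : N →+* ℂ).toAlgebra
      have _ : IsScalarTower K N ℂ := IsScalarTower.of_algebraMap_eq fun x => (τ.commutes x).symm
      exact ⟨τ'.restrictNormal N x, AlgHom.restrictNormal_commutes τ' N x⟩
    choose f hf using hrange
    have hinj : Function.Injective τ := τ.toRingHom.injective
    let g0 : N →ₐ[K] N :=
      { toFun := f
        map_one' := hinj (by rw [hf, map_one, map_one])
        map_mul' := fun x y => hinj (by rw [hf, map_mul, map_mul, hf, hf])
        map_zero' := hinj (by rw [hf, map_zero, map_zero])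
        map_add' := fun x y => hinj (by rw [hf, map_add, map_add, hf, hf])
        commutes' := fun x => hinj (by rw [hf, τ'.commutes, τ.commutes]) }
    let g : N ≃ₐ[K] N := AlgEquiv.ofBijective g0 (Algebra.IsAlgebraic.algHom_bijective g0)
    have hg : ∀ x, τ (g x) = (starRingEnd ℂ) (τ x) := fun x => hf x
    have hg2 : g ^ 2 = 1 := by
      apply AlgEquiv.ext
      intro x
      apply hinj
      rw [sq, AlgEquiv.mul_apply, hg, hg, Complex.conj_conj, AlgEquiv.one_apply]
    -- the real part on the elements fixed by `g`
    have hreal : ∀ x : N, g x = x → τ x = (((τ x).re : ℝ) : ℂ) := by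
      intro x hx
      have h1 := hg x
      rw [hx] at h1
      exact (Complex.conj_eq_iff_re.1 h1.symm).symm
    by_cases hg1 : g = 1
    · have hr : ∀ x : N, τ x = (((τ x).re : ℝ) : ℂ) := fun x => hreal x (by rw [hg1]; rfl)
      refine ⟨
        { toFun := fun x => (τ x).re
          map_one' := by rw [map_one, Complex.one_re]
          map_mul' := fun x y => by
            rw [map_mul, hr x, hr y, ← Complex.ofReal_mul, Complex.ofReal_re, Complex.ofReal_re,
              Complex.ofReal_re]
          map_zero' := by rw [map_zero, Complex.zero_re]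
          map_add' := fun x y => by rw [map_add, Complex.add_re] }, fun x => ?_⟩
      change (τ (algebraMap K N x)).re = s x
      rw [τ.commutes, halg, Complex.ofReal_re]
    · obtain ⟨I, hI⟩ : ∃ I, I = IntermediateField.fixedField (F := K) (E := N)
        (Subgroup.zpowers g) := ⟨_, rfl⟩
      have hIn : NumberField I := NumberField.of_module_finite K I
      have hfix : ∀ x : I, g (x : N) = x := by
        intro x
        have h1 : (x : N) ∈ IntermediateField.fixedField (F := K) (E := N)
          (Subgroup.zpowers g) := by rw [← hI]; exact x.2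
        exact h1 ⟨g, Subgroup.mem_zpowers g⟩
      have two : Module.finrank I N = 2 := by
        rw [hI, IntermediateField.finrank_fixedField_eq_card, Nat.card_zpowers]
        exact orderOf_eq_prime hg2 hg1
      have hr : ∀ x : I, τ x = (((τ x).re : ℝ) : ℂ) := fun x => hreal x (hfix x)
      let t : I →+* ℝ :=
        { toFun := fun x => (τ x).re
          map_one' := by
            change (τ (1 : N)).re = 1
            rw [map_one, Complex.one_re]
          map_mul' := fun x y => by
            change (τ ((x : N) * (y : N))).re = _
            rw [map_mul, hr x, hr y, ← Complex.ofReal_mul, Complex.ofReal_re, Complex.ofReal_re,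
              Complex.ofReal_re]
          map_zero' := by
            change (τ (0 : N)).re = 0
            rw [map_zero, Complex.zero_re]
          map_add' := fun x y => by
            change (τ ((x : N) + (y : N))).re = _
            rw [map_add, Complex.add_re] }
      have ht : ∀ x : K, t (algebraMap K I x) = s x := by
        intro x
        change (τ (algebraMap K N x)).re = s x
        rw [τ.commutes, halg, Complex.ofReal_re]
      rcases h I N two t with h1 | ⟨s', h1⟩
      · rw [ht] at h1
        exact absurd h1 (not_lt.2 hs)
      · refine ⟨s', fun x => ?_⟩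
        rw [IsScalarTower.algebraMap_apply K I N, h1, ht]
  · intro h k k' _ _ _ _ _ _ _ _ _ _ _ _ _ two s
    by_cases h1 : 0 < s (algebraMap K k (4 * a ^ 3 + 27 * b ^ 2))
    · exact Or.inl h1
    · right
      obtain ⟨s', hs'⟩ := h (s.comp (algebraMap K k)) (not_lt.1 h1)
      obtain ⟨t, ht⟩ := real_ext (k := k) (s := s) hs'
      refine ⟨t.comp (algebraMap k' N), fun x => ?_⟩
      change t (algebraMap k' N (algebraMap k k' x)) = s x
      rw [← IsScalarTower.algebraMap_apply k k' N, ht]

end H38OD
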