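import Pool.Agent.H38.OD.Nb

/-!
MP_78d38b_OD (helper38), stage 4b: all number fields between `K` and `N`.

`N / K` Galois, `F` the fixed field of a normal Sylow 2-subgroup (`F / K` Galois of odd degree, `[N : F] = 2^r`).
* `tv_down`: the property descends in Galois extensions of odd degree.
* `exists_comp`: `M' = M F` for `K ⊂ M ⊂ N`.
* `up_N`: if the curve `E_D` has the property over `F`, then it has the property over all number fields between `K` and
  `N`; `D = D0 δ`, `δ` a local square at `Sg`, a unit outside `Sg` and the primes with trivial decomposition groups in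
  `N`, the local conditions for `E_{D0}` at `Sg`.
-/

set_option autoImplicit false
set_option linter.unusedSectionVars false
open scoped Classical

open WithZero NumberField IsDedekindDomain H38RT
open H38T1 (SC sc scu rep eo la si Pri OddP tp unif)
open H76PP H73P2 H36CY H73CY H73ZO H30ZO

namespace H38OD

/-- The property descends in Galois extensions of odd degree. -/
theorem tv_down {M M' : Type} [Field M] [NumberField M] [Field M'] [NumberField M'] [Algebra M M']
    (hgal : IsGalois M M') (hodd : Odd (Module.finrank M M')) {a b : M}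
    (hd : 4 * a ^ 3 + 27 * b ^ 2 ≠ 0) (h : Tv M' (algebraMap M M' a) (algebraMap M M' b)) :
    Tv M a b := by
  have hd' : 4 * (algebraMap M M' a) ^ 3 + 27 * (algebraMap M M' b) ^ 2 ≠ 0 := by
    have h1 : algebraMap M M' (4 * a ^ 3 + 27 * b ^ 2) ≠ 0 := (map_ne_zero _).2 hd
    rwa [map_add, map_mul, map_mul, map_pow, map_pow, map_ofNat, map_ofNat] at h1
  have hir' := h.noroot hd'
  have hir : ∀ t : M, t ^ 3 + a * t + b ≠ 0 := fun t ht => hir' (algebraMap M M' t) (by
    rw [← map_pow, ← map_mul, ← map_add, ← map_add, ht, map_zero])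
  refine tv_of_sel hir fun L0 _ _ _ θ0 hL0 => ?_
  obtain ⟨L, _, _, _, θ, hL⟩ := H24PD.exists_cub hir'
  exact H30OD.selTriv_down hgal hodd hL0 hL (Tv.selT h L θ hL)

section Tower

variable {K F N M : Type} [Field K] [NumberField K] [Field F] [NumberField F] [Field N]
  [NumberField N] [Field M] [NumberField M] [Algebra K F] [Algebra F N] [Algebra K N]
  [IsScalarTower K F N] [Algebra K M] [Algebra M N] [IsScalarTower K M N]

/-- The compositum. -/
theorem exists_comp [IsGalois K N] [IsGalois K F] (hodd : Odd (Module.finrank K F)) :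
    ∃ (M' : Type) (_ : Field M') (_ : NumberField M') (_ : Algebra M M') (_ : Algebra F M')
      (_ : Algebra M' N) (_ : IsScalarTower M M' N) (_ : IsScalarTower F M' N),
      IsGalois M M' ∧ Odd (Module.finrank M M') := by
  have hfd : FiniteDimensional K N := Module.Finite.of_restrictScalars_finite ℚ K N
  have hfdM : FiniteDimensional M N := Module.Finite.of_restrictScalars_finite ℚ M N
  have hgM : IsGalois M N := IsGalois.tower_top_of_isGalois K M N
  have hfF : FiniteDimensional K F := Module.Finite.of_restrictScalars_finite ℚ K F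
  obtain ⟨φ, hφ⟩ : ∃ φ : (N ≃ₐ[M] N) →* (F ≃ₐ[K] F), ∀ g x,
      algebraMap F N (φ g x) = g (algebraMap F N x) := by
    refine ⟨(AlgEquiv.restrictNormalHom F).comp
      { toFun := fun g : N ≃ₐ[M] N => (g.restrictScalars K : N ≃ₐ[K] N)
        map_one' := rfl
        map_mul' := fun _ _ => rfl }, fun g x => ?_⟩
    exact AlgEquiv.restrictNormal_commutes (g.restrictScalars K : N ≃ₐ[K] N) F x
  have hmem : ∀ x : F, algebraMap F N x ∈ IntermediateField.fixedField φ.ker := by
    intro x g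
    have h1 := hφ (g : N ≃ₐ[M] N) x
    rw [MonoidHom.mem_ker.1 g.2] at h1
    exact h1.symm
  obtain ⟨I, hI⟩ : ∃ I, I = IntermediateField.fixedField (F := M) (E := N) φ.ker := ⟨_, rfl⟩
  rw [← hI] at hmem
  have hIf : FiniteDimensional M I := inferInstance
  have hIn : NumberField I := NumberField.of_module_finite M I
  refine ⟨I, inferInstance, hIn, inferInstance,
    ((algebraMap F N).codRestrict I.toSubfield hmem).toAlgebra, inferInstance, inferInstance,
    ?_, ?_, ?_⟩
  · letI : Algebra F I := ((algebraMap F N).codRestrict I.toSubfield hmem).toAlgebra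
    exact IsScalarTower.of_algebraMap_eq fun x => rfl
  · rw [hI]
    exact IsGalois.of_fixedField_normal_subgroup φ.ker
  · have h1 : Module.finrank M I = φ.ker.index := by
      rw [IntermediateField.finrank_eq_fixingSubgroup_index, hI,
        IntermediateField.fixingSubgroup_fixedField]
    rw [h1, Subgroup.index_ker]
    have h2 : Nat.card φ.range ∣ Nat.card (F ≃ₐ[K] F) := Subgroup.card_subgroup_dvd_card _
    rw [IsGalois.card_aut_eq_finrank K F] at h2
    exact Odd.of_dvd_nat hodd h2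

/-- Up from `F` to `N`. -/
theorem up_N [IsGalois K N] [IsGalois K F] [IsGalois F N] (hodd : Odd (Module.finrank K F)) {r : ℕ}
    (hr : Module.finrank F N = 2 ^ r) {a b : K} (ha : ∀ v : HeightOneSpectrum (𝓞 K), v.valuation K a ≤ 1)
    (hb : ∀ v : HeightOneSpectrum (𝓞 K), v.valuation K b ≤ 1)
    (hd : 4 * a ^ 3 + 27 * b ^ 2 ≠ 0) {D0 δ : K} (hD0 : D0 ≠ 0) (hδ : δ ≠ 0)
    {Sg : Finset (HeightOneSpectrum (𝓞 K))}
    (h2 : ∀ v : HeightOneSpectrum (𝓞 K), v ∉ Sg → v.valuation K 2 = 1)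
    (hdis : ∀ v : HeightOneSpectrum (𝓞 K), v ∉ Sg → v.valuation K (4 * a ^ 3 + 27 * b ^ 2) = 1)
    (hval : ∀ v : HeightOneSpectrum (𝓞 K), v ∉ Sg → v.valuation K D0 = 1)
    (hram : ∀ V : HeightOneSpectrum (𝓞 N), dn K V ∉ Sg → ¬ Ram K V)
    (hsq : ∀ v ∈ Sg, IsSquare (algebraMap K (v.adicCompletion K) δ))
    (hout : ∀ v : HeightOneSpectrum (𝓞 K), v ∉ Sg → v.valuation K δ ≠ 1 →
      ∀ W : HeightOneSpectrum (𝓞 N), dn K W = v → ∀ g : N ≃ₐ[K] N, Stb K W g → g = 1)
    (hreal : RealAt K N a b) (hdesc : ∀ v ∈ Sg, DescAt K N v (D0 ^ 2 * a) (D0 ^ 3 * b))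
    (htv : Tv F (algebraMap K F ((D0 * δ) ^ 2 * a)) (algebraMap K F ((D0 * δ) ^ 3 * b))) :
    Tv M (algebraMap K M ((D0 * δ) ^ 2 * a)) (algebraMap K M ((D0 * δ) ^ 3 * b)) := by
  have hfd : FiniteDimensional K N := Module.Finite.of_restrictScalars_finite ℚ K N
  have hne : D0 * δ ≠ 0 := mul_ne_zero hD0 hδ
  have hdD : 4 * ((D0 * δ) ^ 2 * a) ^ 3 + 27 * ((D0 * δ) ^ 3 * b) ^ 2 ≠ 0 := by
    have e : 4 * ((D0 * δ) ^ 2 * a) ^ 3 + 27 * ((D0 * δ) ^ 3 * b) ^ 2 =
        ((D0 * δ) ^ 3) ^ 2 * (4 * a ^ 3 + 27 * b ^ 2) := by ring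
    rw [e]
    exact mul_ne_zero (pow_ne_zero 2 (pow_ne_zero 3 hne)) hd
  -- the larger set
  obtain ⟨S', hS'⟩ : ∃ S' : Finset (HeightOneSpectrum (𝓞 K)),
      ∀ v, v ∈ S' ↔ v ∈ Sg ∨ v.valuation K δ ≠ 1 := by
    refine ⟨Sg ∪ (fin_bad hδ).toFinset, fun v => ?_⟩
    rw [Finset.mem_union, Set.Finite.mem_toFinset]
    exact Iff.rfl
  have hg : ∀ v : HeightOneSpectrum (𝓞 K), v ∉ S' → v.valuation K 2 = 1 ∧
      v.valuation K ((D0 * δ) ^ 2 * a) ≤ 1 ∧ v.valuation K ((D0 * δ) ^ 3 * b) ≤ 1 ∧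
      v.valuation K (4 * ((D0 * δ) ^ 2 * a) ^ 3 + 27 * ((D0 * δ) ^ 3 * b) ^ 2) = 1 := by
    intro v hv
    rw [hS'] at hv
    push Not at hv
    have h3 : v.valuation K (D0 * δ) = 1 := by
      rw [map_mul, hval v hv.1, hv.2, mul_one]
    refine ⟨h2 v hv.1, ?_, ?_, ?_⟩
    · rw [map_mul, map_pow, h3, one_pow, one_mul]
      exact ha v
    · rw [map_mul, map_pow, h3, one_pow, one_mul]
      exact hb v
    · have e : 4 * ((D0 * δ) ^ 2 * a) ^ 3 + 27 * ((D0 * δ) ^ 3 * b) ^ 2 =
          ((D0 * δ) ^ 3) ^ 2 * (4 * a ^ 3 + 27 * b ^ 2) := by ring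
      rw [e, map_mul, map_pow, map_pow, h3, one_pow, one_pow, one_mul]
      exact hdis v hv.1
  have hdesc' : ∀ v ∈ S', DescAt K N v ((D0 * δ) ^ 2 * a) ((D0 * δ) ^ 3 * b) := by
    intro v hv
    by_cases h3 : v ∈ Sg
    · obtain ⟨r, hr⟩ := hsq v h3
      have h4 := descAt_twist hδ (by rw [hr, sq]) (hdesc v h3)
      have e1 : δ ^ 2 * (D0 ^ 2 * a) = (D0 * δ) ^ 2 * a := by ring
      have e2 : δ ^ 3 * (D0 ^ 3 * b) = (D0 * δ) ^ 3 * b := by ring
      rwa [e1, e2] at h4
    · exact descAt_triv (hout v h3 (((hS' v).1 hv).resolve_left h3)) _ _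
  obtain ⟨M', _, _, _, _, _, _, _, hM1, hM2⟩ := exists_comp (K := K) (F := F) (N := N) (M := M) hodd
  have hdM : 4 * (algebraMap K M ((D0 * δ) ^ 2 * a)) ^ 3 +
      27 * (algebraMap K M ((D0 * δ) ^ 3 * b)) ^ 2 ≠ 0 := by
    have h1 : algebraMap K M (4 * ((D0 * δ) ^ 2 * a) ^ 3 + 27 * ((D0 * δ) ^ 3 * b) ^ 2) ≠ 0 :=
      (map_ne_zero _).2 hdD
    rwa [map_add, map_mul, map_mul, map_pow, map_pow, map_ofNat, map_ofNat] at h1
  refine tv_down hM1 hM2 hdM ?_
  have hcomp : ∀ x : K, algebraMap M M' (algebraMap K M x) = algebraMap F M' (algebraMap K F x) := by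
    intro x
    apply (algebraMap M' N).injective
    rw [← IsScalarTower.algebraMap_apply M M' N, ← IsScalarTower.algebraMap_apply F M' N,
      ← IsScalarTower.algebraMap_apply K M N, ← IsScalarTower.algebraMap_apply K F N]
  rw [hcomp, hcomp]
  exact tv_up (K := K) (F := F) (N := N) hr hdD hg
    (fun V hV => hram V (fun h3 => hV ((hS' _).2 (Or.inl h3)))) (realAt_twist hne hreal) hdesc' htv M'

end Tower

end H38OD
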