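import Pool.Agent.H88.OD.St

/-!
Algebra in the group algebra of a group of odd order over the field with two elements
(project MP_78d38b_OD, rows LA1, LA2, LA4; helper38).

* `exists_z0`: a central element with `z + st z = 1 + e0`.
* `central_pow`: the powers of a central element.
* `exists_eta`: the self-adjoint idempotent attached to a module without invariants.
-/

set_option autoImplicit false
set_option linter.unusedSectionVars false
open scoped Classical

namespace H88OD

open MonoidAlgebra

section Aux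

variable {G : Type} [Group G]

/-- group elements -/
noncomputable abbrev ug (g : G) : RG G := MonoidAlgebra.single g 1

lemma ug_mul (g h : G) : ug g * ug h = ug (g * h) := by
  rw [MonoidAlgebra.single_mul_single, one_mul]

lemma ug_one : ug (1 : G) = 1 := rfl

lemma st_ug (g : G) : st (ug g) = ug g⁻¹ := st_single g 1

lemma rg_add_eq_zero {x y : RG G} (h : x + y = 0) : x = y := by
  have h1 : x + y + y = y := by rw [h, zero_add]
  rw [add_assoc, rg_two, add_zero] at h1
  exact h1

/-- no real elements in a group of odd order -/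
lemma conj_inv_eq_one [Finite G] (hodd : Odd (Nat.card G)) {g h : G} (hg : h * g * h⁻¹ = g⁻¹) :
    g = 1 := by
  have h2 : h ^ 2 * g * (h ^ 2)⁻¹ = g := by
    have : h ^ 2 * g * (h ^ 2)⁻¹ = h * (h * g * h⁻¹) * h⁻¹ := by
      rw [pow_two, mul_inv_rev]
      simp only [mul_assoc]
    rw [this, hg]
    have : h * g⁻¹ * h⁻¹ = (h * g * h⁻¹)⁻¹ := by group
    rw [this, hg, inv_inv]
  have hc : Commute (h ^ 2) g := by
    have := congrArg (· * h ^ 2) h2
    have h3 : h ^ 2 * g = g * h ^ 2 := by simpa [mul_assoc] using this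
    exact h3
  obtain ⟨k, hk⟩ := hodd
  have hh : (h ^ 2) ^ (k + 1) = h := by
    rw [← pow_mul]
    have : 2 * (k + 1) = Nat.card G + 1 := by omega
    rw [this, pow_succ, pow_card_eq_one', one_mul]
  have hc' : Commute h g := by
    rw [← hh]
    exact hc.pow_left _
  have h3 : g = g⁻¹ := by
    rw [← hg, hc'.eq, mul_assoc, mul_inv_cancel, mul_one]
  have h4 : g ^ 2 = 1 := by
    rw [pow_two]
    nth_rewrite 2 [h3]
    rw [mul_inv_cancel]
  have h5 : g ^ (2 * k + 1) = 1 := by rw [← hk, pow_card_eq_one']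
  rw [pow_succ, pow_mul, h4, one_pow, one_mul] at h5
  exact h5

end Aux

section Odd

variable {G : Type} [Group G] [Finite G]

/-- the coefficients of a central element are constant on classes -/
lemma coeff_conj_of_central {x : RG G} (hx : ∀ y : RG G, y * x = x * y) (g h : G) :
    x.coeff (h * g * h⁻¹) = x.coeff g := by
  have h1 := hx (ug h⁻¹)
  have h2 : (ug h⁻¹ * x).coeff (g * h⁻¹) = (x * ug h⁻¹).coeff (g * h⁻¹) := by rw [h1]
  rw [coeff_single_mul, coeff_mul_single] at h2
  have e1 : h⁻¹⁻¹ * (g * h⁻¹) = h * g * h⁻¹ := by group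
  have e2 : g * h⁻¹ * h⁻¹⁻¹ = g := by group
  rw [e1, e2] at h2
  exact h2

lemma central_of_coeff {x : RG G} (hx : ∀ g h : G, x.coeff (h * g * h⁻¹) = x.coeff g) (y : RG G) :
    y * x = x * y := by
  have h1 : ∀ h : G, ug h * x = x * ug h := by
    intro h
    refine rg_ext fun g => ?_
    rw [coeff_single_mul, coeff_mul_single]
    have := hx (h⁻¹ * g) h
    rw [← this]
    congr 1
    group
  refine MonoidAlgebra.induction_linear y ?_ ?_ ?_
  · rw [zero_mul, mul_zero]
  · intro a b ha hb
    rw [add_mul, mul_add, ha, hb]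
  · intro g r
    have e : (MonoidAlgebra.single g r : RG G) = r • ug g := by
      rw [MonoidAlgebra.smul_single, smul_eq_mul, mul_one]
    rw [e, smul_mul_assoc, h1, mul_smul_comm]

theorem exists_z0 (hodd : Odd (Nat.card G)) :
    ∃ z : RG G, (∀ y : RG G, y * z = z * y) ∧ z + st z = 1 + e0 G := by
  have : Finite (ConjClasses G) := inferInstance
  obtain ⟨n, ⟨e⟩⟩ := Finite.exists_equiv_fin (ConjClasses G)
  let T : G → Prop := fun g => e (ConjClasses.mk g) < e (ConjClasses.mk g⁻¹)
  have hT : ∀ g h : G, T (h * g * h⁻¹) ↔ T g := by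
    intro g h
    have h1 : ConjClasses.mk (h * g * h⁻¹) = ConjClasses.mk g := by
      rw [ConjClasses.mk_eq_mk_iff_isConj]
      exact (isConj_iff.2 ⟨h, rfl⟩).symm
    have h2 : ConjClasses.mk (h * g * h⁻¹)⁻¹ = ConjClasses.mk g⁻¹ := by
      rw [ConjClasses.mk_eq_mk_iff_isConj]
      refine (isConj_iff.2 ⟨h, ?_⟩).symm
      group
    simp only [T, h1, h2]
  have hne : ∀ g : G, g ≠ 1 → e (ConjClasses.mk g) ≠ e (ConjClasses.mk g⁻¹) := by
    intro g hg h
    have h1 := e.injective h
    rw [ConjClasses.mk_eq_mk_iff_isConj] at h1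
    obtain ⟨c, hc⟩ := isConj_iff.1 h1
    exact hg (conj_inv_eq_one hodd hc)
  refine ⟨mk fun g => if T g then 1 else 0, ?_, ?_⟩
  · intro y
    refine central_of_coeff ?_ y
    intro g h
    rw [coeff_mk, coeff_mk]
    simp only [hT]
  · refine rg_ext fun g => ?_
    rw [MonoidAlgebra.coeff_add, Finsupp.add_apply, MonoidAlgebra.coeff_add, Finsupp.add_apply,
      coeff_st, coeff_mk, coeff_mk]
    have h1 : (1 : RG G).coeff g = if g = 1 then 1 else 0 := by
      rw [MonoidAlgebra.one_def, MonoidAlgebra.coeff_single, Finsupp.single_apply]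
      simp only [eq_comm]
    have h2 : (e0 G).coeff g = 1 := rfl
    rw [h1, h2]
    by_cases hg : g = 1
    · subst hg
      have hn : ¬ T 1 := by
        simp only [T, inv_one, lt_irrefl, not_false_eq_true]
      have hn' : ¬ T (1 : G)⁻¹ := by
        rw [inv_one]
        exact hn
      rw [if_neg hn, if_neg hn', if_pos rfl]
      decide
    · rw [if_neg hg, zero_add]
      rcases lt_or_gt_of_ne (hne g hg) with h | h
      · have hp : T g := h
        have hn : ¬ T g⁻¹ := by
          simp only [T, inv_inv]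
          exact not_lt_of_gt h
        rw [if_pos hp, if_neg hn, add_zero]
      · have hp : T g⁻¹ := by
          simp only [T, inv_inv]
          exact h
        have hn : ¬ T g := not_lt_of_gt h
        rw [if_neg hn, if_pos hp, zero_add]

/-! ### averages -/

/-- The average over conjugation. -/
noncomputable def av [Fintype G] : RG G →+ RG G where
  toFun x := ∑ g : G, ug g * x * ug g⁻¹
  map_zero' := by
    refine Finset.sum_eq_zero fun g _ => ?_
    rw [mul_zero, zero_mul]
  map_add' x y := by
    rw [← Finset.sum_add_distrib]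
    refine Finset.sum_congr rfl fun g _ => ?_
    rw [mul_add, add_mul]

lemma av_apply [Fintype G] (x : RG G) : av x = ∑ g : G, ug g * x * ug g⁻¹ := rfl

lemma av_comm_ug [Fintype G] (a : G) (y : RG G) : av (ug a * y) = av (y * ug a) := by
  rw [av_apply, av_apply]
  refine Fintype.sum_equiv (Equiv.mulRight a) _ _ fun g => ?_
  change ug g * (ug a * y) * ug g⁻¹ = ug (g * a) * (y * ug a) * ug (g * a)⁻¹
  rw [← ug_mul g a, mul_inv_rev, ← ug_mul a⁻¹ g⁻¹]
  have : ug a * (ug a⁻¹ * ug g⁻¹) = ug g⁻¹ := by
    rw [← mul_assoc, ug_mul, mul_inv_cancel, ug_one, one_mul]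
  simp only [mul_assoc]
  rw [this]

lemma single_eq_smul (g : G) (r : ZMod 2) : (MonoidAlgebra.single g r : RG G) = r • ug g := by
  rw [MonoidAlgebra.smul_single, smul_eq_mul, mul_one]

lemma zmod2_cases (r : ZMod 2) : r = 0 ∨ r = 1 := by
  fin_cases r
  · left
    rfl
  · right
    rfl

lemma single_cases (g : G) (r : ZMod 2) : (MonoidAlgebra.single g r : RG G) = 0 ∨
    (MonoidAlgebra.single g r : RG G) = ug g := by
  rcases zmod2_cases r with h | h
  · left
    rw [h, MonoidAlgebra.single_zero]
  · right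
    rw [h]

lemma av_comm [Fintype G] (x y : RG G) : av (x * y) = av (y * x) := by
  refine MonoidAlgebra.induction_linear x ?_ ?_ ?_
  · rw [zero_mul, mul_zero]
  · intro a b ha hb
    rw [add_mul, mul_add, map_add, map_add, ha, hb]
  · intro g r
    rcases single_cases g r with h | h
    · rw [h, zero_mul, mul_zero]
    · rw [h, av_comm_ug]

lemma av_central [Fintype G] (x y : RG G) : y * av x = av x * y := by
  have h1 : ∀ h : G, ug h * av x = av x * ug h := by
    intro h
    rw [av_apply, Finset.mul_sum, Finset.sum_mul]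
    refine Fintype.sum_equiv (Equiv.mulLeft h) _ _ fun g => ?_
    change ug h * (ug g * x * ug g⁻¹) = ug (h * g) * x * ug (h * g)⁻¹ * ug h
    rw [← ug_mul h g, mul_inv_rev, ← ug_mul g⁻¹ h⁻¹]
    simp only [mul_assoc]
    rw [ug_mul h⁻¹ h, inv_mul_cancel, ug_one, mul_one]
  refine MonoidAlgebra.induction_linear y ?_ ?_ ?_
  · rw [zero_mul, mul_zero]
  · intro a b ha hb
    rw [add_mul, mul_add, ha, hb]
  · intro g r
    rcases single_cases g r with h | h
    · rw [h, zero_mul, mul_zero]
    · rw [h, h1]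

lemma av_of_central [Fintype G] (hodd : Odd (Nat.card G)) {x : RG G} (hx : ∀ y : RG G, y * x = x * y) :
    av x = x := by
  rw [av_apply]
  have h1 : ∀ g : G, ug g * x * ug g⁻¹ = x := by
    intro g
    rw [hx, mul_assoc, ug_mul, mul_inv_cancel, ug_one, mul_one]
  rw [Finset.sum_congr rfl fun g _ => h1 g, Finset.sum_const, Finset.card_univ]
  rw [Nat.card_eq_fintype_card] at hodd
  obtain ⟨k, hk⟩ := hodd
  rw [hk, succ_nsmul, mul_nsmul, two_nsmul, rg_two]
  simp

/-- The map `∑ x_g g ↦ ∑ x_g g ^ m`. -/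
noncomputable def pw (m : ℕ) : RG G →+ RG G where
  toFun x := .ofCoeff (x.coeff.mapDomain fun g => g ^ m)
  map_zero' := by
    rw [MonoidAlgebra.coeff_zero, Finsupp.mapDomain_zero, MonoidAlgebra.ofCoeff_zero]
  map_add' x y := by
    rw [MonoidAlgebra.coeff_add, Finsupp.mapDomain_add, MonoidAlgebra.ofCoeff_add]

lemma pw_single (m : ℕ) (g : G) (r : ZMod 2) :
    pw m (MonoidAlgebra.single g r) = MonoidAlgebra.single (g ^ m) r := by
  change (MonoidAlgebra.ofCoeff (Finsupp.mapDomain (fun g => g ^ m) (Finsupp.single g r)) : RG G) = _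
  rw [Finsupp.mapDomain_single]
  rfl

lemma pw_pw (m n : ℕ) (x : RG G) : pw n (pw m x) = pw (m * n) x := by
  refine MonoidAlgebra.induction_linear x ?_ ?_ ?_
  · rw [map_zero, map_zero, map_zero]
  · intro a b ha hb
    rw [map_add, map_add, map_add, ha, hb]
  · intro g r
    rw [pw_single, pw_single, pw_single, pow_mul]

lemma pw_one (x : RG G) : pw 1 x = x := by
  refine MonoidAlgebra.induction_linear x ?_ ?_ ?_
  · rw [map_zero]
  · intro a b ha hb
    rw [map_add, ha, hb]
  · intro g r
    rw [pw_single, pow_one]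

lemma pw_conj (m : ℕ) (h : G) (x : RG G) : pw m (ug h * x * ug h⁻¹) = ug h * pw m x * ug h⁻¹ := by
  refine MonoidAlgebra.induction_linear x ?_ ?_ ?_
  · rw [mul_zero, zero_mul, map_zero, mul_zero, zero_mul]
  · intro a b ha hb
    rw [mul_add, add_mul, map_add, ha, hb, map_add, mul_add, add_mul]
  · intro g r
    rcases single_cases g r with e | e
    · rw [e, mul_zero, zero_mul, map_zero, mul_zero, zero_mul]
    · rw [e, ug_mul, ug_mul, pw_single, pw_single, ug_mul, ug_mul, conj_pow]

lemma pw_central (m : ℕ) {x : RG G} (hx : ∀ y : RG G, y * x = x * y) (y : RG G) :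
    y * pw m x = pw m x * y := by
  have h1 : ∀ h : G, ug h * pw m x = pw m x * ug h := by
    intro h
    have e : ug h * x * ug h⁻¹ = x := by
      rw [hx, mul_assoc, ug_mul, mul_inv_cancel, ug_one, mul_one]
    have e2 := pw_conj m h x
    rw [e] at e2
    conv_rhs => rw [e2]
    rw [mul_assoc, ug_mul, inv_mul_cancel, ug_one, mul_one]
  refine MonoidAlgebra.induction_linear y ?_ ?_ ?_
  · rw [zero_mul, mul_zero]
  · intro a b ha hb
    rw [add_mul, mul_add, ha, hb]
  · intro g r
    rcases single_cases g r with h | h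
    · rw [h, zero_mul, mul_zero]
    · rw [h, h1]

lemma av_sq [Fintype G] (x : RG G) : av (x * x) = av (pw 2 x) := by
  refine MonoidAlgebra.induction_linear x ?_ ?_ ?_
  · rw [zero_mul, map_zero, map_zero, map_zero]
  · intro a b ha hb
    have e : (a + b) * (a + b) = a * a + b * b + (a * b + b * a) := by noncomm_ring
    rw [e, map_add, map_add, map_add, av_comm b a, rg_two, add_zero, map_add, map_add, ha, hb]
  · intro g r
    rcases single_cases g r with h | h
    · rw [h, zero_mul, map_zero, map_zero, map_zero]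
    · rw [h, ug_mul, pw_single, pow_two]

theorem central_sq (hodd : Odd (Nat.card G)) {x : RG G} (hx : ∀ y : RG G, y * x = x * y) :
    x * x = pw 2 x := by
  have : Fintype G := Fintype.ofFinite G
  have h1 := av_sq x
  rw [av_of_central hodd, av_of_central hodd (pw_central 2 hx)] at h1
  · exact h1
  · intro y
    rw [← mul_assoc, hx, mul_assoc, hx, ← mul_assoc]

theorem central_pow (hodd : Odd (Nat.card G)) {x : RG G} (hx : ∀ y : RG G, y * x = x * y) (n : ℕ) :
    x ^ (2 ^ n) = pw (2 ^ n) x := by
  induction n with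
  | zero => rw [pow_zero, pow_one, pw_one]
  | succ n ih =>
    rw [pow_succ, pow_mul, ih, pow_two, central_sq hodd (pw_central _ hx), pw_pw]

lemma coeff_pw_two (hodd : Odd (Nat.card G)) (x : RG G) (g : G) :
    (pw 2 x).coeff (g ^ 2) = x.coeff g := by
  change (Finsupp.mapDomain (fun g => g ^ 2) x.coeff) (g ^ 2) = _
  have h : Function.Injective (fun g : G => g ^ 2) := by
    intro a b hab
    obtain ⟨k, hk⟩ := hodd
    have hh : ∀ h : G, (h ^ 2) ^ (k + 1) = h := by
      intro h
      rw [← pow_mul]
      have : 2 * (k + 1) = Nat.card G + 1 := by omega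
      rw [this, pow_succ, pow_card_eq_one', one_mul]
    have hab' : a ^ 2 = b ^ 2 := hab
    rw [← hh a, hab', hh b]
  exact Finsupp.mapDomain_apply h x.coeff g

theorem central_sq_ne (hodd : Odd (Nat.card G)) {x : RG G} (hx : ∀ y : RG G, y * x = x * y)
    (h0 : x ≠ 0) : x * x ≠ 0 := by
  intro h
  apply h0
  rw [central_sq hodd hx] at h
  refine rg_ext fun g => ?_
  rw [← coeff_pw_two hodd, h]
  rfl

theorem central_pow_ne (hodd : Odd (Nat.card G)) {x : RG G} (hx : ∀ y : RG G, y * x = x * y)
    (h0 : x ≠ 0) (m : ℕ) : x ^ m ≠ 0 := by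
  have hc : ∀ n : ℕ, ∀ y : RG G, y * x ^ n = x ^ n * y := by
    intro n y
    have : Commute y x := hx y
    exact (this.pow_right n).eq
  have h2 : ∀ n : ℕ, x ^ (2 ^ n) ≠ 0 := by
    intro n
    induction n with
    | zero => simpa using h0
    | succ n ih =>
      rw [pow_succ, pow_mul, pow_two]
      exact central_sq_ne hodd (hc _) ih
  intro h
  apply h2 m
  have hm : m ≤ 2 ^ m := Nat.lt_two_pow_self.le
  obtain ⟨k, hk⟩ := Nat.exists_eq_add_of_le hm
  rw [hk, pow_add, h, zero_mul]

/-- LA4: in the self-dual case a central element is adjoint to a power of itself. -/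
theorem central_st (hodd : Odd (Nat.card G)) {j : ℕ} (hj : ∀ g : G, IsConj (g ^ 2 ^ j) g⁻¹)
    {x : RG G} (hx : ∀ y : RG G, y * x = x * y) : st x = x ^ (2 ^ j) := by
  have : Fintype G := Fintype.ofFinite G
  have hst : ∀ y : RG G, y * st x = st x * y := by
    intro y
    apply st_inj
    rw [st_mul, st_mul, st_st, hx]
  have hav : ∀ y : RG G, av (pw (2 ^ j) y) = av (st y) := by
    intro y
    refine MonoidAlgebra.induction_linear y ?_ ?_ ?_
    · simp only [map_zero]
    · intro a b ha hb
      rw [map_add, map_add, ha, hb, map_add, map_add]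
    · intro g r
      rcases single_cases g r with h | h
      · simp only [h, map_zero]
      · rw [h, pw_single, st_ug]
        obtain ⟨c, hc⟩ := isConj_iff.1 (hj g)
        rw [← hc, ← ug_mul (c * g ^ 2 ^ j), av_comm, ug_mul]
        congr 2
        group
  rw [central_pow hodd hx, ← av_of_central hodd (pw_central (2 ^ j) hx), hav, av_of_central hodd hst]

/-- A subset of the group algebra with `x u x* = 0` for all `u` is zero. -/
theorem eq_zero_of_isotropic (hodd : Odd (Nat.card G)) {j : ℕ} (hj : ∀ g : G, IsConj (g ^ 2 ^ j) g⁻¹)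
    {x : RG G} (hx : ∀ u : RG G, x * u * st x = 0) : x = 0 := by
  have : Fintype G := Fintype.ofFinite G
  by_contra h0
  have hg : ∃ g, x.coeff g ≠ 0 := by
    by_contra hg
    refine h0 (rg_ext fun g => ?_)
    by_contra h1
    exact hg ⟨g, h1⟩
  obtain ⟨g, hg⟩ := hg
  let x' : RG G := ug g⁻¹ * x
  have h1 : x'.coeff 1 ≠ 0 := by
    change (ug g⁻¹ * x).coeff 1 ≠ 0
    rw [coeff_single_mul, inv_inv, mul_one]
    exact hg
  have hx' : ∀ u : RG G, x' * u * st x' = 0 := by
    intro u
    change ug g⁻¹ * x * u * st (ug g⁻¹ * x) = 0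
    rw [st_mul, ← mul_assoc]
    have : ug g⁻¹ * x * u * st x = ug g⁻¹ * (x * u * st x) := by simp only [mul_assoc]
    rw [this, hx, mul_zero, zero_mul]
  let Y := av x'
  have hYc : ∀ y : RG G, y * Y = Y * y := av_central x'
  have hY1 : Y ≠ 0 := by
    intro h
    have h2 : Y.coeff 1 = 0 := by rw [h]; rfl
    change (av x').coeff 1 = 0 at h2
    rw [av_apply, MonoidAlgebra.coeff_sum, Finsupp.finsetSum_apply] at h2
    have h3 : ∀ g : G, (ug g * x' * ug g⁻¹).coeff 1 = x'.coeff 1 := by
      intro g
      rw [coeff_mul_single, coeff_single_mul]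
      congr 1
      group
    rw [Finset.sum_congr rfl fun g _ => h3 g, Finset.sum_const, Finset.card_univ] at h2
    rw [Nat.card_eq_fintype_card] at hodd
    obtain ⟨k, hk⟩ := hodd
    rw [hk, succ_nsmul, mul_nsmul, two_nsmul, CharTwo.add_self_eq_zero, nsmul_zero, zero_add] at h2
    exact h1 h2
  have hst : st Y = ∑ g : G, ug g * st x' * ug g⁻¹ := by
    change st (av x') = _
    rw [av_apply, map_sum]
    refine Finset.sum_congr rfl fun g _ => ?_
    rw [st_mul, st_mul, st_ug, st_ug, inv_inv, ← mul_assoc]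
  have hYY : Y * st Y = 0 := by
    rw [hst]
    change av x' * _ = 0
    rw [av_apply, Finset.sum_mul]
    refine Finset.sum_eq_zero fun g _ => ?_
    rw [Finset.mul_sum]
    refine Finset.sum_eq_zero fun h _ => ?_
    have : ug g * x' * ug g⁻¹ * (ug h * st x' * ug h⁻¹) =
        ug g * (x' * (ug g⁻¹ * ug h) * st x') * ug h⁻¹ := by simp only [mul_assoc]
    rw [this, hx', mul_zero, zero_mul]
  rw [central_st hodd hj hYc, ← pow_succ'] at hYY
  exact central_pow_ne hodd hYc hY1 _ hYY

end Odd

end H88OD
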