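import Pool.Agent.H38.OD.La

/-!
The self-adjoint idempotent attached to a module without invariants
(project MP_78d38b_OD, row LA2; helper38).
-/

set_option autoImplicit false
set_option linter.unusedSectionVars false
open scoped Classical

namespace H88OD

open MonoidAlgebra

variable {G : Type} [Group G] [Finite G]

section Ell

variable {V : Type} [AddCommGroup V] [DistribMulAction G V]

lemma coeff_ell (φ : V →+ ZMod 2) (v : V) (g : G) : (ell φ v : RG G).coeff g = φ (g⁻¹ • v) := rfl

lemma coeff_ell_one (φ : V →+ ZMod 2) (v : V) : (ell φ v : RG G).coeff 1 = φ v := by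
  rw [coeff_ell, inv_one, one_smul]

lemma exists_ell_mul (φ : V →+ ZMod 2) (r : RG G) :
    ∃ φ' : V →+ ZMod 2, ∀ v : V, (ell φ' v : RG G) = ell φ v * r := by
  refine ⟨{ toFun := fun v => (ell φ v * r : RG G).coeff 1, map_zero' := ?_, map_add' := ?_ }, ?_⟩
  · have h : (ell φ (0 : V) : RG G) = 0 := by
      refine rg_ext fun g => ?_
      rw [coeff_ell, smul_zero, map_zero]
      rfl
    rw [h, zero_mul]
    rfl
  · intro x y
    rw [ell_add, add_mul]
    rfl
  · intro v
    refine rg_ext fun g => ?_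
    rw [coeff_ell]
    change (ell φ (g⁻¹ • v) * r : RG G).coeff 1 = _
    rw [ell_smul, mul_assoc, coeff_single_mul]
    congr 1
    group

lemma ell_zero (φ : V →+ ZMod 2) : (ell φ (0 : V) : RG G) = 0 := by
  refine rg_ext fun g => ?_
  rw [coeff_ell, smul_zero, map_zero]
  rfl

lemma e0_mul_ell (hinv : ∀ v : V, (∀ g : G, g • v = v) → v = 0) (φ : V →+ ZMod 2) (v : V) :
    e0 G * ell φ v = 0 := by
  have : Fintype G := Fintype.ofFinite G
  refine rg_ext fun g => ?_
  rw [coeff_mul]
  have h1 : ∀ h : G, (e0 G).coeff h * (ell φ v : RG G).coeff (h⁻¹ * g) = φ ((g⁻¹ * h) • v) := by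
    intro h
    rw [coeff_ell, mul_inv_rev, inv_inv]
    change (1 : ZMod 2) * _ = _
    rw [one_mul]
  rw [Finset.sum_congr rfl fun h _ => h1 h, ← map_sum]
  have h2 : ∑ h : G, (g⁻¹ * h) • v = 0 := by
    apply hinv
    intro a
    rw [Finset.smul_sum]
    refine Fintype.sum_equiv (Equiv.mulLeft (g * a * g⁻¹)) _ _ fun h => ?_
    change a • ((g⁻¹ * h) • v) = (g⁻¹ * (g * a * g⁻¹ * h)) • v
    rw [← mul_smul]
    congr 1
    group
  rw [h2, map_zero]
  rfl

end Ell

lemma coeff_one_mul_st (x y : RG G) : (x * st y).coeff 1 = (y * st x).coeff 1 := by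
  have h : st (x * st y) = y * st x := by rw [st_mul, st_st]
  rw [← h, coeff_st, inv_one]

theorem exists_eta (hodd : Odd (Nat.card G)) {j : ℕ} (hj : ∀ g : G, IsConj (g ^ 2 ^ j) g⁻¹)
    {V : Type} [AddCommGroup V] [Finite V] [DistribMulAction G V] (h2 : ∀ v : V, v + v = 0)
    (hinv : ∀ v : V, (∀ g : G, g • v = v) → v = 0) (hV : ∃ v : V, v ≠ 0) :
    ∃ (φ : V →+ ZMod 2) (η : RG G), st η = η ∧ η * η = η ∧ η ≠ 0 ∧ e0 G * η = 0 ∧
      (∀ v : V, ell φ v * η = ell φ v) ∧ ∃ v : V, ell φ v = η := by
  obtain ⟨z, hz, hz1⟩ := exists_z0 (G := G) hodd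
  -- a nonzero functional
  have hφ : ∃ φ : V →+ ZMod 2, ∃ v : V, (ell φ v : RG G) ≠ 0 := by
    obtain ⟨v, hv⟩ := hV
    letI : Module (ZMod 2) V := AddCommGroup.zmodModule (n := 2) (fun x => by rw [two_nsmul, h2])
    have h3 : ¬ ∀ f : Module.Dual (ZMod 2) V, f v = 0 := by
      rw [Module.forall_dual_apply_eq_zero_iff (ZMod 2) v]
      exact hv
    obtain ⟨f, hf⟩ := not_forall.1 h3
    refine ⟨f.toAddMonoidHom, v, fun h => hf ?_⟩
    have h4 := coeff_ell_one (G := G) f.toAddMonoidHom v
    rw [h] at h4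
    exact h4.symm
  let P : ℕ → Prop := fun m => ∃ φ : V →+ ZMod 2, (∃ v : V, (ell φ v : RG G) ≠ 0) ∧
    Nat.card (Set.range fun v : V => (ell φ v : RG G)) = m
  have hP : ∃ m, P m := by
    obtain ⟨φ, h⟩ := hφ
    exact ⟨_, φ, h, rfl⟩
  let m := Nat.find hP
  have hm : P m := Nat.find_spec hP
  have hmin : ∀ φ : V →+ ZMod 2, (∃ v : V, (ell φ v : RG G) ≠ 0) →
      m ≤ Nat.card (Set.range fun v : V => (ell φ v : RG G)) := by
    intro φ h
    exact Nat.find_min' hP ⟨φ, h, rfl⟩
  have hfin : ∀ φ : V →+ ZMod 2, (Set.range fun v : V => (ell φ v : RG G)).Finite := fun φ =>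
    Set.finite_range _
  -- images of minimal images
  have himg : ∀ (φ : V →+ ZMod 2) (r : RG G) (φ' : V →+ ZMod 2),
      (∀ v : V, (ell φ' v : RG G) = ell φ v * r) →
      (Set.range fun v : V => (ell φ' v : RG G)) =
        (fun x => x * r) '' (Set.range fun v : V => (ell φ v : RG G)) := by
    intro φ r φ' h
    rw [← Set.range_comp]
    congr 1
    funext v
    exact h v
  -- there is a minimal one which is not isotropic
  have hA : ∃ φ : V →+ ZMod 2, (Nat.card (Set.range fun v : V => (ell φ v : RG G)) = m) ∧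
      ∃ v w : V, (ell φ v : RG G) * st (ell φ w) ≠ 0 := by
    by_contra hcon
    push Not at hcon
    obtain ⟨φ, ⟨v0, hv0⟩, hcard⟩ := hm
    have h1 : ∀ (r : RG G) (v w : V), (ell φ v : RG G) * r * st (ell φ w * r) = 0 := by
      intro r v w
      obtain ⟨φ', h'⟩ := exists_ell_mul (G := G) φ r
      rw [← h', ← h']
      by_cases h0 : ∃ v : V, (ell φ' v : RG G) ≠ 0
      · refine hcon φ' ?_ v w
        refine le_antisymm ?_ (hmin φ' h0)
        rw [himg φ r φ' h', ← hcard, Nat.card_coe_set_eq, Nat.card_coe_set_eq]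
        exact Set.ncard_image_le (hfin φ)
      · push Not at h0
        rw [h0 v, zero_mul]
    have h3 : ∀ (r : RG G) (v w : V), (ell φ v : RG G) * r * st (ell φ w) =
        ell φ v * st r * st (ell φ w) := by
      intro r v w
      have a1 := h1 (r + 1) v w
      have a2 := h1 r v w
      have a3 := h1 1 v w
      rw [mul_add, mul_add, map_add, mul_add, add_mul, add_mul, a2, a3, mul_one, mul_one, st_mul,
        zero_add, add_zero] at a1
      have := rg_add_eq_zero a1
      rw [← this]
      simp only [mul_assoc]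
    have hst : ∀ y : RG G, y * st z = st z * y := by
      intro y
      apply st_inj
      rw [st_mul, st_mul, st_st, hz]
    have h4 : ∀ (u : RG G) (v w : V), (ell φ v : RG G) * u * st (ell φ w) = 0 := by
      intro u v w
      have b1 := h3 (z * u) v w
      rw [st_mul] at b1
      have b2 : (ell φ v : RG G) * (z * u) * st (ell φ w) = z * (ell φ v * u * st (ell φ w)) := by
        rw [← mul_assoc (ell φ v) z u, hz (ell φ v)]
        simp only [mul_assoc]
      have b3 : (ell φ v : RG G) * (st u * st z) * st (ell φ w) =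
          st z * (ell φ v * u * st (ell φ w)) := by
        rw [h3 u v w, hst (st u), ← mul_assoc (ell φ v) (st z) (st u), hst (ell φ v)]
        simp only [mul_assoc]
      rw [b2, b3] at b1
      have b4 : (z + st z) * (ell φ v * u * st (ell φ w)) = 0 := by
        rw [add_mul, b1, rg_two]
      rw [hz1, add_mul, one_mul] at b4
      have b5 : e0 G * (ell φ v * u * st (ell φ w)) = 0 := by
        rw [← mul_assoc, ← mul_assoc, e0_mul_ell hinv, zero_mul, zero_mul]
      rw [b5, add_zero] at b4
      exact b4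
    exact hv0 (eq_zero_of_isotropic hodd hj fun u => h4 u v0 v0)
  obtain ⟨φ, hcard, v1, w1, hvw⟩ := hA
  -- the image
  let I : Submodule (ZMod 2) (RG G) :=
    { carrier := Set.range fun v : V => (ell φ v : RG G)
      add_mem' := by
        rintro _ _ ⟨v, rfl⟩ ⟨w, rfl⟩
        exact ⟨v + w, ell_add φ v w⟩
      zero_mem' := ⟨0, ell_zero φ⟩
      smul_mem' := by
        rintro c _ ⟨v, rfl⟩
        rcases zmod2_cases c with h | h
        · rw [h, zero_smul]
          exact ⟨0, ell_zero φ⟩
        · rw [h, one_smul]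
          exact ⟨v, rfl⟩ }
  have hI : ∀ x : RG G, x ∈ I ↔ ∃ v : V, ell φ v = x := fun x => Iff.rfl
  have hIug : ∀ (g : G) (x : RG G), x ∈ I → ug g * x ∈ I := by
    rintro g _ ⟨v, rfl⟩
    exact ⟨g • v, ell_smul φ g v⟩
  -- right multiplication by `st (ell w1)` is injective on the image
  have hinj : ∀ y : RG G, y ∈ I → y * st (ell φ w1) = 0 → y = 0 := by
    obtain ⟨φ', h'⟩ := exists_ell_mul (G := G) φ (st (ell φ w1))
    have h0 : ∃ v : V, (ell φ' v : RG G) ≠ 0 := ⟨v1, by rw [h']; exact hvw⟩
    have h5 := hmin φ' h0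
    rw [himg φ _ φ' h', ← hcard, Nat.card_coe_set_eq, Nat.card_coe_set_eq] at h5
    have h6 : Set.InjOn (fun x : RG G => x * st (ell φ w1)) (Set.range fun v : V => (ell φ v : RG G)) :=
      Set.injOn_of_ncard_image_eq (le_antisymm (Set.ncard_image_le (hfin φ)) h5) (hfin φ)
    intro y hy hy0
    refine h6 hy (I.zero_mem) ?_
    change y * st (ell φ w1) = 0 * st (ell φ w1)
    rw [hy0, zero_mul]
  -- nondegeneracy
  have hnd : ∀ y : RG G, y ∈ I → (∀ x : RG G, x ∈ I → (x * st y).coeff 1 = 0) → y = 0 := by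
    intro y hy h
    apply hinj y hy
    refine rg_ext fun g => ?_
    have h7 := h (ug g⁻¹⁻¹ * ell φ w1) (hIug _ _ ⟨w1, rfl⟩)
    rw [coeff_one_mul_st, st_mul, st_ug, inv_inv, ← mul_assoc, coeff_mul_single, inv_inv,
      one_mul] at h7
    rw [h7]
    rfl
  -- the form on the image
  let B : I →ₗ[ZMod 2] Module.Dual (ZMod 2) I :=
    { toFun := fun y =>
        { toFun := fun x => ((x : RG G) * st (y : RG G)).coeff 1
          map_add' := by
            intro x x'
            rw [Submodule.coe_add, add_mul]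
            rfl
          map_smul' := by
            intro c x
            rw [Submodule.coe_smul, smul_mul_assoc]
            rfl }
      map_add' := by
        intro y y'
        refine LinearMap.ext fun x => ?_
        change ((x : RG G) * st ((y : RG G) + (y' : RG G))).coeff 1 = _
        rw [map_add, mul_add]
        rfl
      map_smul' := by
        intro c y
        refine LinearMap.ext fun x => ?_
        change ((x : RG G) * st (c • (y : RG G))).coeff 1 = c • ((x : RG G) * st (y : RG G)).coeff 1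
        rcases zmod2_cases c with h | h
        · rw [h, zero_smul, map_zero, mul_zero, zero_smul]
          rfl
        · rw [h, one_smul, one_smul] }
  have hfI : Finite I := (hfin φ).to_subtype
  have hBinj : Function.Injective B := by
    rw [injective_iff_map_eq_zero]
    intro y hy
    apply Subtype.ext
    refine hnd y y.2 fun x hx => ?_
    have := LinearMap.congr_fun hy ⟨x, hx⟩
    exact this
  have hBsurj : Function.Surjective B :=
    (LinearMap.injective_iff_surjective_of_finrank_eq_finrank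
      (Subspace.dual_finrank_eq (K := ZMod 2) (V := I)).symm).1 hBinj
  let f : Module.Dual (ZMod 2) I :=
    { toFun := fun x => (x : RG G).coeff 1
      map_add' := fun x x' => rfl
      map_smul' := fun c x => rfl }
  obtain ⟨η, hη⟩ := hBsurj f
  have hη1 : ∀ x : RG G, x ∈ I → (x * st (η : RG G)).coeff 1 = x.coeff 1 := by
    intro x hx
    exact LinearMap.congr_fun hη ⟨x, hx⟩
  have hη2 : ∀ x : RG G, x ∈ I → x * st (η : RG G) = x := by
    intro x hx
    refine rg_ext fun g => ?_
    have h8 := hη1 (ug g⁻¹ * x) (hIug _ _ hx)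
    rw [mul_assoc, coeff_single_mul, coeff_single_mul, inv_inv, mul_one] at h8
    exact h8
  have hη3 : st (η : RG G) = η := by
    have h9 := hη2 η η.2
    have h10 := congrArg st h9
    rw [st_mul, st_st, h9] at h10
    exact h10.symm
  have hη4 : ∀ x : RG G, x ∈ I → x * (η : RG G) = x := by
    intro x hx
    have := hη2 x hx
    rw [hη3] at this
    exact this
  obtain ⟨v, hv⟩ := η.2
  have hv' : (ell φ v : RG G) = (η : RG G) := hv
  refine ⟨φ, η, hη3, hη4 η η.2, ?_, ?_, fun v => hη4 _ ⟨v, rfl⟩, v, hv'⟩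
  · intro h
    apply hvw
    rw [← hη4 (ell φ v1) ⟨v1, rfl⟩, h, mul_zero, zero_mul]
  · rw [← hv']
    exact e0_mul_ell hinv φ v

end H88OD
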