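import Pool.Agent.H38.OD.Lb

/-!
The self-adjoint idempotent in the general case (project MP_78d38b_OD, stage 2; helper38).

`exists_eta_sym` : the same conclusion as `exists_eta` for every group of odd order if the module is symmetric in the
weak sense that a central element `Y` acts trivially whenever `st Y` acts trivially.
-/

set_option autoImplicit false
set_option linter.unusedSectionVars false
open scoped Classical

namespace H88OD

open MonoidAlgebra

variable {G : Type} [Group G] [Finite G]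

section Act

variable {V : Type} [AddCommGroup V] [DistribMulAction G V]

/-- The action of the group algebra. -/
noncomputable def act [Fintype G] (x : RG G) (v : V) : V := ∑ g : G, (x.coeff g).val • (g • v)

lemma ell_act [Fintype G] (φ : V →+ ZMod 2) (x : RG G) (v : V) :
    (ell φ (act x v) : RG G) = x * ell φ v := by
  refine rg_ext fun k => ?_
  rw [coeff_mul, coeff_ell]
  unfold act
  rw [Finset.smul_sum, map_sum]
  refine Finset.sum_congr rfl fun h _ => ?_
  rw [coeff_ell, mul_inv_rev, inv_inv, smul_comm k⁻¹, map_nsmul, mul_smul]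
  rcases zmod2_cases (x.coeff h) with e | e
  · rw [e]
    simp
  · rw [e]
    simp

end Act

/-- nonzero elements produce central elements -/
lemma exists_central (hodd : Odd (Nat.card G)) [Fintype G] {x : RG G} (hx : x ≠ 0) :
    ∃ g : G, av (ug g * x) ≠ 0 := by
  have hg : ∃ g, x.coeff g ≠ 0 := by
    by_contra hg
    refine hx (rg_ext fun g => ?_)
    by_contra h1
    exact hg ⟨g, h1⟩
  obtain ⟨g, hg⟩ := hg
  refine ⟨g⁻¹, fun h => hg ?_⟩
  have h2 : (av (ug g⁻¹ * x)).coeff 1 = 0 := by rw [h]; rfl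
  rw [av_apply, MonoidAlgebra.coeff_sum, Finsupp.finsetSum_apply] at h2
  have h3 : ∀ k : G, (ug k * (ug g⁻¹ * x) * ug k⁻¹).coeff 1 = x.coeff g := by
    intro k
    rw [coeff_mul_single, coeff_single_mul, coeff_single_mul]
    congr 1
    group
  rw [Finset.sum_congr rfl fun k _ => h3 k, Finset.sum_const, Finset.card_univ] at h2
  rw [Nat.card_eq_fintype_card] at hodd
  obtain ⟨k, hk⟩ := hodd
  rw [hk, succ_nsmul, mul_nsmul, two_nsmul, CharTwo.add_self_eq_zero, nsmul_zero, zero_add] at h2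
  exact h2

lemma semiprime (hodd : Odd (Nat.card G)) {x : RG G} (h : ∀ u : RG G, x * u * x = 0) : x = 0 := by
  have : Fintype G := Fintype.ofFinite G
  by_contra hx
  obtain ⟨g, hg⟩ := exists_central hodd hx
  refine central_sq_ne hodd (av_central _) hg ?_
  rw [av_apply, Finset.sum_mul]
  refine Finset.sum_eq_zero fun a _ => ?_
  rw [Finset.mul_sum]
  refine Finset.sum_eq_zero fun b _ => ?_
  have e : ug a * (ug g * x) * ug a⁻¹ * (ug b * (ug g * x) * ug b⁻¹) =
      ug a * ug g * (x * (ug a⁻¹ * ug b * ug g) * x) * ug b⁻¹ := by simp only [mul_assoc]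
  rw [e, h, mul_zero, zero_mul]

lemma central_cancel (hodd : Odd (Nat.card G)) {c x : RG G} (hc : ∀ y : RG G, y * c = c * y)
    (h : c * (c * x) = 0) : c * x = 0 := by
  refine semiprime hodd fun u => ?_
  have e : c * x * u * (c * x) = c * (c * x) * u * x := by
    have e1 : c * x * u * (c * x) = c * (x * u * c) * x := by simp only [mul_assoc]
    rw [e1, hc (x * u)]
    simp only [mul_assoc]
  rw [e, h, zero_mul, zero_mul]

/-- The idempotent attached to a functional with nondegenerate image. -/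
theorem eta_of_nd {V : Type} [AddCommGroup V] [Finite V] [DistribMulAction G V]
    (hinv : ∀ v : V, (∀ g : G, g • v = v) → v = 0) (φ : V →+ ZMod 2)
    (hne : ∃ v : V, (ell φ v : RG G) ≠ 0)
    (hnd : ∀ v : V, (∀ w : V, ((ell φ w : RG G) * st (ell φ v)).coeff 1 = 0) → (ell φ v : RG G) = 0) :
    ∃ η : RG G, st η = η ∧ η * η = η ∧ η ≠ 0 ∧ e0 G * η = 0 ∧
      (∀ v : V, ell φ v * η = ell φ v) ∧ ∃ v : V, ell φ v = η := by
  have hfin : (Set.range fun v : V => (ell φ v : RG G)).Finite := Set.finite_range _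
  let I : Submodule (ZMod 2) (RG G) :=
    { carrier := Set.range fun v : V => (ell φ v : RG G)
      add_mem' := by
        rintro _ _ ⟨v, rfl⟩ ⟨w, rfl⟩
        exact ⟨v + w, ell_add φ v w⟩
      zero_mem' := ⟨0, ell_zero φ⟩
      smul_mem' := by
        rintro c _ ⟨v, rfl⟩
        rcases zmod2_cases c with h | h
        · rw [h, zero_smul]
          exact ⟨0, ell_zero φ⟩
        · rw [h, one_smul]
          exact ⟨v, rfl⟩ }
  have hIug : ∀ (g : G) (x : RG G), x ∈ I → ug g * x ∈ I := by
    rintro g _ ⟨v, rfl⟩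
    exact ⟨g • v, ell_smul φ g v⟩
  let B : I →ₗ[ZMod 2] Module.Dual (ZMod 2) I :=
    { toFun := fun y =>
        { toFun := fun x => ((x : RG G) * st (y : RG G)).coeff 1
          map_add' := by
            intro x x'
            rw [Submodule.coe_add, add_mul]
            rfl
          map_smul' := by
            intro c x
            rw [Submodule.coe_smul, smul_mul_assoc]
            rfl }
      map_add' := by
        intro y y'
        refine LinearMap.ext fun x => ?_
        change ((x : RG G) * st ((y : RG G) + (y' : RG G))).coeff 1 = _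
        rw [map_add, mul_add]
        rfl
      map_smul' := by
        intro c y
        refine LinearMap.ext fun x => ?_
        change ((x : RG G) * st (c • (y : RG G))).coeff 1 = c • ((x : RG G) * st (y : RG G)).coeff 1
        rcases zmod2_cases c with h | h
        · rw [h, zero_smul, map_zero, mul_zero, zero_smul]
          rfl
        · rw [h, one_smul, one_smul] }
  have hfI : Finite I := hfin.to_subtype
  have hBinj : Function.Injective B := by
    rw [injective_iff_map_eq_zero]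
    rintro ⟨_, v, rfl⟩ hy
    apply Subtype.ext
    refine hnd v fun w => ?_
    have := LinearMap.congr_fun hy ⟨ell φ w, w, rfl⟩
    exact this
  have hBsurj : Function.Surjective B :=
    (LinearMap.injective_iff_surjective_of_finrank_eq_finrank
      (Subspace.dual_finrank_eq (K := ZMod 2) (V := I)).symm).1 hBinj
  let f : Module.Dual (ZMod 2) I :=
    { toFun := fun x => (x : RG G).coeff 1
      map_add' := fun x x' => rfl
      map_smul' := fun c x => rfl }
  obtain ⟨η, hη⟩ := hBsurj f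
  have hη1 : ∀ x : RG G, x ∈ I → (x * st (η : RG G)).coeff 1 = x.coeff 1 := by
    intro x hx
    exact LinearMap.congr_fun hη ⟨x, hx⟩
  have hη2 : ∀ x : RG G, x ∈ I → x * st (η : RG G) = x := by
    intro x hx
    refine rg_ext fun g => ?_
    have h8 := hη1 (ug g⁻¹ * x) (hIug _ _ hx)
    rw [mul_assoc, coeff_single_mul, coeff_single_mul, inv_inv, mul_one] at h8
    exact h8
  have hη3 : st (η : RG G) = η := by
    have h9 := hη2 η η.2
    have h10 := congrArg st h9
    rw [st_mul, st_st, h9] at h10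
    exact h10.symm
  have hη4 : ∀ x : RG G, x ∈ I → x * (η : RG G) = x := by
    intro x hx
    have := hη2 x hx
    rw [hη3] at this
    exact this
  obtain ⟨v, hv⟩ := η.2
  have hv' : (ell φ v : RG G) = (η : RG G) := hv
  refine ⟨η, hη3, hη4 η η.2, ?_, ?_, fun v => hη4 _ ⟨v, rfl⟩, v, hv'⟩
  · intro h
    obtain ⟨v1, hv1⟩ := hne
    apply hv1
    rw [← hη4 (ell φ v1) ⟨v1, rfl⟩, h, mul_zero]
  · rw [← hv']
    exact e0_mul_ell hinv φ v

/-- the form vanishes if it vanishes for all translates -/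
lemma mul_st_eq_zero {V : Type} [AddCommGroup V] [DistribMulAction G V] (φ : V →+ ZMod 2) (y : RG G)
    (h : ∀ w : V, ((ell φ w : RG G) * st y).coeff 1 = 0) (w : V) : (ell φ w : RG G) * st y = 0 := by
  refine rg_ext fun g => ?_
  have h1 := h (g⁻¹ • w)
  rw [ell_smul, mul_assoc, coeff_single_mul, inv_inv, mul_one] at h1
  rw [h1]
  rfl

theorem exists_eta_sym (hodd : Odd (Nat.card G))
    {V : Type} [AddCommGroup V] [Finite V] [DistribMulAction G V] (h2 : ∀ v : V, v + v = 0)
    (hinv : ∀ v : V, (∀ g : G, g • v = v) → v = 0) (hV : ∃ v : V, v ≠ 0)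
    (hsym : ∀ Y : RG G, (∀ y : RG G, y * Y = Y * y) →
      (∀ (φ : V →+ ZMod 2) (v : V), st Y * (ell φ v : RG G) = 0) →
      ∀ (φ : V →+ ZMod 2) (v : V), Y * (ell φ v : RG G) = 0) :
    ∃ (φ : V →+ ZMod 2) (η : RG G), st η = η ∧ η * η = η ∧ η ≠ 0 ∧ e0 G * η = 0 ∧
      (∀ v : V, ell φ v * η = ell φ v) ∧ ∃ v : V, ell φ v = η := by
  have : Fintype G := Fintype.ofFinite G
  obtain ⟨z, hz, hz1⟩ := exists_z0 (G := G) hodd
  have hφ : ∃ φ : V →+ ZMod 2, ∃ v : V, (ell φ v : RG G) ≠ 0 := by
    obtain ⟨v, hv⟩ := hV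
    let _ : Module (ZMod 2) V := AddCommGroup.zmodModule (n := 2) (fun x => by rw [two_nsmul, h2])
    have h3 : ¬ ∀ f : Module.Dual (ZMod 2) V, f v = 0 := by
      rw [Module.forall_dual_apply_eq_zero_iff (ZMod 2) v]
      exact hv
    obtain ⟨f, hf⟩ := not_forall.1 h3
    refine ⟨f.toAddMonoidHom, v, fun h => hf ?_⟩
    have h4 := coeff_ell_one (G := G) f.toAddMonoidHom v
    rw [h] at h4
    exact h4.symm
  have hfin : ∀ φ : V →+ ZMod 2, (Set.range fun v : V => (ell φ v : RG G)).Finite := fun φ =>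
    Set.finite_range _
  have himg : ∀ (φ : V →+ ZMod 2) (r : RG G) (φ' : V →+ ZMod 2),
      (∀ v : V, (ell φ' v : RG G) = ell φ v * r) →
      (Set.range fun v : V => (ell φ' v : RG G)) =
        (fun x => x * r) '' (Set.range fun v : V => (ell φ v : RG G)) := by
    intro φ r φ' h
    rw [← Set.range_comp]
    congr 1
    funext v
    exact h v
  have hle : ∀ (φ : V →+ ZMod 2) (r : RG G) (φ' : V →+ ZMod 2),
      (∀ v : V, (ell φ' v : RG G) = ell φ v * r) →
      Nat.card (Set.range fun v : V => (ell φ' v : RG G)) ≤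
        Nat.card (Set.range fun v : V => (ell φ v : RG G)) := by
    intro φ r φ' h
    rw [himg φ r φ' h, Nat.card_coe_set_eq, Nat.card_coe_set_eq]
    exact Set.ncard_image_le (hfin φ)
  have hinj : ∀ (φ : V →+ ZMod 2) (r : RG G) (φ' : V →+ ZMod 2),
      (∀ v : V, (ell φ' v : RG G) = ell φ v * r) →
      Nat.card (Set.range fun v : V => (ell φ v : RG G)) ≤
        Nat.card (Set.range fun v : V => (ell φ' v : RG G)) →
      ∀ v : V, (ell φ v : RG G) * r = 0 → (ell φ v : RG G) = 0 := by
    intro φ r φ' h h5 v hv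
    rw [himg φ r φ' h, Nat.card_coe_set_eq, Nat.card_coe_set_eq] at h5
    have h6 : Set.InjOn (fun x : RG G => x * r) (Set.range fun v : V => (ell φ v : RG G)) :=
      Set.injOn_of_ncard_image_eq (le_antisymm (Set.ncard_image_le (hfin φ)) h5) (hfin φ)
    refine h6 ⟨v, rfl⟩ ⟨0, ell_zero φ⟩ ?_
    change ell φ v * r = 0 * r
    rw [hv, zero_mul]
  let P : ℕ → Prop := fun m => ∃ φ : V →+ ZMod 2, (∃ v : V, (ell φ v : RG G) ≠ 0) ∧
    Nat.card (Set.range fun v : V => (ell φ v : RG G)) = m
  have hP : ∃ m, P m := by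
    obtain ⟨φ, h⟩ := hφ
    exact ⟨_, φ, h, rfl⟩
  let m := Nat.find hP
  have hm : P m := Nat.find_spec hP
  have hmin : ∀ φ : V →+ ZMod 2, (∃ v : V, (ell φ v : RG G) ≠ 0) →
      m ≤ Nat.card (Set.range fun v : V => (ell φ v : RG G)) := by
    intro φ h
    exact Nat.find_min' hP ⟨φ, h, rfl⟩
  by_cases hA : ∃ φ : V →+ ZMod 2, (Nat.card (Set.range fun v : V => (ell φ v : RG G)) = m) ∧
      ∃ v w : V, (ell φ v : RG G) * st (ell φ w) ≠ 0
  · -- a minimal image which is not isotropic
    obtain ⟨φ, hcard, v1, w1, hvw⟩ := hA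
    obtain ⟨φ', h'⟩ := exists_ell_mul (G := G) φ (st (ell φ w1))
    have h5 := hmin φ' ⟨v1, by rw [h']; exact hvw⟩
    rw [← hcard] at h5
    have hne : ∃ v : V, (ell φ v : RG G) ≠ 0 := by
      refine ⟨v1, fun h => hvw ?_⟩
      rw [h, zero_mul]
    obtain ⟨η, hη⟩ := eta_of_nd hinv φ hne (by
      intro v hv
      refine hinj φ _ φ' h' h5 v ?_
      apply st_inj
      rw [st_mul, st_st, map_zero]
      exact mul_st_eq_zero φ _ hv w1)
    exact ⟨φ, η, hη⟩
  -- all minimal images are isotropic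
  push Not at hA
  obtain ⟨φ, ⟨v0, hv0⟩, hcard⟩ := hm
  have h1 : ∀ (r : RG G) (v w : V), (ell φ v : RG G) * r * st (ell φ w * r) = 0 := by
    intro r v w
    obtain ⟨φ', h'⟩ := exists_ell_mul (G := G) φ r
    rw [← h', ← h']
    by_cases h0 : ∃ v : V, (ell φ' v : RG G) ≠ 0
    · refine hA φ' ?_ v w
      refine le_antisymm ?_ (hmin φ' h0)
      rw [← hcard]
      exact hle φ r φ' h'
    · push Not at h0
      rw [h0 v, zero_mul]
  have h3 : ∀ (r : RG G) (v w : V), (ell φ v : RG G) * r * st (ell φ w) =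
      ell φ v * st r * st (ell φ w) := by
    intro r v w
    have a1 := h1 (r + 1) v w
    have a2 := h1 r v w
    have a3 := h1 1 v w
    rw [mul_add, mul_add, map_add, mul_add, add_mul, add_mul, a2, a3, mul_one, mul_one, st_mul,
      zero_add, add_zero] at a1
    have := rg_add_eq_zero a1
    rw [← this]
    simp only [mul_assoc]
  have hst : ∀ y : RG G, y * st z = st z * y := by
    intro y
    apply st_inj
    rw [st_mul, st_mul, st_st, hz]
  have h4 : ∀ (u : RG G) (v w : V), (ell φ v : RG G) * u * st (ell φ w) = 0 := by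
    intro u v w
    have b1 := h3 (z * u) v w
    rw [st_mul] at b1
    have b2 : (ell φ v : RG G) * (z * u) * st (ell φ w) = z * (ell φ v * u * st (ell φ w)) := by
      rw [← mul_assoc (ell φ v) z u, hz (ell φ v)]
      simp only [mul_assoc]
    have b3 : (ell φ v : RG G) * (st u * st z) * st (ell φ w) =
        st z * (ell φ v * u * st (ell φ w)) := by
      rw [h3 u v w, hst (st u), ← mul_assoc (ell φ v) (st z) (st u), hst (ell φ v)]
      simp only [mul_assoc]
    rw [b2, b3] at b1
    have b4 : (z + st z) * (ell φ v * u * st (ell φ w)) = 0 := by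
      rw [add_mul, b1, rg_two]
    rw [hz1, add_mul, one_mul] at b4
    have b5 : e0 G * (ell φ v * u * st (ell φ w)) = 0 := by
      rw [← mul_assoc, ← mul_assoc, e0_mul_ell hinv, zero_mul, zero_mul]
    rw [b5, add_zero] at b4
    exact b4
  -- the central element
  obtain ⟨g0, hg0⟩ := exists_central hodd hv0
  let x0 : RG G := ug g0 * ell φ v0
  have hx0 : x0 = ell φ (g0 • v0) := (ell_smul φ g0 v0).symm
  let Y : RG G := av x0
  have hY0 : Y ≠ 0 := hg0
  have hYc : ∀ y : RG G, y * Y = Y * y := av_central x0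
  have hYc' : ∀ y : RG G, y * st Y = st Y * y := by
    intro y
    apply st_inj
    rw [st_mul, st_mul, st_st, hYc]
  have hstY : st Y = ∑ g : G, ug g * st x0 * ug g⁻¹ := by
    change st (av x0) = _
    rw [av_apply, map_sum]
    refine Finset.sum_congr rfl fun g _ => ?_
    rw [st_mul, st_mul, st_ug, st_ug, inv_inv, ← mul_assoc]
  have hP1 : ∀ v : V, (ell φ v : RG G) * st Y = 0 := by
    intro v
    rw [hstY, Finset.mul_sum]
    refine Finset.sum_eq_zero fun g _ => ?_
    rw [← mul_assoc, ← mul_assoc, hx0, h4, zero_mul]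
  have hYY : Y * st Y = 0 := by
    change av x0 * st Y = 0
    rw [av_apply, Finset.sum_mul]
    refine Finset.sum_eq_zero fun g _ => ?_
    rw [mul_assoc, hYc' (ug g⁻¹), mul_assoc (ug g) x0, ← mul_assoc x0 (st Y), hx0, hP1, zero_mul,
      mul_zero]
  have hP2 : ∃ v : V, Y * (ell φ v : RG G) ≠ 0 := by
    by_contra hcon
    push Not at hcon
    refine central_sq_ne hodd hYc hY0 ?_
    have e : Y * Y = ∑ g : G, ug g * (Y * x0) * ug g⁻¹ := by
      change Y * av x0 = _
      rw [av_apply, Finset.mul_sum]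
      refine Finset.sum_congr rfl fun g _ => ?_
      rw [← mul_assoc, ← mul_assoc, ← hYc (ug g)]
      simp only [mul_assoc]
    rw [e]
    refine Finset.sum_eq_zero fun g _ => ?_
    rw [hx0, hcon, mul_zero, zero_mul]
  -- replace `φ`
  obtain ⟨φ1, hφ1⟩ := exists_ell_mul (G := G) φ Y
  have hφ1' : ∀ v : V, (ell φ1 v : RG G) = Y * ell φ v := fun v => by rw [hφ1, hYc]
  have hne1 : ∃ v : V, (ell φ1 v : RG G) ≠ 0 := by
    obtain ⟨v, hv⟩ := hP2
    exact ⟨v, by rw [hφ1']; exact hv⟩
  have hcard1 : Nat.card (Set.range fun v : V => (ell φ1 v : RG G)) = m := by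
    refine le_antisymm ?_ (hmin φ1 hne1)
    rw [← hcard]
    exact hle φ Y φ1 hφ1
  have hsYI : ∀ v : V, st Y * (ell φ1 v : RG G) = 0 := by
    intro v
    rw [hφ1', ← mul_assoc, hYc (st Y), hYY, zero_mul]
  -- the other side
  have hY' : ∃ ψ : V →+ ZMod 2, ∃ v : V, st Y * (ell ψ v : RG G) ≠ 0 := by
    by_contra hcon
    push Not at hcon
    obtain ⟨v, hv⟩ := hP2
    exact hv (hsym Y hYc hcon φ v)
  let Q : ℕ → Prop := fun n => ∃ ψ : V →+ ZMod 2, (∃ v : V, st Y * (ell ψ v : RG G) ≠ 0) ∧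
    Nat.card (Set.range fun v : V => st Y * (ell ψ v : RG G)) = n
  have hQ : ∃ n, Q n := by
    obtain ⟨ψ, h⟩ := hY'
    exact ⟨_, ψ, h, rfl⟩
  have hQm : Q (Nat.find hQ) := Nat.find_spec hQ
  have hQmin : ∀ ψ : V →+ ZMod 2, (∃ v : V, st Y * (ell ψ v : RG G) ≠ 0) →
      Nat.find hQ ≤ Nat.card (Set.range fun v : V => st Y * (ell ψ v : RG G)) := by
    intro ψ h
    exact Nat.find_min' hQ ⟨ψ, h, rfl⟩
  obtain ⟨ψ0, ⟨w0, hw0⟩, hcard0⟩ := hQm
  obtain ⟨ψ, hψ⟩ := exists_ell_mul (G := G) ψ0 (st Y)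
  have hψ' : ∀ v : V, (ell ψ v : RG G) = st Y * ell ψ0 v := fun v => by rw [hψ, hYc']
  -- multiplication by `st Y` on the image of `ψ` is injective
  have hcan : ∀ v : V, st Y * (ell ψ v : RG G) = 0 → (ell ψ v : RG G) = 0 := by
    intro v hv
    rw [hψ'] at hv ⊢
    exact central_cancel hodd hYc' hv
  have hcanY : ∀ v : V, Y * (ell φ1 v : RG G) = 0 → (ell φ1 v : RG G) = 0 := by
    intro v hv
    rw [hφ1'] at hv ⊢
    exact central_cancel hodd hYc hv
  have hcardψ : Nat.card (Set.range fun v : V => (ell ψ v : RG G)) = Nat.find hQ := by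
    have e0 : (fun v : V => (ell ψ v : RG G)) = fun v : V => st Y * ell ψ0 v := funext hψ'
    rw [← hcard0, e0]
  -- they are not orthogonal
  have hR : ∃ (r : RG G) (v w : V), (ell φ1 v : RG G) * r * st (ell ψ w) ≠ 0 := by
    by_contra hcon
    push Not at hcon
    have hw1 : (ell ψ w0 : RG G) ≠ 0 := by
      rw [hψ']
      exact hw0
    obtain ⟨g1, hg1⟩ := exists_central hodd hw1
    have hc1 : ∀ y : RG G, y * av (ug g1 * ell ψ w0) = av (ug g1 * ell ψ w0) * y := av_central _
    -- `Y * st (av ..) = 0`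
    have e1 : ∀ v : V, (ell φ1 v : RG G) * st (av (ug g1 * ell ψ w0)) = 0 := by
      intro v
      rw [av_apply, map_sum, Finset.mul_sum]
      refine Finset.sum_eq_zero fun g _ => ?_
      rw [st_mul, st_mul, st_ug, st_ug, inv_inv, ← ell_smul, ← mul_assoc, ← mul_assoc, hcon,
        zero_mul]
    have hcst : ∀ y : RG G, y * st (av (ug g1 * ell ψ w0)) = st (av (ug g1 * ell ψ w0)) * y := by
      intro y
      apply st_inj
      rw [st_mul, st_mul, st_st, hc1]
    have e2 : Y * (Y * st (av (ug g1 * ell ψ w0))) = 0 := by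
      have e3 : Y * Y = ∑ g : G, ug g * (Y * x0) * ug g⁻¹ := by
        change Y * av x0 = _
        rw [av_apply, Finset.mul_sum]
        refine Finset.sum_congr rfl fun g _ => ?_
        rw [← mul_assoc, ← mul_assoc, ← hYc (ug g)]
        simp only [mul_assoc]
      rw [← mul_assoc, e3, Finset.sum_mul]
      refine Finset.sum_eq_zero fun g _ => ?_
      rw [mul_assoc, hcst (ug g⁻¹), mul_assoc (ug g), ← mul_assoc (Y * x0), hx0, ← hφ1', e1,
        zero_mul, mul_zero]
    have e4 : Y * st (av (ug g1 * ell ψ w0)) = 0 := central_cancel hodd hYc e2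
    -- `av (..)` is a multiple of `st Y`
    have e5 : av (ug g1 * ell ψ w0 : RG G) = st Y * av (ug g1 * ell ψ0 w0) := by
      rw [av_apply, av_apply, Finset.mul_sum]
      refine Finset.sum_congr rfl fun g _ => ?_
      rw [hψ', ← mul_assoc (ug g1), hYc' (ug g1), mul_assoc (st Y), ← mul_assoc (ug g),
        hYc' (ug g)]
      simp only [mul_assoc]
    have e6 : st Y * (st Y * av (ug g1 * ell ψ0 w0 : RG G)) = 0 := by
      rw [← e5]
      apply st_inj
      rw [st_mul, st_st, map_zero, hYc, e4]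
    rw [← e5, e5] at e6
    have e7 := central_cancel hodd hYc' e6
    rw [← e5] at e7
    exact hg1 e7
  obtain ⟨r, v1, w1, hvw⟩ := hR
  obtain ⟨χ, hχ⟩ := exists_ell_mul (G := G) ψ (st r)
  obtain ⟨χ0, hχ0⟩ := exists_ell_mul (G := G) ψ0 (st r)
  have hχ' : ∀ v : V, (ell χ v : RG G) = st Y * ell χ0 v := by
    intro v
    rw [hχ, hψ', hχ0, mul_assoc]
  have hvw' : (ell φ1 v1 : RG G) * st (ell χ w1) ≠ 0 := by
    rw [hχ, st_mul, st_st, ← mul_assoc]
    exact hvw
  have hneχ : (ell χ w1 : RG G) ≠ 0 := by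
    intro h
    rw [h, map_zero, mul_zero] at hvw'
    exact hvw' rfl
  have hcardχ : Nat.card (Set.range fun v : V => (ell χ v : RG G)) = Nat.find hQ := by
    refine le_antisymm ?_ ?_
    · rw [← hcardψ]
      exact hle ψ (st r) χ hχ
    · have h6 := hQmin χ0 ⟨w1, by rw [← hχ']; exact hneχ⟩
      have e : (Set.range fun v : V => st Y * (ell χ0 v : RG G)) =
          Set.range fun v : V => (ell χ v : RG G) := by
        congr 1
        funext v
        exact (hχ' v).symm
      rw [e] at h6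
      exact h6
  have hcanχ : ∀ v : V, st Y * (ell χ v : RG G) = 0 → (ell χ v : RG G) = 0 := by
    intro v hv
    rw [hχ'] at hv ⊢
    exact central_cancel hodd hYc' hv
  have hYχ : ∀ v : V, Y * (ell χ v : RG G) = 0 := by
    intro v
    rw [hχ', ← mul_assoc, hYY, zero_mul]
  -- injectivity of the two multiplications
  have hinj1 : ∀ v : V, (ell φ1 v : RG G) * st (ell χ w1) = 0 → (ell φ1 v : RG G) = 0 := by
    obtain ⟨θ, hθ⟩ := exists_ell_mul (G := G) φ1 (st (ell χ w1))
    refine hinj φ1 _ θ hθ ?_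
    rw [hcard1]
    exact hmin θ ⟨v1, by rw [hθ]; exact hvw'⟩
  have hinj2 : ∀ v : V, (ell χ v : RG G) * st (ell φ1 v1) = 0 → (ell χ v : RG G) = 0 := by
    obtain ⟨θ, hθ⟩ := exists_ell_mul (G := G) χ (st (ell φ1 v1))
    obtain ⟨θ0, hθ0⟩ := exists_ell_mul (G := G) χ0 (st (ell φ1 v1))
    have hθ' : ∀ v : V, (ell θ v : RG G) = st Y * ell θ0 v := by
      intro v
      rw [hθ, hχ', hθ0, mul_assoc]
    refine hinj χ _ θ hθ ?_
    rw [hcardχ]
    have hneθ : st Y * (ell θ0 w1 : RG G) ≠ 0 := by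
      rw [← hθ', hθ]
      intro h
      apply hvw'
      apply st_inj
      rw [st_mul, st_st, map_zero, h]
    have h6 := hQmin θ0 ⟨w1, hneθ⟩
    have e : (Set.range fun v : V => st Y * (ell θ0 v : RG G)) =
        Set.range fun v : V => (ell θ v : RG G) := by
      congr 1
      funext v
      exact (hθ' v).symm
    rw [e] at h6
    exact h6
  -- surjectivity of the multiplications by `Y`, `st Y` on the images
  have hsur : ∀ (ρ : V →+ ZMod 2) (c : RG G), (∀ v : V, c * (ell ρ v : RG G) = 0 → (ell ρ v : RG G) = 0) →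
      ∀ v : V, ∃ w : V, c * (ell ρ w : RG G) = ell ρ v := by
    intro ρ c hc
    let I := Set.range fun v : V => (ell ρ v : RG G)
    have hI : Finite I := (hfin ρ).to_subtype
    let f : I → I := fun x => ⟨c * x.1, by
      obtain ⟨v, hv⟩ := x.2
      refine ⟨act c v, ?_⟩
      change (ell ρ (act c v) : RG G) = c * x.1
      rw [ell_act, ← hv]⟩
    have hf : Function.Injective f := by
      rintro ⟨_, v, rfl⟩ ⟨_, w, rfl⟩ h
      have h7 : c * (ell ρ v : RG G) = c * ell ρ w := congrArg Subtype.val h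
      apply Subtype.ext
      change (ell ρ v : RG G) = ell ρ w
      have h8 : c * (ell ρ (v + w) : RG G) = 0 := by
        rw [ell_add, mul_add, h7, rg_two]
      have h9 := hc _ h8
      rw [ell_add] at h9
      exact rg_add_eq_zero h9
    intro v
    obtain ⟨⟨_, w, rfl⟩, hw⟩ := (Finite.injective_iff_surjective.1 hf) ⟨ell ρ v, v, rfl⟩
    exact ⟨w, congrArg Subtype.val hw⟩
  -- the sum
  let κ : V →+ ZMod 2 := φ1 + χ
  have hκ : ∀ v : V, (ell κ v : RG G) = ell φ1 v + ell χ v := by
    intro v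
    refine rg_ext fun g => ?_
    rfl
  have hκ1 : ∀ v : V, ∃ w : V, (ell κ w : RG G) = ell φ1 v := by
    intro v
    obtain ⟨w, hw⟩ := hsur φ1 Y hcanY v
    refine ⟨act Y w, ?_⟩
    rw [hκ, ell_act, ell_act, hw, hYχ, add_zero]
  have hκ2 : ∀ v : V, ∃ w : V, (ell κ w : RG G) = ell χ v := by
    intro v
    obtain ⟨w, hw⟩ := hsur χ (st Y) hcanχ v
    refine ⟨act (st Y) w, ?_⟩
    rw [hκ, ell_act, ell_act, hw, hsYI, zero_add]
  have hiso1 : ∀ v w : V, (ell φ1 v : RG G) * st (ell φ1 w) = 0 := by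
    intro v w
    rw [hφ1 v, hφ1 w, st_mul, ← mul_assoc, mul_assoc (ell φ v) Y (st Y), hYY, mul_zero, zero_mul]
  have hiso2 : ∀ v w : V, (ell χ v : RG G) * st (ell χ w) = 0 := by
    intro v w
    have e1 : (st Y * ell χ0 v : RG G) * (st (ell χ0 w) * Y) =
        st Y * (Y * (ell χ0 v * st (ell χ0 w))) := by
      rw [← hYc (ell χ0 v * st (ell χ0 w))]
      simp only [mul_assoc]
    rw [hχ' v, hχ' w, st_mul, st_st, e1, ← mul_assoc, hYc (st Y), hYY, zero_mul]
  obtain ⟨v2, hv2⟩ := hκ1 v1
  obtain ⟨w2, hw2⟩ := hκ2 w1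
  have hneκ : ∃ v : V, (ell κ v : RG G) ≠ 0 := ⟨w2, by rw [hw2]; exact hneχ⟩
  obtain ⟨η, hη⟩ := eta_of_nd hinv κ hneκ (by
    intro v hv
    have hv' := fun w => mul_st_eq_zero κ _ hv w
    have a1 : (ell χ v : RG G) = 0 := by
      apply hinj2 v
      apply st_inj
      rw [st_mul, st_st, map_zero]
      have h10 := hv' v2
      rw [hv2, hκ v, map_add, mul_add, hiso1, zero_add] at h10
      exact h10
    have a2 : (ell φ1 v : RG G) = 0 := by
      apply hinj1 v
      apply st_inj
      rw [st_mul, st_st, map_zero]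
      have h10 := hv' w2
      rw [hw2, hκ v, map_add, mul_add, hiso2, add_zero] at h10
      exact h10
    rw [hκ, a1, a2, add_zero])
  exact ⟨κ, η, hη⟩

end H88OD
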