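import Pool.Agent.H26.OD.Sg
import Pool.Agent.H26.OD.A4
import Pool.Agent.H24.TD.Idx
import Pool.Agent.H24.TD.Bas

/-!
MP_78d38b_OD (helper38): the lattice lemma. `G` of odd order, `N` a finitely generated stable
subgroup without elements of order two: `N / 2 N` is self-dual in the sense of Hom counting.
-/

set_option autoImplicit false

namespace H26OD

open H24TD

/-- A dual basis up to odd torsion. -/
structure DB (N : Type) [AddCommGroup N] where
  n : ℕ
  v : Fin n → N
  b : Fin n → (N →+ ℤ)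
  bv : ∀ i j, b i (v j) = if i = j then 1 else 0
  dec : ∀ w, ∃ m : ℕ, Odd m ∧ m • (w - ∑ i, b i w • v i) = 0

theorem exists_DB (N : Type) [AddCommGroup N] [Module.Finite ℤ N]
    (h2 : ∀ x : N, x + x = 0 → x = 0) : Nonempty (DB N) := by
  classical
  have hpow : ∀ (k : ℕ) (x : N), (2 ^ k) • x = 0 → x = 0 := by
    intro k
    induction k with
    | zero => intro x hx; rwa [pow_zero, one_nsmul] at hx
    | succ k ih =>
      intro x hx
      apply ih
      apply h2
      rw [← two_nsmul, smul_smul, ← pow_succ', hx]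
  have hodd : ∀ x : N, x ∈ Submodule.torsion ℤ N → ∃ m : ℕ, Odd m ∧ m • x = 0 := by
    intro x hx
    obtain ⟨⟨a, ha⟩, hax⟩ := (Submodule.mem_torsion_iff x).1 hx
    have ha0 : a ≠ 0 := nonZeroDivisors.ne_zero ha
    have hax' : a.natAbs • x = 0 := by
      have h1 : a • x = 0 := hax
      rcases Int.natAbs_eq a with h | h
      · rw [h, natCast_zsmul] at h1
        exact h1
      · rw [h, neg_smul, natCast_zsmul, neg_eq_zero] at h1
        exact h1
    obtain ⟨k, m, hm, hk⟩ := Nat.exists_eq_two_pow_mul_odd (n := a.natAbs) (by omega)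
    refine ⟨m, hm, hpow k _ ?_⟩
    rw [smul_smul, ← hk, hax']
  have hT : Module.IsTorsionFree ℤ (N ⧸ Submodule.torsion ℤ N) := inferInstance
  let B := Module.Free.chooseBasis ℤ (N ⧸ Submodule.torsion ℤ N)
  let e := Fintype.equivFin (Module.Free.ChooseBasisIndex ℤ (N ⧸ Submodule.torsion ℤ N))
  let B' := B.reindex e
  choose v hv using fun i => Submodule.mkQ_surjective (Submodule.torsion ℤ N) (B' i)
  refine ⟨⟨_, v, fun i => ((B'.coord i).comp (Submodule.mkQ (Submodule.torsion ℤ N))).toAddMonoidHom,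
    ?_, ?_⟩⟩
  · intro i j
    change B'.coord i (Submodule.mkQ (Submodule.torsion ℤ N) (v j)) = _
    rw [hv, Module.Basis.coord_apply, Module.Basis.repr_self, Finsupp.single_apply]
    exact if_congr eq_comm rfl rfl
  · intro w
    apply hodd
    rw [← Submodule.Quotient.mk_eq_zero, Submodule.Quotient.mk_sub, sub_eq_zero]
    change Submodule.mkQ (Submodule.torsion ℤ N) w =
      Submodule.mkQ (Submodule.torsion ℤ N) (∑ i, B'.coord i (Submodule.mkQ (Submodule.torsion ℤ N) w) • v i)
    rw [map_sum]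
    conv_lhs => rw [← B'.sum_repr (Submodule.mkQ (Submodule.torsion ℤ N) w)]
    refine Finset.sum_congr rfl fun i _ => ?_
    rw [map_zsmul, hv]
    rfl

theorem DB.val {N : Type} [AddCommGroup N] (D : DB N) (φ : N →+ ℤ) (w : N) :
    φ w = ∑ i, D.b i w * φ (D.v i) := by
  obtain ⟨m, hm, h⟩ := D.dec w
  have h1 : φ (m • (w - ∑ i, D.b i w • D.v i)) = 0 := by rw [h, map_zero]
  rw [map_nsmul, map_sub, map_sum, nsmul_eq_mul] at h1
  have hm0 : (m : ℤ) ≠ 0 := by
    obtain ⟨k, hk⟩ := hm
    omega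
  have h2 := (mul_eq_zero.1 h1).resolve_left hm0
  rw [sub_eq_zero] at h2
  rw [h2]
  refine Finset.sum_congr rfl fun i _ => ?_
  rw [map_zsmul, smul_eq_mul]

theorem DB.val2 {N : Type} [AddCommGroup N] (D : DB N) (φ : N →+ ZMod 2) (w : N) :
    φ w = ∑ i, (D.b i w : ZMod 2) * φ (D.v i) := by
  obtain ⟨m, hm, h⟩ := D.dec w
  have h1 : φ (m • (w - ∑ i, D.b i w • D.v i)) = 0 := by rw [h, map_zero]
  rw [map_nsmul, map_sub, map_sum, nsmul_eq_mul, ZMod.natCast_eq_one_iff_odd.2 hm, one_mul,
    sub_eq_zero] at h1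
  rw [h1]
  refine Finset.sum_congr rfl fun i _ => ?_
  rw [map_zsmul, zsmul_eq_mul]

/-- The dual lattice. -/
def DZ (N : Type) [AddCommGroup N] : Type := N →+ ℤ

noncomputable instance (V : Type) [AddCommGroup V] : AddCommGroup (DZ V) :=
  inferInstanceAs (AddCommGroup (V →+ ℤ))

instance (V : Type) [AddCommGroup V] : FunLike (DZ V) V ℤ :=
  inferInstanceAs (FunLike (V →+ ℤ) V ℤ)

instance (V : Type) [AddCommGroup V] : AddMonoidHomClass (DZ V) V ℤ :=
  inferInstanceAs (AddMonoidHomClass (V →+ ℤ) V ℤ)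

/-- The action on the dual lattice: `(g φ) x = φ (g⁻¹ x)`. -/
noncomputable instance (G V : Type) [Group G] [AddCommGroup V] [DistribMulAction G V] :
    DistribMulAction G (DZ V) where
  smul g φ := (AddMonoidHom.comp (φ : V →+ ℤ)
    (DistribSMul.toAddMonoidHom V g⁻¹ : V →+ V) : V →+ ℤ)
  one_smul φ := by
    apply DFunLike.ext
    intro x
    change φ ((1 : G)⁻¹ • x) = φ x
    rw [inv_one, one_smul]
  mul_smul a b φ := by
    apply DFunLike.ext
    intro x
    change φ ((a * b)⁻¹ • x) = φ (b⁻¹ • (a⁻¹ • x))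
    rw [mul_inv_rev, mul_smul]
  smul_zero a := by
    apply DFunLike.ext
    intro x
    rfl
  smul_add a φ ψ := by
    apply DFunLike.ext
    intro x
    rfl

theorem DZ_smul {G V : Type} [Group G] [AddCommGroup V] [DistribMulAction G V] (g : G) (φ : DZ V)
    (x : V) : (g • φ) x = φ (g⁻¹ • x) := rfl

theorem DZ_add {V : Type} [AddCommGroup V] (φ ψ : DZ V) (x : V) : (φ + ψ) x = φ x + ψ x := rfl

theorem DZ_zsmul {V : Type} [AddCommGroup V] (n : ℤ) (φ : DZ V) (x : V) :
    (n • φ) x = n * φ x := by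
  let ev : DZ V →+ ℤ :=
    { toFun := fun φ => φ x
      map_zero' := rfl
      map_add' := fun _ _ => rfl }
  exact (map_zsmul ev n φ).trans (smul_eq_mul _ _)

section form

variable {G N : Type} [Group G] [Fintype G] [AddCommGroup N] [DistribMulAction G N] (D : DB N)

/-- The invariant positive definite form. -/
noncomputable def DB.form (G : Type) [Group G] [Fintype G] [DistribMulAction G N] : N →+ DZ N :=
  AddMonoidHom.mk' (fun x => (AddMonoidHom.mk' (fun y => ∑ g : G, ∑ i, D.b i (g • x) * D.b i (g • y))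
    (fun y y' => by
      rw [← Finset.sum_add_distrib]
      refine Finset.sum_congr rfl fun g _ => ?_
      rw [← Finset.sum_add_distrib]
      refine Finset.sum_congr rfl fun i _ => ?_
      rw [smul_add, map_add, mul_add]) : N →+ ℤ))
    (fun x x' => by
      apply DFunLike.ext
      intro y
      change ∑ g : G, ∑ i, D.b i (g • (x + x')) * D.b i (g • y) =
        ∑ g : G, ∑ i, D.b i (g • x) * D.b i (g • y) + ∑ g : G, ∑ i, D.b i (g • x') * D.b i (g • y)
      rw [← Finset.sum_add_distrib]
      refine Finset.sum_congr rfl fun g _ => ?_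
      rw [← Finset.sum_add_distrib]
      refine Finset.sum_congr rfl fun i _ => ?_
      rw [smul_add, map_add, add_mul])

theorem DB.form_apply (x y : N) :
    D.form G x y = ∑ g : G, ∑ i, D.b i (g • x) * D.b i (g • y) := rfl

theorem DB.form_smul (h : G) (x : N) : D.form G (h • x) = h • D.form G x := by
  apply DFunLike.ext
  intro y
  rw [DZ_smul, D.form_apply, D.form_apply, ← Equiv.sum_comp (Equiv.mulRight h⁻¹)]
  refine Finset.sum_congr rfl fun g _ => ?_
  refine Finset.sum_congr rfl fun i _ => ?_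
  rw [Equiv.coe_mulRight, smul_smul, smul_smul, inv_mul_cancel_right]

theorem DB.form_ker {x : N} (h : D.form G x = 0) : ∃ m : ℕ, Odd m ∧ m • x = 0 := by
  have h1 : D.form G x x = 0 := by
    rw [h]
    rfl
  rw [D.form_apply, Finset.sum_eq_zero_iff_of_nonneg (fun g _ => Finset.sum_nonneg fun i _ =>
    mul_self_nonneg _)] at h1
  have h2 := h1 1 (Finset.mem_univ _)
  rw [Finset.sum_eq_zero_iff_of_nonneg (fun i _ => mul_self_nonneg _)] at h2
  have h3 : ∀ i, D.b i x = 0 := by
    intro i
    have h4 := h2 i (Finset.mem_univ _)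
    rw [one_smul] at h4
    exact mul_self_eq_zero.1 h4
  obtain ⟨m, hm, h⟩ := D.dec x
  refine ⟨m, hm, ?_⟩
  rw [Finset.sum_eq_zero (fun i _ => by rw [h3, zero_smul]), sub_zero] at h
  exact h

theorem DB.form_index : (D.form G).range.index ≠ 0 := by
  classical
  have hfin : Module.Finite ℤ (DZ N) := by
    let e : (DZ N) →ₗ[ℤ] (Fin D.n → ℤ) :=
      { toFun := fun φ i => φ (D.v i)
        map_add' := fun φ ψ => rfl
        map_smul' := fun n φ => by
          funext i
          exact DZ_zsmul n φ _ }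
    refine Module.Finite.of_injective e ?_
    intro φ ψ h
    apply DFunLike.ext
    intro w
    have h1 : φ w = ∑ i, D.b i w * φ (D.v i) := D.val φ w
    have h2 : ψ w = ∑ i, D.b i w * ψ (D.v i) := D.val ψ w
    rw [h1, h2]
    refine Finset.sum_congr rfl fun i _ => ?_
    have h3 : φ (D.v i) = ψ (D.v i) := congrFun h i
    rw [h3]
  have htor : ∀ φ : DZ N, ∃ c : ℤ, c ≠ 0 ∧ c • φ ∈ (D.form G).range := by
    intro φ
    let w : Option (Fin D.n) → (Fin D.n → ℤ) := fun o => o.elim (fun j => φ (D.v j))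
      (fun i j => D.form G (D.v i) (D.v j))
    have hli : ¬ LinearIndependent ℤ w := by
      intro h
      have h1 := h.fintype_card_le_finrank
      rw [Fintype.card_option, Module.finrank_fin_fun, Fintype.card_fin] at h1
      omega
    rw [Fintype.not_linearIndependent_iff] at hli
    obtain ⟨c, hc, hc0⟩ := hli
    rw [Fintype.sum_option] at hc
    have hrel : ∀ j, c none * φ (D.v j) + ∑ i, c (some i) * D.form G (D.v i) (D.v j) = 0 := by
      intro j
      have h1 := congrFun hc j
      rw [Pi.add_apply, Finset.sum_apply] at h1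
      exact h1
    have hrel2 : c none • φ + D.form G (∑ i, c (some i) • D.v i) = 0 := by
      apply DFunLike.ext
      intro y
      have h1 : ∀ j, (c none • φ + D.form G (∑ i, c (some i) • D.v i)) (D.v j) = 0 := by
        intro j
        rw [DZ_add, DZ_zsmul, ← hrel j, map_sum]
        congr 1
        have h2 : ∀ (s : Finset (Fin D.n)), (∑ i ∈ s, D.form G (c (some i) • D.v i)) (D.v j) =
            ∑ i ∈ s, c (some i) * D.form G (D.v i) (D.v j) := by
          intro s
          induction s using Finset.induction_on with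
          | empty => rfl
          | insert a s ha ih =>
            rw [Finset.sum_insert ha, Finset.sum_insert ha, DZ_add, ih, map_zsmul, DZ_zsmul]
        exact h2 _
      have h3 := D.val (c none • φ + D.form G (∑ i, c (some i) • D.v i) : DZ N) y
      refine h3.trans ?_
      refine Finset.sum_eq_zero fun j _ => ?_
      have h4 := h1 j
      exact mul_eq_zero.2 (Or.inr h4)
    refine ⟨c none, ?_, ?_⟩
    · intro h0
      rw [h0, zero_smul, zero_add] at hrel2
      obtain ⟨m, hm, h⟩ := D.form_ker hrel2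
      have hm0 : (m : ℤ) ≠ 0 := by
        obtain ⟨k, hk⟩ := hm
        omega
      have h5 : ∀ j, c (some j) = 0 := by
        intro j
        have h6 : D.b j (m • ∑ i, c (some i) • D.v i) = 0 := by rw [h, map_zero]
        rw [map_nsmul, map_sum, nsmul_eq_mul, Finset.sum_eq_single j] at h6
        · rw [map_zsmul, D.bv, if_pos rfl, smul_eq_mul, mul_one] at h6
          exact (mul_eq_zero.1 h6).resolve_left hm0
        · intro i _ hi
          rw [map_zsmul, D.bv, if_neg (Ne.symm hi), smul_zero]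
        · intro h7
          exact absurd (Finset.mem_univ _) h7
      obtain ⟨o, ho⟩ := hc0
      cases o with
      | none => exact ho h0
      | some j => exact ho (h5 j)
    · refine ⟨-(∑ i, c (some i) • D.v i), ?_⟩
      rw [map_neg]
      exact neg_eq_of_add_eq_zero_left hrel2
  have hfinq : Finite (DZ N ⧸ (D.form G).range) := by
    have hfg : AddGroup.FG (DZ N) := by
      rw [← Module.Finite.iff_addGroup_fg]
      exact hfin
    have hfg2 : AddGroup.FG (DZ N ⧸ (D.form G).range) := inferInstance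
    apply AddCommGroup.finite_of_fg_isAddTorsion
    intro q
    obtain ⟨φ, rfl⟩ := QuotientAddGroup.mk_surjective q
    obtain ⟨c, hc0, hc⟩ := htor φ
    rw [isOfFinAddOrder_iff_zsmul_eq_zero]
    refine ⟨c, hc0, ?_⟩
    rw [← QuotientAddGroup.mk_zsmul]
    exact (QuotientAddGroup.eq_zero_iff _).2 hc
  exact AddSubgroup.index_ne_zero_of_finite

end form

theorem Ma_top {G X : Type} [Group G] [AddCommGroup X] [DistribMulAction G X] :
    Stab G (⊤ : AddSubgroup X) := fun _ _ _ => AddSubgroup.mem_top _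

theorem Ma_bot {G X : Type} [Group G] [AddCommGroup X] [DistribMulAction G X] :
    Stab G (⊥ : AddSubgroup X) := by
  intro g x hx
  rw [AddSubgroup.mem_bot] at hx ⊢
  rw [hx, smul_zero]

theorem Ma_dbl {G X : Type} [Group G] [AddCommGroup X] [DistribMulAction G X] {A : AddSubgroup X}
    (hA : Stab G A) : Stab G (dbl A) := by
  intro g x hx
  obtain ⟨a, ha, rfl⟩ := mem_dbl.1 hx
  exact mem_dbl.2 ⟨g • a, hA g a ha, (map_zsmul (DistribSMul.toAddMonoidHom X g) 2 a).symm⟩

/-- An element of odd order is twice an element. -/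
theorem Ma_half {N : Type} [AddCommGroup N] {x : N} {m : ℕ} (hm : Odd m) (h : m • x = 0) :
    ∃ k : ℕ, x = (2 : ℤ) • (k • x) := by
  obtain ⟨k, hk⟩ := hm
  refine ⟨k + 1, ?_⟩
  have h1 : (2 * k + 1) • x = 0 := by rw [← hk, h]
  have h2 : (2 : ℤ) • ((k + 1) • x) = (2 * k + 1) • x + x := by
    rw [two_zsmul, add_smul, add_smul, mul_smul, two_nsmul, one_nsmul]
    abel
  rw [h2, h1, zero_add]

section L1

variable {G N : Type} [Group G] [Finite G] [AddCommGroup N] [DistribMulAction G N]
  [Module.Finite ℤ N]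

/-- The reduction of the dual lattice. -/
noncomputable def Ma_red (N : Type) [AddCommGroup N] : DZ N →+ Du N where
  toFun φ := ((Int.castAddHom (ZMod 2)).comp (φ : N →+ ℤ) : N →+ ZMod 2)
  map_zero' := by
    apply DFunLike.ext
    intro x
    change (((0 : DZ N) x : ℤ) : ZMod 2) = 0
    exact Int.cast_zero
  map_add' φ ψ := by
    apply DFunLike.ext
    intro x
    change (((φ + ψ) x : ℤ) : ZMod 2) = (φ x : ZMod 2) + (ψ x : ZMod 2)
    rw [DZ_add, Int.cast_add]

omit [Module.Finite ℤ N] in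
theorem Ma_red_apply (φ : DZ N) (x : N) : Ma_red N φ x = ((φ x : ℤ) : ZMod 2) := rfl

/-- A lattice modulo two is self-dual. -/
theorem lattice_dual (hG : Odd (Nat.card G)) (h2 : ∀ x : N, x + x = 0 → x = 0) (M : Type)
    [AddCommGroup M] [Finite M] [DistribMulAction G M] :
    hq G M (⊤ : AddSubgroup N) (dbl ⊤) = hq G M (⊤ : AddSubgroup (Du N)) ⊥ := by
  classical
  have iG := Fintype.ofFinite G
  obtain ⟨D⟩ := exists_DB N h2
  have hR : Stab G (D.form G).range := by
    rintro g _ ⟨x, rfl⟩
    exact ⟨g • x, D.form_smul g x⟩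
  have e1 : hq G M (⊤ : AddSubgroup N) (dbl ⊤) = hq G M (D.form G).range (dbl (D.form G).range) := by
    refine hq_iso (D.form G) (fun g x => D.form_smul g x) Ma_top (Ma_dbl Ma_top) hR (Ma_dbl hR)
      ?_ ?_ ?_
    · rintro _ ⟨x, -, rfl⟩
      exact ⟨x, rfl⟩
    · rintro _ ⟨x, rfl⟩
      exact AddSubgroup.mem_sup_right ⟨x, AddSubgroup.mem_top _, rfl⟩
    · intro a _
      constructor
      · intro h
        obtain ⟨_, ⟨y, rfl⟩, hy⟩ := mem_dbl.1 h
        have h3 : D.form G (a - (2 : ℤ) • y) = 0 := by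
          rw [map_sub, map_zsmul, hy, sub_self]
        obtain ⟨m, hm, h4⟩ := D.form_ker h3
        obtain ⟨k, hk⟩ := Ma_half hm h4
        refine mem_dbl.2 ⟨y + k • (a - (2 : ℤ) • y), AddSubgroup.mem_top _, ?_⟩
        rw [smul_add, ← hk]
        abel
      · intro h
        obtain ⟨y, -, rfl⟩ := mem_dbl.1 h
        refine mem_dbl.2 ⟨D.form G y, ⟨y, rfl⟩, ?_⟩
        rw [map_zsmul]
  have htz : ∀ φ : DZ N, (2 : ℤ) • φ = 0 → φ = 0 := by
    intro φ h
    apply DFunLike.ext
    intro x
    have h3 : (2 : ℤ) * φ x = 0 := by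
      rw [← DZ_zsmul, h]
      rfl
    change φ x = 0
    omega
  have ht : ∀ A : AddSubgroup (DZ N), tor A = ⊥ := by
    intro A
    rw [eq_bot_iff]
    intro φ hφ
    exact htz φ (mem_tor.1 hφ).2
  have e2 := hq_index (M := M) hG hR (Ma_top (G := G) (X := DZ N)) le_top
    (by rw [AddSubgroup.relIndex_top_right]; exact D.form_index)
    (by rw [ht]; exact Set.finite_singleton _)
  rw [ht, ht, hq_self Ma_bot, mul_one, mul_one] at e2
  rw [e1, ← e2]
  refine hq_iso (Ma_red N) (fun g x => rfl) Ma_top (Ma_dbl Ma_top) Ma_top Ma_bot le_top ?_ ?_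
  · intro ψ _
    obtain ⟨φ, hφ⟩ : ∃ φ : DZ N, ∀ x, φ x = ∑ i, ((ψ (D.v i)).val : ℤ) * D.b i x := by
      refine ⟨AddMonoidHom.mk' (fun x => ∑ i, ((ψ (D.v i)).val : ℤ) * D.b i x) (fun x y => ?_),
        fun x => rfl⟩
      rw [← Finset.sum_add_distrib]
      refine Finset.sum_congr rfl fun i _ => ?_
      rw [map_add, mul_add]
    refine AddSubgroup.mem_sup_right ⟨φ, AddSubgroup.mem_top _, ?_⟩
    apply DFunLike.ext
    intro x
    have h4 : ψ x = ∑ i, (D.b i x : ZMod 2) * ψ (D.v i) := D.val2 ψ x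
    rw [Ma_red_apply, hφ, h4, Int.cast_sum]
    refine Finset.sum_congr rfl fun i _ => ?_
    rw [Int.cast_mul, Int.cast_natCast, ZMod.natCast_zmod_val, mul_comm]
  · intro φ _
    rw [AddSubgroup.mem_bot]
    constructor
    · intro h
      have h3 : ∀ x, ∃ k : ℤ, φ x = 2 * k := by
        intro x
        have h4 : ((φ x : ℤ) : ZMod 2) = 0 := by
          rw [← Ma_red_apply, h]
          rfl
        exact (ZMod.intCast_zmod_eq_zero_iff_dvd (φ x) 2).1 h4
      choose k hk using h3
      obtain ⟨ψ, hψ⟩ : ∃ ψ : DZ N, ∀ x, ψ x = k x :=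
        ⟨AddMonoidHom.mk' k (fun x y => by
          have h4 := map_add φ x y
          rw [hk, hk, hk] at h4
          omega), fun x => rfl⟩
      refine mem_dbl.2 ⟨ψ, AddSubgroup.mem_top _, ?_⟩
      apply DFunLike.ext
      intro x
      rw [DZ_zsmul, hk x, hψ]
    · intro h
      obtain ⟨ψ, -, rfl⟩ := mem_dbl.1 h
      apply DFunLike.ext
      intro x
      rw [Ma_red_apply, DZ_zsmul, Int.cast_mul]
      have h3 : (((2 : ℤ) : ℤ) : ZMod 2) = 0 := by decide
      rw [h3, zero_mul]
      rfl

end L1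

end H26OD
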