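import Pool.Agent.H38.OD.Ma
import Pool.Agent.H26.OD.A11

/-!
MP_78d38b_OD (helper38): symmetry of Hom counting, and the lattice lemma in the form
`|Hom(M, N/2)| = |Hom(M*, N/2)|`.
-/

set_option autoImplicit false

namespace H26OD

open H24TD

theorem card_coprod {R A A' B Q : Type} [Ring R] [AddCommGroup A] [Module R A] [AddCommGroup A']
    [Module R A'] [AddCommGroup B] [Module R B] [AddCommGroup Q] [Module R Q]
    (e : (A × A') ≃ₗ[R] Q) :
    Nat.card (Q →ₗ[R] B) = Nat.card (A →ₗ[R] B) * Nat.card (A' →ₗ[R] B) := by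
  rw [← Nat.card_prod, Nat.card_congr (LinearMap.coprodEquiv ℤ (R := R) (M := A) (M₂ := A')
    (M₃ := B)).toEquiv]
  refine Nat.card_congr
    { toFun := fun f => f.comp e.toLinearMap
      invFun := fun f => f.comp e.symm.toLinearMap
      left_inv := fun f => by ext x; simp
      right_inv := fun f => by
        refine LinearMap.ext fun x => ?_
        simp }

theorem hom_symm {G : Type} [Group G] [Finite G] (hodd : Odd (Nat.card G)) (n : ℕ) :
    ∀ (A B : Type) [AddCommGroup A] [Module (RG G) A] [Finite A] [AddCommGroup B]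
      [Module (RG G) B] [Finite B], Nat.card A + Nat.card B ≤ n →
      Nat.card (A →ₗ[RG G] B) = Nat.card (B →ₗ[RG G] A) := by
  have hne := A4_ne hodd
  induction n with
  | zero =>
    intro A B _ _ _ _ _ _ h
    have h1 : 0 < Nat.card A := Nat.card_pos
    omega
  | succ n ih =>
    intro A B _ _ _ _ _ _ h
    by_cases hf : ∃ f : A →ₗ[RG G] B, f ≠ 0
    · obtain ⟨f, hf⟩ := hf
      obtain ⟨C, hC⟩ := exists_isCompl (LinearMap.ker f)
      obtain ⟨D, hD⟩ := exists_isCompl (LinearMap.range f)
      let e0 : (LinearMap.range f) ≃ₗ[RG G] C :=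
        (LinearMap.quotKerEquivRange f).symm.trans
          (Submodule.quotientEquivOfIsCompl (LinearMap.ker f) C hC)
      let eA : (LinearMap.ker f × LinearMap.range f) ≃ₗ[RG G] A :=
        (LinearEquiv.prodCongr (LinearEquiv.refl _ _) e0).trans
          (Submodule.prodEquivOfIsCompl (LinearMap.ker f) C hC)
      let eB : (LinearMap.range f × D) ≃ₗ[RG G] B :=
        Submodule.prodEquivOfIsCompl (LinearMap.range f) D hD
      have cA : Nat.card (LinearMap.ker f) * Nat.card (LinearMap.range f) = Nat.card A := by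
        rw [← Nat.card_prod, Nat.card_congr eA.toEquiv]
      have cB : Nat.card (LinearMap.range f) * Nat.card D = Nat.card B := by
        rw [← Nat.card_prod, Nat.card_congr eB.toEquiv]
      have pK : 0 < Nat.card (LinearMap.ker f) := Nat.card_pos
      have pD : 0 < Nat.card D := Nat.card_pos
      have pR : 1 < Nat.card (LinearMap.range f) := by
        rw [Finite.one_lt_card_iff_nontrivial]
        exact Submodule.nontrivial_iff_ne_bot.2 fun h0 => hf (LinearMap.range_eq_bot.1 h0)
      have lK : Nat.card (LinearMap.ker f) < Nat.card A := by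
        rw [← cA]; exact lt_mul_of_one_lt_right pK pR
      have lR : Nat.card (LinearMap.range f) ≤ Nat.card A := by
        rw [← cA]; exact Nat.le_mul_of_pos_left _ pK
      have lR' : Nat.card (LinearMap.range f) ≤ Nat.card B := by
        rw [← cB]; exact Nat.le_mul_of_pos_right _ pD
      have lD : Nat.card D < Nat.card B := by
        rw [← cB]; exact lt_mul_of_one_lt_left pD pR
      rw [card_coprod eA, Sim_card_prod (M := LinearMap.ker f) eB,
        Sim_card_prod (M := LinearMap.range f) eB,
        Sim_card_prod (M := B) eA, card_coprod eB, card_coprod eB,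
        ih (LinearMap.ker f) (LinearMap.range f) (by omega), ih (LinearMap.ker f) D (by omega),
        ih (LinearMap.range f) D (by omega)]
    · push Not at hf
      have hg : ∀ g : B →ₗ[RG G] A, g = 0 := by
        intro g
        by_contra h0
        obtain ⟨f, hf0⟩ := hc_swap hodd g h0
        exact hf0 (hf f)
      have u1 : Unique (A →ₗ[RG G] B) := ⟨⟨0⟩, hf⟩
      have u2 : Unique (B →ₗ[RG G] A) := ⟨⟨0⟩, hg⟩
      rw [Nat.card_unique, Nat.card_unique]

theorem hq_eq_hom {G A B : Type} [Group G] [AddCommGroup A] [DistribMulAction G A]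
    [AddCommGroup B] [DistribMulAction G B] [Module (RG G) A] [Module (RG G) B]
    (hA : ∀ (g : G) (a : A), MonoidAlgebra.of (ZMod 2) G g • a = g • a)
    (hB : ∀ (g : G) (b : B), MonoidAlgebra.of (ZMod 2) G g • b = g • b) :
    hq G A (⊤ : AddSubgroup B) ⊥ = Nat.card (A →ₗ[RG G] B) := by
  rw [hq_std]
  refine Nat.card_congr
    { toFun := fun φ =>
        { toFun := φ.1
          map_add' := fun a b => map_add φ.1 a b
          map_smul' := fun a m => ?_ }
      invFun := fun f => ⟨f.toAddMonoidHom, fun _ => AddSubgroup.mem_top _, fun g m => ?_⟩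
      left_inv := fun f => ?_
      right_inv := fun φ => ?_ }
  · rw [RingHom.id_apply]
    induction a using rg_induction with
    | h0 => rw [zero_smul, zero_smul, map_zero]
    | hof g => rw [hA, hB, φ.2.2]
    | hadd a b ha hb => rw [add_smul, add_smul, map_add, ha, hb]
  · change f (g • m) = g • f m
    rw [← hA, map_smul, hB]
  · rfl
  · rfl

theorem Mb_of {G A : Type} [Group G] [AddCommGroup A] [DistribMulAction G A]
    [Module (ZMod 2) A] (g : G) (a : A) :
    letI : Module (RG G) A := Sim_mod G A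
    MonoidAlgebra.of (ZMod 2) G g • a = g • a := by
  change (MonoidAlgebra.lift (ZMod 2) (Module.End (ZMod 2) A) G (H24TD.Sim_rep G A))
    (MonoidAlgebra.of (ZMod 2) G g) a = g • a
  rw [MonoidAlgebra.lift_of]
  rfl

theorem hq_symm {G : Type} [Group G] [Finite G] (hodd : Odd (Nat.card G)) {A B : Type}
    [AddCommGroup A] [DistribMulAction G A] [Finite A] [AddCommGroup B] [DistribMulAction G B]
    [Finite B] (hA : ∀ a : A, a + a = 0) (hB : ∀ b : B, b + b = 0) :
    hq G A (⊤ : AddSubgroup B) ⊥ = hq G B (⊤ : AddSubgroup A) ⊥ := by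
  let i1 : Module (ZMod 2) A := AddCommGroup.zmodModule (fun x => by rw [two_nsmul]; exact hA x)
  let i2 : Module (RG G) A := H24TD.Sim_mod G A
  let j1 : Module (ZMod 2) B := AddCommGroup.zmodModule (fun x => by rw [two_nsmul]; exact hB x)
  let j2 : Module (RG G) B := H24TD.Sim_mod G B
  rw [hq_eq_hom (G := G) (A := A) (B := B) Mb_of Mb_of,
    hq_eq_hom (G := G) (A := B) (B := A) Mb_of Mb_of]
  exact hom_symm hodd _ A B le_rfl

theorem hq_flip {G M D : Type} [Group G] [AddCommGroup M] [DistribMulAction G M]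
    [AddCommGroup D] [DistribMulAction G D] :
    hq G M (⊤ : AddSubgroup (Du D)) ⊥ = hq G D (⊤ : AddSubgroup (Du M)) ⊥ := by
  have key : ∀ (M D : Type) [AddCommGroup M] [DistribMulAction G M]
      [AddCommGroup D] [DistribMulAction G D] (f : M →+ Du D),
      (∀ (g : G) m, f (g • m) = g • f m) →
      ∃ f' : D →+ Du M, (∀ d m, f' d m = f m d) ∧ ∀ (g : G) d, f' (g • d) = g • f' d := by
    intro M D _ _ _ _ f hf
    refine ⟨AddMonoidHom.mk' (fun d => (AddMonoidHom.mk' (fun m => f m d) (fun a b => by
      rw [map_add]; rfl) : M →+ ZMod 2)) (fun a b => ?_), fun _ _ => rfl, fun g d => ?_⟩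
    · apply DFunLike.ext
      intro m
      exact map_add (f m) a b
    · apply DFunLike.ext
      intro m
      change f m (g • d) = f (g⁻¹ • m) d
      rw [hf, Du_smul, inv_inv]
  rw [hq_std, hq_std]
  choose F hF1 hF2 using key M D
  choose F' hF1' hF2' using key D M
  refine Nat.card_congr
    { toFun := fun f => ⟨F f.1 f.2.2, fun _ => AddSubgroup.mem_top _, hF2 _ _⟩
      invFun := fun f => ⟨F' f.1 f.2.2, fun _ => AddSubgroup.mem_top _, hF2' _ _⟩
      left_inv := fun f => ?_
      right_inv := fun f => ?_ }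
  · apply Subtype.ext
    apply DFunLike.ext
    intro m
    apply DFunLike.ext
    intro d
    change F' (F f.1 f.2.2) _ m d = f.1 m d
    rw [hF1', hF1]
  · apply Subtype.ext
    apply DFunLike.ext
    intro d
    apply DFunLike.ext
    intro m
    change F (F' f.1 f.2.2) _ d m = f.1 d m
    rw [hF1, hF1']

/-- The evaluation. -/
noncomputable def Mb_ev (N : Type) [AddCommGroup N] : N →+ Du (Du N) :=
  AddMonoidHom.mk' (fun x => (AddMonoidHom.mk' (fun φ : Du N => φ x) (fun _ _ => rfl) :
    Du N →+ ZMod 2)) (fun a b => by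
      apply DFunLike.ext
      intro φ
      exact map_add φ a b)

theorem Mb_ev_apply {N : Type} [AddCommGroup N] (x : N) (φ : Du N) : Mb_ev N x φ = φ x := rfl

theorem Mb_ev_smul {G N : Type} [Group G] [AddCommGroup N] [DistribMulAction G N] (g : G) (x : N) :
    Mb_ev N (g • x) = g • Mb_ev N x := by
  apply DFunLike.ext
  intro φ
  rw [Du_smul, Mb_ev_apply, Mb_ev_apply, Du_smul, inv_inv]

/-- The bidual of a lattice modulo two. -/
theorem lattice_bidual {G N : Type} [Group G] [AddCommGroup N] [DistribMulAction G N]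
    [Module.Finite ℤ N] (h2 : ∀ x : N, x + x = 0 → x = 0) (M : Type)
    [AddCommGroup M] [DistribMulAction G M] :
    hq G M (⊤ : AddSubgroup N) (dbl ⊤) = hq G M (⊤ : AddSubgroup (Du (Du N))) ⊥ := by
  classical
  obtain ⟨D⟩ := exists_DB N h2
  obtain ⟨β, hβ⟩ : ∃ β : Fin D.n → Du N, ∀ i x, β i x = ((D.b i x : ℤ) : ZMod 2) :=
    ⟨fun i => ((Int.castAddHom (ZMod 2)).comp (D.b i) : N →+ ZMod 2), fun _ _ => rfl⟩
  refine hq_iso (Mb_ev N) Mb_ev_smul Ma_top (Ma_dbl Ma_top) Ma_top Ma_bot le_top ?_ ?_
  · intro Φ _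
    refine AddSubgroup.mem_sup_right ⟨∑ i, (Φ (β i)).val • D.v i, AddSubgroup.mem_top _, ?_⟩
    apply DFunLike.ext
    intro ψ
    have h1 : ψ = ∑ i, (ψ (D.v i)).val • β i := by
      apply DFunLike.ext
      intro x
      have h3 : ∀ s : Finset (Fin D.n), (∑ i ∈ s, (ψ (D.v i)).val • β i) x =
          ∑ i ∈ s, (D.b i x : ZMod 2) * ψ (D.v i) := by
        intro s
        induction s using Finset.induction_on with
        | empty => rfl
        | insert a s ha ih =>
          rw [Finset.sum_insert ha, Finset.sum_insert ha, ← ih]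
          change ((ψ (D.v a)).val • β a) x + _ = _
          congr 1
          have h4 : ((ψ (D.v a)).val • β a) x = (ψ (D.v a)).val • (β a x) := by
            have := map_nsmul (Mb_ev N x) (ψ (D.v a)).val (β a)
            exact this
          rw [h4, nsmul_eq_mul, ZMod.natCast_zmod_val, hβ, mul_comm]
      rw [h3]
      exact D.val2 ψ x
    conv_rhs => rw [h1]
    rw [Mb_ev_apply, map_sum, map_sum]
    refine Finset.sum_congr rfl fun i _ => ?_
    rw [map_nsmul, map_nsmul, nsmul_eq_mul, nsmul_eq_mul, ZMod.natCast_zmod_val,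
      ZMod.natCast_zmod_val, mul_comm]
  · intro x _
    rw [AddSubgroup.mem_bot]
    constructor
    · intro h
      have h3 : ∀ i, ∃ k : ℤ, D.b i x = 2 * k := by
        intro i
        have h4 : ((D.b i x : ℤ) : ZMod 2) = 0 := by
          rw [← hβ, ← Mb_ev_apply, h]
          rfl
        exact (ZMod.intCast_zmod_eq_zero_iff_dvd (D.b i x) 2).1 h4
      choose k hk using h3
      obtain ⟨m, hm, h5⟩ := D.dec x
      obtain ⟨j, hj⟩ := Ma_half hm h5
      refine mem_dbl.2 ⟨∑ i, k i • D.v i + j • (x - ∑ i, D.b i x • D.v i),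
        AddSubgroup.mem_top _, ?_⟩
      rw [smul_add, ← hj, Finset.smul_sum]
      have h6 : ∑ i, (2 : ℤ) • k i • D.v i = ∑ i, D.b i x • D.v i := by
        refine Finset.sum_congr rfl fun i _ => ?_
        rw [smul_smul, hk]
      rw [h6]
      abel
    · intro h
      obtain ⟨y, -, rfl⟩ := mem_dbl.1 h
      apply DFunLike.ext
      intro φ
      change φ ((2 : ℤ) • y) = 0
      rw [map_zsmul, zsmul_eq_mul]
      have h3 : (((2 : ℤ) : ℤ) : ZMod 2) = 0 := by decide
      rw [h3, zero_mul]

/-- The bidual of a finite group. -/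
theorem hq_bidual {G N M : Type} [Group G] [Finite G] [AddCommGroup M] [DistribMulAction G M]
    [Finite M] (hM : ∀ m : M, m + m = 0) [AddCommGroup N] [DistribMulAction G N] :
    hq G N (⊤ : AddSubgroup (Du (Du M))) ⊥ = hq G N (⊤ : AddSubgroup M) ⊥ := by
  let i1 : Module (ZMod 2) M := AddCommGroup.zmodModule (fun x => by rw [two_nsmul]; exact hM x)
  let i2 : Module (RG G) M := H24TD.Sim_mod G M
  have hinj : Function.Injective (Mb_ev M) := by
    rw [injective_iff_map_eq_zero]
    intro x hx
    exact A4_sep (G := G) x fun φ => DFunLike.congr_fun hx φ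
  have h1 : Nat.card (Du M) = Nat.card M := card_du (G := G)
  let j2 : Module (RG G) (Du M) := (inferInstance : Module (RG G) (DuR M))
  have h3 : Nat.card (Du (Du M)) = Nat.card (Du M) := card_du (G := G) (M := Du M)
  have hbij : Function.Bijective (Mb_ev M) := by
    rw [Nat.bijective_iff_injective_and_card]
    exact ⟨hinj, by rw [h3, h1]⟩
  symm
  refine hq_iso (Mb_ev M) Mb_ev_smul Ma_top Ma_bot Ma_top Ma_bot le_top ?_ ?_
  · intro Φ _
    obtain ⟨x, rfl⟩ := hbij.2 Φ
    exact AddSubgroup.mem_sup_right ⟨x, AddSubgroup.mem_top _, rfl⟩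
  · intro x _
    rw [AddSubgroup.mem_bot, AddSubgroup.mem_bot]
    constructor
    · intro h
      exact hinj (by rw [h, map_zero])
    · intro h
      rw [h, map_zero]

/-- A lattice modulo two contains `M` and `M*` equally often. -/
theorem lattice_symm {G N : Type} [Group G] [Finite G] [AddCommGroup N] [DistribMulAction G N]
    [Module.Finite ℤ N] (hG : Odd (Nat.card G)) (h2 : ∀ x : N, x + x = 0 → x = 0) (M : Type)
    [AddCommGroup M] [Finite M] [DistribMulAction G M] (hM : ∀ m : M, m + m = 0) :
    hq G M (⊤ : AddSubgroup N) (dbl ⊤) = hq G (Du M) (⊤ : AddSubgroup N) (dbl ⊤) := by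
  obtain ⟨D⟩ := exists_DB N h2
  have hfin : Finite (Du N) := by
    refine Finite.of_injective (fun φ : Du N => fun i => φ (D.v i)) ?_
    intro φ ψ h
    apply DFunLike.ext
    intro w
    have h1 : φ w = ∑ i, (D.b i w : ZMod 2) * φ (D.v i) := D.val2 φ w
    have h2 : ψ w = ∑ i, (D.b i w : ZMod 2) * ψ (D.v i) := D.val2 ψ w
    rw [h1, h2]
    refine Finset.sum_congr rfl fun i _ => ?_
    have h3 : φ (D.v i) = ψ (D.v i) := congrFun h i
    rw [h3]
  have hD : ∀ φ : Du N, φ + φ = 0 := by
    intro φ
    apply DFunLike.ext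
    intro x
    change φ x + φ x = 0
    have : ∀ a : ZMod 2, a + a = 0 := by decide
    exact this _
  rw [lattice_bidual (G := G) h2 (Du M), hq_flip, hq_bidual hM, lattice_dual hG h2 M]
  exact hq_symm hG hM hD

/-- The same for a stable subgroup. -/
theorem lattice_sub {G X : Type} [Group G] [Finite G] [AddCommGroup X] [DistribMulAction G X]
    (hG : Odd (Nat.card G)) {N : AddSubgroup X} (hN : Stab G N) (hfg : N.FG)
    (h2 : ∀ x ∈ N, x + x = 0 → x = 0) (M : Type) [AddCommGroup M] [Finite M]
    [DistribMulAction G M] (hM : ∀ m : M, m + m = 0) :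
    hq G M N (dbl N) = hq G (Du M) N (dbl N) := by
  let act : DistribMulAction G N :=
    { smul := fun g x => ⟨g • (x : X), hN g x x.2⟩
      one_smul := fun x => Subtype.ext (one_smul G (x : X))
      mul_smul := fun g h x => Subtype.ext (mul_smul g h (x : X))
      smul_zero := fun g => Subtype.ext (smul_zero g)
      smul_add := fun g x y => Subtype.ext (smul_add g (x : X) (y : X)) }
  have hfin : Module.Finite ℤ N := by
    rw [Module.Finite.iff_addGroup_fg]
    exact (AddGroup.fg_iff_addSubgroup_fg N).2 hfg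
  have key : ∀ (M : Type) [AddCommGroup M] [DistribMulAction G M],
      hq G M (⊤ : AddSubgroup N) (dbl ⊤) = hq G M N (dbl N) := by
    intro M _ _
    refine hq_iso N.subtype (fun g x => rfl) Ma_top (Ma_dbl Ma_top) hN (Ma_dbl hN) ?_ ?_ ?_
    · rintro _ ⟨x, -, rfl⟩
      exact x.2
    · intro x hx
      exact AddSubgroup.mem_sup_right ⟨⟨x, hx⟩, AddSubgroup.mem_top _, rfl⟩
    · intro a _
      constructor
      · intro h
        obtain ⟨y, hy, h3⟩ := mem_dbl.1 h
        exact mem_dbl.2 ⟨⟨y, hy⟩, AddSubgroup.mem_top _, Subtype.ext h3⟩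
      · intro h
        obtain ⟨y, -, h3⟩ := mem_dbl.1 h
        exact mem_dbl.2 ⟨y, y.2, congrArg Subtype.val h3⟩
  rw [← key M, ← key (Du M)]
  exact lattice_symm hG (fun x hx => Subtype.ext (h2 x x.2 (congrArg Subtype.val hx))) M hM

end H26OD
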