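import Pool.Agent.H38.OD.Mb
import Pool.Agent.H88.OD.Ga
import Pool.Agent.H30.ZO.Ga

/-!
MP_78d38b_OD (helper38): the square classes of square norm of the `S`-units of `L` form a
self-dual module of `G` (the norm one `S`-units form a lattice without two-torsion).
-/

set_option autoImplicit false
set_option linter.unusedSectionVars false
open scoped Classical

open WithZero NumberField IsDedekindDomain H38RT
open H38T1 (SC sc scu rep eo la si OddP)
open H76PP
open H24TD (SUa US cls hq hq_iso Stab dbl mem_dbl smul_val cls_smul cls_eq)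

namespace H88OD

variable {K F L : Type} [Field K] [NumberField K] [Field F] [NumberField F] [Field L]
  [NumberField L] [Algebra K F] [Algebra F L] {a b : K} {θ : L}

/-- The places of `L` above the set `Sg` of primes of `K`. -/
def ab (K F L : Type) [Field K] [NumberField K] [Field F] [NumberField F] [Field L]
    [NumberField L] [Algebra K F] [Algebra F L] (Sg : Finset (HeightOneSpectrum (𝓞 K))) :
    Set (HeightOneSpectrum (𝓞 L)) := {w | dn K (dn F w) ∈ Sg}

/-- The classes of `S`-units of square norm. -/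
noncomputable def UH (K F L : Type) [Field K] [NumberField K] [Field F] [NumberField F] [Field L]
    [NumberField L] [Algebra K F] [Algebra F L] (Sg : Finset (HeightOneSpectrum (𝓞 K))) :
    AddSubgroup (SC L) := US L (ab K F L Sg) ⊓ H30ZO.HH F L

theorem ab_fin (Sg : Finset (HeightOneSpectrum (𝓞 K))) : (ab K F L Sg).Finite := by
  have h1 : ab K F L Sg = ⋃ v ∈ Sg, ⋃ u ∈ {u : HeightOneSpectrum (𝓞 F) | dn K u = v},
      {w : HeightOneSpectrum (𝓞 L) | dn F w = u} := by
    ext w
    simp only [Set.mem_iUnion, Set.mem_ofPred_eq, ab]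
    constructor
    · intro hw
      exact ⟨dn K (dn F w), hw, dn F w, rfl, rfl⟩
    · rintro ⟨v, hv, u, hu, hw⟩
      rw [hw, hu]
      exact hv
  rw [h1]
  exact Sg.finite_toSet.biUnion fun v _ => (fin_above v).biUnion fun u _ => fin_above u

/-- The `S`-units of norm one. -/
noncomputable def N1 (K F L : Type) [Field K] [NumberField K] [Field F] [NumberField F] [Field L]
    [NumberField L] [Algebra K F] [Algebra F L] (Sg : Finset (HeightOneSpectrum (𝓞 K))) :
    AddSubgroup (Additive Lˣ) :=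
  SUa L (ab K F L Sg) ⊓
    (MonoidHom.toAdditive (Units.map (Algebra.norm F : L →* F)) : Additive Lˣ →+ Additive Fˣ).ker

theorem mem_N1 {Sg : Finset (HeightOneSpectrum (𝓞 K))} {u : Additive Lˣ} :
    u ∈ N1 K F L Sg ↔ u ∈ SUa L (ab K F L Sg) ∧
      Algebra.norm F ((Additive.toMul u : Lˣ) : L) = 1 := by
  rw [N1, AddSubgroup.mem_inf, AddMonoidHom.mem_ker]
  refine and_congr Iff.rfl ?_
  constructor
  · intro h
    exact congrArg (fun z : Additive Fˣ => ((Additive.toMul z : Fˣ) : F)) h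
  · intro h
    apply Additive.toMul.injective
    apply Units.ext
    exact h

theorem N1_fg (Sg : Finset (HeightOneSpectrum (𝓞 K))) : (N1 K F L Sg).FG := by
  obtain ⟨h1, -⟩ := H24TD.RkU_A (K := L) (ab_fin (K := K) (F := F) Sg)
  have hle : N1 K F L Sg ≤ SUa L (ab K F L Sg) := inf_le_left
  have h2 : Module.Finite ℤ ↥(N1 K F L Sg) := by
    refine Module.Finite.of_injective
      ((AddSubgroup.inclusion hle).toIntLinearMap : ↥(N1 K F L Sg) →ₗ[ℤ] ↥(SUa L (ab K F L Sg))) ?_
    exact AddSubgroup.inclusion_injective hle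
  rw [Module.Finite.iff_addGroup_fg] at h2
  exact (AddGroup.fg_iff_addSubgroup_fg _).1 h2

theorem N1_tor (S : Ext K F L a b θ) (Sg : Finset (HeightOneSpectrum (𝓞 K))) :
    ∀ u ∈ N1 K F L Sg, u + u = 0 → u = 0 := by
  intro u hu h
  rw [mem_N1] at hu
  have h1 : ((Additive.toMul u : Lˣ) : L) * ((Additive.toMul u : Lˣ) : L) = 1 :=
    congrArg (fun z : Additive Lˣ => ((Additive.toMul z : Lˣ) : L)) h
  rcases mul_self_eq_one_iff.1 h1 with h2 | h2
  · apply Additive.toMul.injective
    apply Units.ext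
    exact h2
  · exfalso
    have h3 := hu.2
    have h4 : (-1 : L) = algebraMap F L (-1) := by rw [map_neg, map_one]
    rw [h2, h4, Algebra.norm_algebraMap, S.cub.finrank] at h3
    have h5 : (-1 : F) ^ 3 = -1 := by norm_num
    rw [h5] at h3
    have h6 : (2 : F) = 0 := by linear_combination -h3
    exact two_ne_zero h6

theorem ab_smul (S : Ext K F L a b θ) (Sg : Finset (HeightOneSpectrum (𝓞 K))) (g : F ≃ₐ[K] F)
    (w : HeightOneSpectrum (𝓞 L)) : S.ρ g • w ∈ ab K F L Sg ↔ w ∈ ab K F L Sg := by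
  unfold ab
  rw [Set.mem_ofPred_eq, Set.mem_ofPred_eq, dn_smul, dn_gq]

theorem SUa_smul (S : Ext K F L a b θ) (Sg : Finset (HeightOneSpectrum (𝓞 K))) (g : F ≃ₐ[K] F)
    {u : Additive Lˣ} (hu : u ∈ SUa L (ab K F L Sg)) : S.ρ g • u ∈ SUa L (ab K F L Sg) := by
  intro w hw
  have h1 : S.ρ g⁻¹ • w ∉ ab K F L Sg := fun h => hw ((ab_smul S Sg g⁻¹ w).1 h)
  have h2 := hu _ h1
  have h3 := H38T1.val_smul (S.ρ g) (S.ρ g⁻¹ • w) ((Additive.toMul u : Lˣ) : L)
  rw [ρ_inv, smul_inv_smul] at h3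
  rw [smul_val, h3, ← ρ_inv]
  exact h2

theorem N1_smul (S : Ext K F L a b θ) (Sg : Finset (HeightOneSpectrum (𝓞 K))) (g : F ≃ₐ[K] F)
    {u : Additive Lˣ} (hu : u ∈ N1 K F L Sg) : S.ρ g • u ∈ N1 K F L Sg := by
  rw [mem_N1] at hu ⊢
  refine ⟨SUa_smul S Sg g hu.1, ?_⟩
  rw [smul_val, norm_ρ, hu.2, map_one]

theorem UH_smul (S : Ext K F L a b θ) (Sg : Finset (HeightOneSpectrum (𝓞 K))) (g : F ≃ₐ[K] F)
    {c : SC L} (hc : c ∈ UH K F L Sg) : S.ρ g • c ∈ UH K F L Sg := by
  obtain ⟨⟨u, hu, rfl⟩, h2⟩ := hc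
  refine ⟨⟨S.ρ g • u, SUa_smul S Sg g hu, ?_⟩, HH_smul S g h2⟩
  exact cls_smul (S.ρ g) u

/-- The norm of a `S`-unit. -/
theorem norm_val (Sg : Finset (HeightOneSpectrum (𝓞 K))) {u : Additive Lˣ}
    (hu : u ∈ SUa L (ab K F L Sg)) (v : HeightOneSpectrum (𝓞 F)) (hv : dn K v ∉ Sg) :
    v.valuation F (Algebra.norm F ((Additive.toMul u : Lˣ) : L)) = 1 := by
  have _ : FiniteDimensional F L := Module.Finite.of_restrictScalars_finite ℚ F L
  have hne : ((Additive.toMul u : Lˣ) : L) ≠ 0 := Units.ne_zero _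
  have h1 := ord_norm (K := F) v hne
  have h2 : ∑ᶠ w : {w : HeightOneSpectrum (𝓞 L) // dn F w = v},
      (w.1.asIdeal.inertiaDeg (𝓞 F) : ℤ) * ord (w.1.valuation L) ((Additive.toMul u : Lˣ) : L) =
      0 := by
    rw [← finsum_zero (α := {w : HeightOneSpectrum (𝓞 L) // dn F w = v}) (M := ℤ)]
    refine finsum_congr fun w => ?_
    have h3 : w.1.valuation L ((Additive.toMul u : Lˣ) : L) = 1 := by
      refine hu w.1 fun h4 => hv ?_
      have h5 : dn K (dn F w.1) ∈ Sg := h4
      rw [w.2] at h5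
      exact h5
    rw [ord, h3, log_one, neg_zero, mul_zero]
  rw [h2] at h1
  have h6 : Algebra.norm F ((Additive.toMul u : Lˣ) : L) ≠ 0 := Algebra.norm_ne_zero_iff.2 hne
  have h7 : v.valuation F (Algebra.norm F ((Additive.toMul u : Lˣ) : L)) ≠ 0 :=
    (Valuation.ne_zero_iff _).2 h6
  rw [ord] at h1
  rw [← exp_log h7, ← exp_zero, exp_inj]
  omega

/-- Classes of square norm come from norm one elements. -/
theorem UH_eq (S : Ext K F L a b θ) (Sg : Finset (HeightOneSpectrum (𝓞 K))) :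
    (N1 K F L Sg).map (cls L) = UH K F L Sg := by
  apply le_antisymm
  · rintro _ ⟨u, hu, rfl⟩
    have hu' := mem_N1.1 hu
    refine ⟨⟨u, hu'.1, rfl⟩, ?_⟩
    change cls L u ∈ H30ZO.HH F L
    rw [cls_eq, H30ZO.mem_HH (Units.ne_zero _), hu'.2]
    exact IsSquare.one
  · rintro _ ⟨⟨u, hu, rfl⟩, h2⟩
    have h2' : cls L u ∈ H30ZO.HH F L := h2
    rw [cls_eq, H30ZO.mem_HH (Units.ne_zero _)] at h2'
    obtain ⟨s, hs⟩ := h2'
    have hne : ((Additive.toMul u : Lˣ) : L) ≠ 0 := Units.ne_zero _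
    have _ : FiniteDimensional F L := Module.Finite.of_restrictScalars_finite ℚ F L
    have hN : Algebra.norm F ((Additive.toMul u : Lˣ) : L) ≠ 0 := Algebra.norm_ne_zero_iff.2 hne
    have hs0 : s ≠ 0 := by
      rintro rfl
      rw [mul_zero] at hs
      exact hN hs
    have hs1 : algebraMap F L s ≠ 0 := (map_ne_zero _).2 hs0
    -- the unit `s`
    obtain ⟨t, ht⟩ : ∃ t : Additive Lˣ, ((Additive.toMul t : Lˣ) : L) = algebraMap F L s :=
      ⟨Additive.ofMul (Units.mk0 _ hs1), rfl⟩
    have htS : t ∈ SUa L (ab K F L Sg) := by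
      intro w hw
      rw [ht]
      apply val_one
      have h3 := norm_val Sg hu (dn F w) hw
      rw [hs, map_mul] at h3
      have h4 : ∀ x : WithZero (Multiplicative ℤ), x * x = 1 → x = 1 := by
        intro x hx
        have hx0 : x ≠ 0 := by
          rintro rfl
          rw [mul_zero] at hx
          exact zero_ne_one hx
        have h5 : log (x * x) = 0 := by rw [hx, log_one]
        rw [log_mul hx0 hx0] at h5
        rw [← exp_log hx0, ← exp_zero, exp_inj]
        omega
      exact h4 _ h3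
    refine ⟨(u + u + u) - (t + t), ?_, ?_⟩
    · change (u + u + u) - (t + t) ∈ N1 K F L Sg
      rw [mem_N1]
      constructor
      · exact sub_mem (add_mem (add_mem hu hu) hu) (add_mem htS htS)
      · change Algebra.norm F ((((Additive.toMul u : Lˣ) * (Additive.toMul u : Lˣ) *
          (Additive.toMul u : Lˣ)) / ((Additive.toMul t : Lˣ) * (Additive.toMul t : Lˣ)) : Lˣ) : L)
          = 1
        rw [Units.val_div_eq_div_val, Units.val_mul, Units.val_mul, Units.val_mul, ht]
        have h6 : ((Additive.toMul u : Lˣ) : L) * ((Additive.toMul u : Lˣ) : L) *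
            ((Additive.toMul u : Lˣ) : L) / (algebraMap F L s * algebraMap F L s) *
              (algebraMap F L s * algebraMap F L s) = ((Additive.toMul u : Lˣ) : L) *
              ((Additive.toMul u : Lˣ) : L) * ((Additive.toMul u : Lˣ) : L) :=
          div_mul_cancel₀ _ (mul_ne_zero hs1 hs1)
        have h7 := congrArg (Algebra.norm F) h6
        rw [map_mul, map_mul, map_mul, map_mul, Algebra.norm_algebraMap, S.cub.finrank, hs] at h7
        have h8 : s ^ 3 * s ^ 3 ≠ 0 := mul_ne_zero (pow_ne_zero 3 hs0) (pow_ne_zero 3 hs0)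
        apply mul_right_cancel₀ h8
        rw [h7]
        ring
    · rw [map_sub, map_add, map_add, map_add]
      have h5 : ∀ c : SC L, c + c = 0 := fun c => by
        rw [← two_nsmul]
        exact H38T1.SC.two_smul c
      rw [h5, h5, zero_add, sub_zero]

/-- Squares of norm one are twice an element of norm one. -/
theorem N1_cls (S : Ext K F L a b θ) (Sg : Finset (HeightOneSpectrum (𝓞 K))) {u : Additive Lˣ}
    (hu : u ∈ N1 K F L Sg) : cls L u = 0 ↔ u ∈ dbl (N1 K F L Sg) := by
  constructor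
  · intro h
    have hu' := mem_N1.1 hu
    rw [cls_eq, H38T1.sc_eq_zero (Units.ne_zero _)] at h
    obtain ⟨s, hs⟩ := h
    have hs0 : s ≠ 0 := by
      rintro rfl
      rw [mul_zero] at hs
      exact Units.ne_zero _ hs
    have h1 : Algebra.norm F s * Algebra.norm F s = 1 := by
      rw [← map_mul, ← hs]
      exact hu'.2
    have hval : ∀ w : HeightOneSpectrum (𝓞 L), w ∉ ab K F L Sg → w.valuation L s = 1 := by
      intro w hw
      have h3 := hu'.1 w hw
      rw [hs, map_mul] at h3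
      have hx0 : w.valuation L s ≠ 0 := (Valuation.ne_zero_iff _).2 hs0
      have h5 : log (w.valuation L s * w.valuation L s) = 0 := by rw [h3, log_one]
      rw [log_mul hx0 hx0] at h5
      rw [← exp_log hx0, ← exp_zero, exp_inj]
      omega
    have key : ∀ r : L, r ≠ 0 → r * r = s * s → (∀ w : HeightOneSpectrum (𝓞 L),
        w ∉ ab K F L Sg → w.valuation L r = 1) → Algebra.norm F r = 1 → u ∈ dbl (N1 K F L Sg) := by
      intro r hr0 hrs hrv hrn
      refine mem_dbl.2 ⟨Additive.ofMul (Units.mk0 r hr0), mem_N1.2 ⟨fun w hw => hrv w hw, hrn⟩, ?_⟩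
      apply Additive.toMul.injective
      apply Units.ext
      change ((Additive.toMul ((2 : ℤ) • Additive.ofMul (Units.mk0 r hr0)) : Lˣ) : L) = _
      rw [two_zsmul]
      change r * r = _
      rw [hrs, hs]
    rcases mul_self_eq_one_iff.1 h1 with h2 | h2
    · exact key s hs0 rfl hval h2
    · refine key (-s) (neg_ne_zero.2 hs0) (by ring) (fun w hw => ?_) ?_
      · rw [Valuation.map_neg]
        exact hval w hw
      · have h4 : -s = algebraMap F L (-1) * s := by rw [map_neg, map_one, neg_one_mul]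
        rw [h4, map_mul, Algebra.norm_algebraMap, S.cub.finrank, h2]
        norm_num
  · intro h
    obtain ⟨y, -, rfl⟩ := mem_dbl.1 h
    rw [map_zsmul, two_zsmul, ← two_nsmul]
    exact H38T1.SC.two_smul _

/-- The global part of the self-duality. -/
theorem UH_sd (S : Ext K F L a b θ) (Sg : Finset (HeightOneSpectrum (𝓞 K)))
    [DistribMulAction (F ≃ₐ[K] F) (SC L)]
    (hact : ∀ (g : F ≃ₐ[K] F) (c : SC L), g • c = S.ρ g • c) (hG : Odd (Nat.card (F ≃ₐ[K] F)))
    (M : Type) [AddCommGroup M] [Finite M] [DistribMulAction (F ≃ₐ[K] F) M]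
    (hM : ∀ m : M, m + m = 0) :
    hq (F ≃ₐ[K] F) M (UH K F L Sg) ⊥ = hq (F ≃ₐ[K] F) (H26OD.Du M) (UH K F L Sg) ⊥ := by
  let act : DistribMulAction (F ≃ₐ[K] F) (Additive Lˣ) :=
    DistribMulAction.compHom (Additive Lˣ) S.ρ
  have hst : Stab (F ≃ₐ[K] F) (N1 K F L Sg) := fun g u hu => N1_smul S Sg g hu
  have hUst : Stab (F ≃ₐ[K] F) (UH K F L Sg) := fun g u hu => by
    rw [hact]
    exact UH_smul S Sg g hu
  have key : ∀ (M : Type) [AddCommGroup M] [DistribMulAction (F ≃ₐ[K] F) M],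
      hq (F ≃ₐ[K] F) M (N1 K F L Sg) (dbl (N1 K F L Sg)) = hq (F ≃ₐ[K] F) M (UH K F L Sg) ⊥ := by
    intro M _ _
    refine hq_iso (cls L) (fun g x => ?_) hst (H26OD.Ma_dbl hst) hUst H26OD.Ma_bot ?_ ?_ ?_
    · rw [hact]
      exact cls_smul (S.ρ g) x
    · rw [UH_eq S]
    · rw [UH_eq S]
      exact le_sup_right
    · intro u hu
      rw [AddSubgroup.mem_bot]
      exact N1_cls S Sg hu
  rw [← key M, ← key (H26OD.Du M)]
  exact H26OD.lattice_sub hG hst (N1_fg Sg) (N1_tor S Sg) M hM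

end H88OD
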