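import Pool.Agent.H38.OD.Mc
import Pool.Agent.H30.OD.Card2

/-!
MP_78d38b_OD (helper38): self-duality of the relaxed Selmer group from that of the local part.
-/

set_option autoImplicit false
set_option linter.unusedSectionVars false

open H24TD

namespace H26OD

theorem Md_card {X : Type} [AddCommGroup X] {U H W : AddSubgroup X} (hUH : U ≤ H) (hWH : W ≤ H)
    [Finite U] {N : ℕ} (hrel : W.relIndex H ≠ 0) (hcard : N * W.relIndex H ≤ Nat.card U)
    (hY : Nat.card ↥(U ⊓ W) ≤ N) : Nat.card ↥(U ⊓ W) = N ∧ H ≤ W ⊔ U := by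
  have hfin : Finite ↥(U ⊓ W) := Finite.of_injective (AddSubgroup.inclusion
    (inf_le_left : U ⊓ W ≤ U)) (AddSubgroup.inclusion_injective _)
  have hpos : 0 < Nat.card ↥(U ⊓ W) := Nat.card_pos
  have hN : 0 < N := lt_of_lt_of_le hpos hY
  have e1 : Nat.card ↥(U ⊓ W) * W.relIndex U = Nat.card U := by
    have h1 := AddSubgroup.relIndex_mul_relIndex (⊥ : AddSubgroup X) (U ⊓ W) U bot_le inf_le_left
    rw [AddSubgroup.relIndex_bot_left, AddSubgroup.relIndex_bot_left, AddSubgroup.inf_relIndex_left]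
      at h1
    exact h1
  have e2 : W.relIndex (U ⊔ W) = W.relIndex U := AddSubgroup.relIndex_sup_right U W
  have e3 := AddSubgroup.relIndex_mul_relIndex W (U ⊔ W) H le_sup_right (sup_le hUH hWH)
  rw [e2] at e3
  have h3 : (U ⊔ W).relIndex H ≠ 0 := by
    intro h0
    rw [h0, mul_zero] at e3
    exact hrel e3.symm
  have h4 : W.relIndex U ≠ 0 := by
    intro h0
    rw [h0, zero_mul] at e3
    exact hrel e3.symm
  have h5 : N * (W.relIndex U * (U ⊔ W).relIndex H) ≤ N * W.relIndex U := by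
    rw [e3]
    refine hcard.trans ?_
    rw [← e1]
    exact Nat.mul_le_mul_right _ hY
  have h6 : W.relIndex U * (U ⊔ W).relIndex H ≤ W.relIndex U := Nat.le_of_mul_le_mul_left h5 hN
  have h7 : (U ⊔ W).relIndex H = 1 := by
    have h8 : (U ⊔ W).relIndex H ≤ 1 := by
      by_contra h9
      have h10 : 2 ≤ (U ⊔ W).relIndex H := by omega
      have h11 : W.relIndex U * 2 ≤ W.relIndex U * (U ⊔ W).relIndex H :=
        Nat.mul_le_mul_left _ h10
      omega
    omega
  refine ⟨?_, ?_⟩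
  · apply le_antisymm hY
    rw [h7, mul_one] at e3
    rw [← e3, ← e1] at hcard
    exact Nat.le_of_mul_le_mul_right hcard (Nat.pos_of_ne_zero h4)
  · rw [sup_comm]
    exact AddSubgroup.relIndex_eq_one.1 h7

theorem sd_of_loc {G X : Type} [Group G] [Finite G] [AddCommGroup X] [DistribMulAction G X]
    (hG : Odd (Nat.card G)) {U H W : AddSubgroup X} (hU : Stab G U) (hH : Stab G H)
    (hW : Stab G W) (hUH : U ≤ H) (hsup : H ≤ W ⊔ U) (h2 : ∀ x ∈ U, x + x = 0)
    [Finite U] (M M' : Type) [AddCommGroup M] [Finite M] [DistribMulAction G M]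
    [AddCommGroup M'] [Finite M'] [DistribMulAction G M']
    (hUsd : hq G M U ⊥ = hq G M' U ⊥) (hloc : hq G M H W = hq G M' H W) :
    hq G M (U ⊓ W) ⊥ = hq G M' (U ⊓ W) ⊥ := by
  have hst : Stab G (U ⊓ W) := fun g x hx => ⟨hU g x hx.1, hW g x hx.2⟩
  have hd : dbl U ≤ ⊥ := by
    intro x hx
    obtain ⟨y, hy, rfl⟩ := mem_dbl.1 hx
    rw [AddSubgroup.mem_bot, two_zsmul]
    exact h2 y hy
  have key : ∀ (M : Type) [AddCommGroup M] [DistribMulAction G M],
      hq G M U ⊥ = hq G M (U ⊓ W) ⊥ * hq G M H W := by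
    intro M _ _
    rw [hq_mul hG hU hst Ma_bot bot_le inf_le_left hd]
    congr 1
    refine hq_iso (AddMonoidHom.id X) (fun g x => rfl) hU hst hH hW ?_ ?_ ?_
    · rw [AddSubgroup.map_id]
      exact hUH
    · rw [AddSubgroup.map_id]
      exact hsup
    · intro a ha
      exact ⟨fun h => ⟨ha, h⟩, fun h => h.2⟩
  have k1 := key M
  have k2 := key M'
  rw [hUsd, k2, ← hloc] at k1
  have hpos : 0 < hq G M H W := by
    have hp : 0 < hq G M U ⊥ := hq_pos hU Ma_bot (by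
      rw [AddSubgroup.relIndex_bot_left]
      exact Nat.card_pos.ne')
    rw [key M] at hp
    exact Nat.pos_of_mul_pos_left hp
  exact (Nat.eq_of_mul_eq_mul_right hpos k1).symm

end H26OD

open scoped Classical
open WithZero NumberField IsDedekindDomain H38RT
open H38T1 (SC sc scu rep eo la si OddP)
open H76PP

namespace H88OD

variable {K F L : Type} [Field K] [NumberField K] [Field F] [NumberField F] [Field L]
  [NumberField L] [Algebra K F] [Algebra F L] {a b : K} {θ : L}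

theorem aboveF_fin (Sg : Finset (HeightOneSpectrum (𝓞 K))) :
    {v : HeightOneSpectrum (𝓞 F) | dn K v ∈ Sg}.Finite := by
  have h1 : {v : HeightOneSpectrum (𝓞 F) | dn K v ∈ Sg} =
      ⋃ v ∈ Sg, {u : HeightOneSpectrum (𝓞 F) | dn K u = v} := by
    ext w
    simp only [Set.mem_iUnion, Set.mem_ofPred_eq]
    constructor
    · intro hw
      exact ⟨dn K w, hw, rfl⟩
    · rintro ⟨v, hv, hw⟩
      rw [hw]
      exact hv
  rw [h1]
  exact Sg.finite_toSet.biUnion fun v _ => fin_above v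

/-- The self-duality of the relaxed Selmer group of minimal order. -/
theorem Y_sd (S : Ext K F L a b θ) {D : K} {Sg : Finset (HeightOneSpectrum (𝓞 K))}
    (hok : S.Ok D Sg) {T : Finset (HeightOneSpectrum (𝓞 K))} (hd : Disjoint Sg T)
    (hnb : ∀ v : HeightOneSpectrum (𝓞 F), dn K v ∈ T → H30ZO.nb F L v = 2) {n : ℕ}
    (hn : n = {v : HeightOneSpectrum (𝓞 F) | dn K v ∈ T}.ncard) {W Y : AddSubgroup (SC L)}
    (hW : ∀ c, c ∈ W ↔ c ∈ H30ZO.HH F L ∧ (∀ v : HeightOneSpectrum (𝓞 F), dn K v ∈ Sg →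
      S.Lv D v c) ∧ ∀ s : F →+* ℝ, S.Lr D s c)
    (hY : ∀ c, c ∈ Y ↔ S.Y D Sg T c) (hcard : Nat.card Y = 2 ^ n)
    [DistribMulAction (F ≃ₐ[K] F) (SC L)]
    (hact : ∀ (g : F ≃ₐ[K] F) (c : SC L), g • c = S.ρ g • c) (hG : Odd (Nat.card (F ≃ₐ[K] F)))
    (M : Type) [AddCommGroup M] [Finite M] [DistribMulAction (F ≃ₐ[K] F) M]
    (hM : ∀ m : M, m + m = 0)
    (hloc : hq (F ≃ₐ[K] F) M (H30ZO.HH F L) W =
      hq (F ≃ₐ[K] F) (H26OD.Du M) (H30ZO.HH F L) W) :
    hq (F ≃ₐ[K] F) M Y ⊥ = hq (F ≃ₐ[K] F) (H26OD.Du M) Y ⊥ := by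
  have hYfin : Finite Y := Nat.finite_of_card_ne_zero (by rw [hcard]; positivity)
  -- the count
  obtain ⟨SgF, hSgF⟩ : ∃ A : Finset (HeightOneSpectrum (𝓞 F)), ∀ v, v ∈ A ↔ dn K v ∈ Sg :=
    ⟨(aboveF_fin (F := F) Sg).toFinset, fun v => by rw [Set.Finite.mem_toFinset]; exact Iff.rfl⟩
  obtain ⟨TF, hTF⟩ : ∃ A : Finset (HeightOneSpectrum (𝓞 F)), ∀ v, v ∈ A ↔ dn K v ∈ T :=
    ⟨(aboveF_fin (F := F) T).toFinset, fun v => by rw [Set.Finite.mem_toFinset]; exact Iff.rfl⟩
  have hTc : TF.card = n := by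
    rw [hn, ← Set.ncard_coe_finset]
    congr 1
    ext v
    exact hTF v
  have hval : ∀ (v : HeightOneSpectrum (𝓞 F)) (x : K), (dn K v).valuation K x ≤ 1 →
      v.valuation F (algebraMap K F x) ≤ 1 := by
    intro v x hx
    have h1 := val_exp_le (L := F) (w := v) (x := x) (m := 0) le_rfl (by rwa [neg_zero, exp_zero])
    rwa [neg_zero, exp_zero] at h1
  have e1 : ∀ c, c ∈ W ↔ c ∈ H30ZO.HH F L ∧
      (∀ v ∈ SgF, H30ZO.Wc (algebraMap F (v.adicCompletion F))
        (algebraMap K F D ^ 2 * algebraMap K F a) (algebraMap K F D ^ 3 * algebraMap K F b)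
        (algebraMap F L (algebraMap K F D) * θ) c) ∧
      ∀ s : F →+* ℝ, H30ZO.Wc s (algebraMap K F D ^ 2 * algebraMap K F a)
        (algebraMap K F D ^ 3 * algebraMap K F b) (algebraMap F L (algebraMap K F D) * θ) c := by
    intro c
    rw [hW]
    simp only [← map_pow, ← map_mul, hSgF]
    exact Iff.rfl
  have hdF : Disjoint SgF TF := by
    rw [Finset.disjoint_left]
    intro v h1 h2
    exact Finset.disjoint_left.1 hd ((hSgF v).1 h1) ((hTF v).1 h2)
  obtain ⟨hrel, hle, hfin⟩ := H30OD.card_tw S.cub (fun v => hval v a (S.ha _))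
    (fun v => hval v b (S.hb _)) (by
      have h1 : algebraMap K F (4 * a ^ 3 + 27 * b ^ 2) ≠ 0 := (map_ne_zero _).2 S.dne
      rwa [map_add, map_mul, map_mul, map_pow, map_pow, map_ofNat, map_ofNat] at h1)
    (E := algebraMap K F D) ((map_ne_zero _).2 hok.ne) hdF (by
      intro v hv
      rw [hSgF]
      by_contra h1
      have h2 := hok.two _ h1
      have h3 := val_one (L := F) (w := v) (x := (2 : K)) h2
      rw [map_ofNat] at h3
      rw [h3] at hv
      exact lt_irrefl _ hv) (fun v hv => hnb v ((hTF v).1 hv)) e1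
  have hU : US L {w : HeightOneSpectrum (𝓞 L) | dn F w ∈ SgF ∪ TF} ⊓ H30ZO.HH F L =
      UH K F L (Sg ∪ T) := by
    have h1 : {w : HeightOneSpectrum (𝓞 L) | dn F w ∈ SgF ∪ TF} = ab K F L (Sg ∪ T) := by
      ext w
      rw [Set.mem_ofPred_eq, Finset.mem_union, hSgF, hTF]
      exact Finset.mem_union.symm
    rw [h1]
    rfl
  rw [hU] at hle hfin
  rw [hTc] at hle
  have hUH : UH K F L (Sg ∪ T) ≤ H30ZO.HH F L := inf_le_right
  have hWH : W ≤ H30ZO.HH F L := fun c hc => ((hW c).1 hc).1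
  have hUW : UH K F L (Sg ∪ T) ⊓ W ≤ Y := by
    rintro c ⟨⟨⟨u, hu, rfl⟩, h2⟩, h3⟩
    have h3' := (hW _).1 h3
    rw [hY]
    refine ⟨h3'.1, h3'.2.1, h3'.2.2, ?_⟩
    intro w h4 h5
    have h6 : w ∉ ab K F L (Sg ∪ T) := by
      intro h7
      have h8 : dn K (dn F w) ∈ Sg ∪ T := h7
      rcases Finset.mem_union.1 h8 with h9 | h9
      · exact h4 h9
      · exact h5 h9
    rw [cls_eq, H38T1.eo_sc (Units.ne_zero _), ord, hu w h6, log_one, neg_zero, Int.cast_zero]
  have hcU : Nat.card ↥(UH K F L (Sg ∪ T) ⊓ W) ≤ 2 ^ n := by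
    rw [← hcard]
    exact Nat.card_le_card_of_injective _ (AddSubgroup.inclusion_injective hUW)
  obtain ⟨hc1, hsup⟩ := H26OD.Md_card hUH hWH hrel hle hcU
  have hYe : UH K F L (Sg ∪ T) ⊓ W = Y := by
    refine AddSubgroup.ext fun c => ⟨fun h => hUW h, fun h => ?_⟩
    have h1 : ((UH K F L (Sg ∪ T) ⊓ W : AddSubgroup (SC L)) : Set (SC L)) = (Y : Set (SC L)) := by
      apply Set.eq_of_subset_of_ncard_le hUW
      · rw [← Nat.card_coe_set_eq, ← Nat.card_coe_set_eq]
        change Nat.card Y ≤ Nat.card ↥(UH K F L (Sg ∪ T) ⊓ W)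
        rw [hc1, hcard]
    exact (Set.ext_iff.1 h1 c).2 h
  rw [← hYe]
  refine H26OD.sd_of_loc hG ?_ ?_ ?_ hUH hsup ?_ M (H26OD.Du M) (UH_sd S (Sg ∪ T) hact hG M hM)
    hloc
  · intro g c hc
    rw [hact]
    exact UH_smul S _ g hc
  · intro g c hc
    rw [hact]
    exact HH_smul S g hc
  · intro g c hc
    rw [hact]
    rw [hW] at hc ⊢
    refine ⟨HH_smul S g hc.1, ?_, ?_⟩
    · intro v hv
      have h1 : v = gq g • (gq g)⁻¹ • v := (smul_inv_smul _ _).symm
      rw [h1, Lv_smul]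
      apply hc.2.1
      have h2 := dn_gq g ((gq g)⁻¹ • v)
      rw [smul_inv_smul] at h2
      rw [← h2]
      exact hv
    · intro s
      have h1 : s = (s.comp ((g : F ≃ₐ[K] F) : F →+* F)).comp
          ((g⁻¹ : F ≃ₐ[K] F) : F →+* F) := by
        ext x
        change s x = s (g (g⁻¹ x))
        rw [← AlgEquiv.mul_apply, mul_inv_cancel]
        rfl
      rw [h1, Lr_smul]
      exact hc.2.2 _
  · intro x _
    rw [← two_nsmul]
    exact H38T1.SC.two_smul x

end H88OD
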